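import Mathlib

open Complex Filter Topology Metric Set

namespace Pool.Agent.P.MP_323ce2_nt

/-- Three circles theorem, from the three lines theorem. -/
lemma three_circles {f : ℂ → ℂ} {c : ℂ} {r1 r2 r3 R a b : ℝ} (h1 : 0 < r1) (h12 : r1 ≤ r2)
    (h23 : r2 ≤ r3) (h13 : r1 < r3) (h3R : r3 < R) (hf : DifferentiableOn ℂ f (ball c R))
    (ha : ∀ z ∈ closedBall c r1, ‖f z‖ ≤ a) (hb : ∀ z ∈ closedBall c r3, ‖f z‖ ≤ b)
    (ha0 : 0 < a) (hab : a ≤ b) {z : ℂ} (hz : z ∈ closedBall c r2) :
    ‖f z‖ ≤ a * (b / a) ^ ((Real.log r2 - Real.log r1) / (Real.log r3 - Real.log r1)) := by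
  have hl13 : Real.log r1 < Real.log r3 := Real.log_lt_log h1 h13
  have hl12 : Real.log r1 ≤ Real.log r2 := Real.log_le_log h1 h12
  have hba : 1 ≤ b / a := (one_le_div ha0).2 hab
  by_cases hz1 : z ∈ closedBall c r1
  · refine (ha z hz1).trans (le_mul_of_one_le_right ha0.le ?_)
    exact Real.one_le_rpow hba (div_nonneg (by linarith) (by linarith))
  rw [mem_closedBall, dist_eq_norm] at hz hz1
  push Not at hz1
  have hzc : z - c ≠ 0 := by
    intro h; rw [h, norm_zero] at hz1; linarith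
  set F : ℂ → ℂ := fun w => f (c + exp w) with hF
  have hmem : ∀ w : ℂ, w.re ≤ Real.log r3 → c + exp w ∈ closedBall c r3 := by
    intro w hw
    rw [mem_closedBall, dist_eq_norm, add_sub_cancel_left, norm_exp]
    calc Real.exp w.re ≤ Real.exp (Real.log r3) := Real.exp_le_exp.2 hw
      _ = r3 := Real.exp_log (by linarith)
  have hdiff : ∀ w : ℂ, w.re ≤ Real.log r3 → DifferentiableAt ℂ F w := by
    intro w hw
    have : c + exp w ∈ ball c R := closedBall_subset_ball h3R (hmem w hw)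
    exact (hf.differentiableAt (isOpen_ball.mem_nhds this)).comp w (by fun_prop)
  have hd : DiffContOnCl ℂ F (HadamardThreeLines.verticalStrip (Real.log r1) (Real.log r3)) := by
    refine DifferentiableOn.diffContOnCl fun w hw => (hdiff w ?_).differentiableWithinAt
    have : closure (HadamardThreeLines.verticalStrip (Real.log r1) (Real.log r3)) ⊆
        {w : ℂ | w.re ≤ Real.log r3} := by
      refine closure_minimal (fun w hw => le_of_lt hw.2) ?_
      exact isClosed_le continuous_re continuous_const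
    exact this hw
  have hB : BddAbove ((norm ∘ F) ''
      HadamardThreeLines.verticalClosedStrip (Real.log r1) (Real.log r3)) := by
    refine ⟨b, ?_⟩
    rintro _ ⟨w, hw, rfl⟩
    exact hb _ (hmem w hw.2)
  have hlog : (log (z - c)).re = Real.log ‖z - c‖ := log_re _
  have hz2 : Real.log r1 ≤ Real.log ‖z - c‖ := Real.log_le_log h1 hz1.le
  have hz3 : Real.log ‖z - c‖ ≤ Real.log r2 := Real.log_le_log (by linarith) hz
  have hz4 : Real.log r2 ≤ Real.log r3 := Real.log_le_log (by linarith) h23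
  have key := HadamardThreeLines.norm_le_interp_of_mem_verticalClosedStrip' (f := F)
    (z := log (z - c)) (a := a) (b := b) hl13
    (by constructor <;> rw [hlog] <;> linarith) hd hB
    (fun w hw => ha _ (by
      rw [mem_closedBall, dist_eq_norm, add_sub_cancel_left, norm_exp]
      have : w.re = Real.log r1 := hw
      rw [this, Real.exp_log h1]))
    (fun w hw => hb _ (hmem w (le_of_eq hw)))
  have hFz : F (log (z - c)) = f z := by simp [hF, exp_log hzc]
  rw [hFz, hlog] at key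
  refine key.trans ?_
  set t := (Real.log ‖z - c‖ - Real.log r1) / (Real.log r3 - Real.log r1) with ht
  have e : a ^ (1 - t) * b ^ t = a * (b / a) ^ t := by
    rw [Real.div_rpow (by linarith) ha0.le, Real.rpow_sub ha0, Real.rpow_one]
    have : 0 < a ^ t := Real.rpow_pos_of_pos ha0 t
    field_simp
  rw [e]
  gcongr
  rw [ht]
  gcongr

/-- Dividing out finitely many zeros. -/
lemma exists_factor {U : Set ℂ} (hU : IsOpen U) (Z : Finset ℂ) :
    ∀ {f : ℂ → ℂ}, DifferentiableOn ℂ f U → (∀ ρ ∈ Z, ρ ∈ U ∧ f ρ = 0) →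
      ∃ h : ℂ → ℂ, DifferentiableOn ℂ h U ∧ ∀ s, f s = h s * ∏ ρ ∈ Z, (s - ρ) := by
  classical
  induction Z using Finset.induction_on with
  | empty => intro f hf _; exact ⟨f, hf, by simp⟩
  | insert ρ Z hρ ih =>
    intro f hf hz
    have hρU := (hz ρ (Finset.mem_insert_self _ _)).1
    have hρ0 := (hz ρ (Finset.mem_insert_self _ _)).2
    have hd : DifferentiableOn ℂ (dslope f ρ) U :=
      (differentiableOn_dslope (hU.mem_nhds hρU)).2 hf
    have hmul : ∀ s, f s = (s - ρ) * dslope f ρ s := by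
      intro s
      have := sub_smul_dslope f ρ s
      rw [hρ0, sub_zero, smul_eq_mul] at this
      exact this.symm
    obtain ⟨h, hh, hfh⟩ := ih hd (fun σ hσ => by
      refine ⟨(hz σ (Finset.mem_insert_of_mem hσ)).1, ?_⟩
      have h0 := (hz σ (Finset.mem_insert_of_mem hσ)).2
      rw [hmul σ] at h0
      refine (mul_eq_zero.1 h0).resolve_left (sub_ne_zero.2 ?_)
      rintro rfl; exact hρ hσ)
    refine ⟨h, hh, fun s => ?_⟩
    rw [hmul s, hfh s, Finset.prod_insert hρ]; ring

/-- Analytic logarithm on a disc. -/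
lemma exists_log {h : ℂ → ℂ} {c : ℂ} {r : ℝ} (hr : 0 < r) (hh : DifferentiableOn ℂ h (ball c r))
    (h0 : ∀ z ∈ ball c r, h z ≠ 0) :
    ∃ φ : ℂ → ℂ, DifferentiableOn ℂ φ (ball c r) ∧ φ c = 0 ∧
      ∀ z ∈ ball c r, h z = h c * exp (φ z) := by
  have hd : DifferentiableOn ℂ (fun z => deriv h z / h z) (ball c r) :=
    (hh.deriv isOpen_ball).div hh h0
  obtain ⟨φ, hφ0, hφ⟩ := hd.isExactOn_ball.with_val_at c 0
  refine ⟨φ, fun z hz => (hφ z hz).differentiableAt.differentiableWithinAt, hφ0, ?_⟩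
  have hconst : ∀ z ∈ ball c r, h z * exp (-φ z) = h c * exp (-φ c) := by
    intro z hz
    refine isOpen_ball.is_const_of_deriv_eq_zero (𝕜 := ℂ) (f := fun z => h z * exp (-φ z))
      (convex_ball c r).isPreconnected ?_ ?_ hz (mem_ball_self hr)
    · intro w hw
      exact ((hh w hw).mul ((hφ w hw).differentiableAt.neg.cexp.differentiableWithinAt))
    · intro w hw
      have h1 : HasDerivAt h (deriv h w) w :=
        (hh.differentiableAt (isOpen_ball.mem_nhds hw)).hasDerivAt
      have h2 := h1.mul ((hφ w hw).neg.cexp)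
      have h3 := h0 w hw
      have : deriv (fun z => h z * exp (-φ z)) w = _ := h2.deriv
      simp only [Pi.zero_apply]
      rw [this]
      simp only [Pi.neg_apply]
      field_simp
      ring
  intro z hz
  have := hconst z hz
  rw [hφ0, neg_zero, exp_zero, mul_one] at this
  rw [← this, mul_assoc, ← exp_add]; simp

/-- Borel-Caratheodory at an arbitrary centre. -/
lemma bc {φ : ℂ → ℂ} {c : ℂ} {R r M : ℝ} (hM : 0 < M) (hr : 0 ≤ r) (hrR : r < R)
    (hφ : DifferentiableOn ℂ φ (ball c R)) (h0 : φ c = 0) (hre : ∀ z ∈ ball c R, (φ z).re ≤ M)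
    {z : ℂ} (hz : z ∈ closedBall c r) : ‖φ z‖ ≤ 2 * M * r / (R - r) := by
  have hR : 0 < R := by linarith
  rw [mem_closedBall, dist_eq_norm] at hz
  have hmem : ∀ w ∈ ball (0 : ℂ) R, c + w ∈ ball c R := by
    intro w hw
    rw [mem_ball_zero_iff] at hw
    rw [mem_ball, dist_eq_norm, add_sub_cancel_left]; exact hw
  have := borelCaratheodory_zero (f := fun w => φ (c + w)) (M := M) (R := R) (z := z - c) hM
    (hφ.comp (by fun_prop) hmem) (fun w hw => hre _ (hmem w hw)) hR
    (by rw [mem_ball_zero_iff]; linarith) (by simpa using h0)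
  simp only [add_sub_cancel] at this
  refine this.trans ?_
  gcongr

/-- A maximum principle on an interval. -/
lemma max_principle {h h1 h2 : ℝ → ℝ} {a b : ℝ} (hab : a ≤ b) (hc : ContinuousOn h (Icc a b))
    (hd1 : ∀ x ∈ Ioo a b, HasDerivAt h (h1 x) x) (hd2 : ∀ x ∈ Ioo a b, HasDerivAt h1 (h2 x) x)
    (ha : h a ≤ 0) (hb : h b ≤ 0) (hpos : ∀ x ∈ Ioo a b, 0 < h x → 0 < h2 x) :
    ∀ x ∈ Icc a b, h x ≤ 0 := by
  obtain ⟨y, hy, hmax⟩ := isCompact_Icc.exists_isMaxOn (nonempty_Icc.2 hab) hc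
  suffices h y ≤ 0 from fun x hx => (hmax hx).trans this
  by_contra hy0
  push Not at hy0
  have hyo : y ∈ Ioo a b := by
    refine ⟨lt_of_le_of_ne hy.1 ?_, lt_of_le_of_ne hy.2 ?_⟩
    · rintro rfl; linarith
    · rintro rfl; linarith
  have hloc : IsLocalMax h y := hmax.isLocalMax (Icc_mem_nhds hyo.1 hyo.2)
  have hz : h1 y = 0 := hloc.hasDerivAt_eq_zero (hd1 y hyo)
  have h2y := hpos y hyo hy0
  -- h1 is positive just to the right of y
  have hev : ∀ᶠ x in 𝓝[>] y, 0 < h1 x := by
    have := (hasDerivAt_iff_tendsto_slope.1 (hd2 y hyo))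
    have h' : ∀ᶠ x in 𝓝[≠] y, 0 < slope h1 y x := this.eventually (lt_mem_nhds h2y)
    have h'' : ∀ᶠ x in 𝓝[>] y, 0 < slope h1 y x :=
      h'.filter_mono (nhdsWithin_mono _ fun x hx => ne_of_gt hx)
    filter_upwards [h'', self_mem_nhdsWithin] with x hx hx'
    rw [slope_def_field, hz, sub_zero] at hx
    exact (div_pos_iff_of_pos_right (sub_pos.2 hx')).1 hx
  obtain ⟨u, hu, hsub⟩ := (mem_nhdsGT_iff_exists_Ioo_subset).1 hev
  set v := (y + min u b) / 2 with hv
  have hyv : y < v := by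
    have : y < min u b := lt_min hu hyo.2
    linarith
  have hvu : v < u := by
    have : y < min u b := lt_min hu hyo.2
    have := min_le_left u b
    linarith
  have hvb : v < b := by
    have : y < min u b := lt_min hu hyo.2
    have := min_le_right u b
    linarith
  obtain ⟨ξ, hξ, hξe⟩ := exists_hasDerivAt_eq_slope h h1 hyv
    (hc.mono (Icc_subset_Icc hy.1 hvb.le))
    (fun x hx => hd1 x ⟨hyo.1.trans hx.1, hx.2.trans hvb⟩)
  have h3 : 0 < h1 ξ := hsub ⟨hξ.1, hξ.2.trans hvu⟩
  rw [hξe] at h3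
  have h4 : 0 < h v - h y := (div_pos_iff_of_pos_right (sub_pos.2 hyv)).1 h3
  have h5 : h v ≤ h y := hmax ⟨hy.1.trans hyv.le, hvb.le⟩
  linarith

/-- A point of an interval where a monic real-rooted polynomial is large (Chebyshev). -/
lemma exists_good_point {ι : Type*} (Z : Finset ι) (γ : ι → ℝ) (a : ℝ) {l : ℝ} (hl : 0 < l) :
    ∃ x ∈ Icc a (a + l), (l / 4) ^ Z.card ≤ ∏ i ∈ Z, |x - γ i| := by
  by_contra hcon
  push Not at hcon
  set n := Z.card with hn
  have hn0 : n ≠ 0 := by
    intro h0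
    have hZ : Z = ∅ := Finset.card_eq_zero.1 h0
    have := hcon a ⟨le_rfl, by linarith⟩
    simp [h0, hZ] at this
  set P : Polynomial ℝ := Polynomial.C ((2 : ℝ) ^ n) *
    ∏ i ∈ Z, (Polynomial.X - Polynomial.C ((γ i - (a + l / 2)) / (l / 2))) with hP
  have hmon : (∏ i ∈ Z, (Polynomial.X - Polynomial.C ((γ i - (a + l / 2)) / (l / 2)))).Monic :=
    Polynomial.monic_prod_of_monic _ _ fun i _ => Polynomial.monic_X_sub_C _
  have hnd : (∏ i ∈ Z, (Polynomial.X - Polynomial.C ((γ i - (a + l / 2)) / (l / 2)))).natDegree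
      = n := by
    rw [Polynomial.natDegree_prod_of_monic _ _ fun i _ => Polynomial.monic_X_sub_C _]
    simp [hn]
  have hdeg : P.degree ≤ n := by
    refine Polynomial.degree_le_of_natDegree_le ?_
    exact (Polynomial.natDegree_C_mul_le _ _).trans hnd.le
  have hlc : P.leadingCoeff = 2 ^ n := by
    rw [hP, Polynomial.leadingCoeff_mul, hmon.leadingCoeff, Polynomial.leadingCoeff_C, mul_one]
  have hbd : ∀ y ∈ Icc (-1 : ℝ) 1, |P.eval y| ≤ 1 := by
    intro y hy
    have hx := hcon (a + l / 2 + y * (l / 2)) ⟨by nlinarith [hy.1], by nlinarith [hy.2]⟩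
    have e : ∀ i, |a + l / 2 + y * (l / 2) - γ i| = l / 2 * |y - (γ i - (a + l / 2)) / (l / 2)| := by
      intro i
      rw [← abs_of_pos (show 0 < l / 2 by linarith), ← abs_mul, abs_of_pos (show 0 < l / 2 by linarith)]
      congr 1; field_simp; ring
    simp only [e, Finset.prod_mul_distrib, Finset.prod_const] at hx
    rw [hP, Polynomial.eval_mul, Polynomial.eval_C, Polynomial.eval_prod, abs_mul,
      Finset.abs_prod, abs_of_pos (by positivity)]
    simp only [Polynomial.eval_sub, Polynomial.eval_X, Polynomial.eval_C]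
    rw [← hn] at hx
    have e2 : (l / 4) ^ n = (l / 2) ^ n * (2 ^ n)⁻¹ := by
      rw [← inv_pow, ← mul_pow]; congr 1; ring
    rw [e2] at hx
    have h3 := lt_of_mul_lt_mul_left hx (by positivity)
    have h4 : (0 : ℝ) < 2 ^ n := by positivity
    calc _ ≤ 2 ^ n * (2 ^ n : ℝ)⁻¹ := by gcongr
      _ = 1 := mul_inv_cancel₀ h4.ne'
  have := Polynomial.Chebyshev.leadingCoeff_le_of_forall_abs_le_one hdeg hbd
  rw [hlc] at this
  have h5 : (2 : ℝ) ^ (n - 1) < 2 ^ n := pow_lt_pow_right₀ one_lt_two (by omega)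
  linarith

end Pool.Agent.P.MP_323ce2_nt
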