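import Mathlib

open Complex Filter Topology Set MeasureTheory FourierTransform SchwartzMap ComplexConjugate
open scoped Real ContDiff

namespace Pool.Agent.P.MP_323ce2_nt

lemma continuous_FT {φ : ℝ → ℂ} (h1 : Integrable φ) : Continuous (𝓕 φ) :=
  VectorFourier.fourierIntegral_continuous Real.continuous_fourierChar
    (innerSL ℝ).continuous₂ h1

lemma fourier_toLp_ae {φ : ℝ → ℂ} (h1 : Integrable φ) (h2 : MemLp φ 2 volume) :
    ((𝓕 (h2.toLp φ) : Lp ℂ 2 (volume : Measure ℝ)) : ℝ → ℂ) =ᵐ[volume] 𝓕 φ := by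
  refine ae_eq_of_integral_contDiff_smul_eq
    ((Lp.memLp _).locallyIntegrable (by norm_num)) (continuous_FT h1).locallyIntegrable ?_
  intro g hg hgc
  have hgc' : HasCompactSupport fun x => (g x : ℂ) := hgc.comp_left (g := ofReal) ofReal_zero
  have hg' : ContDiff ℝ ∞ fun x => (g x : ℂ) := ofRealCLM.contDiff.comp hg
  set G : 𝓢(ℝ, ℂ) := hgc'.toSchwartzMap hg' with hG
  have hGx : ∀ x, G x = g x := fun _ => rfl
  have e1 := congrArg (fun T : 𝓢'(ℝ, ℂ) => T G) (Lp.fourier_toTemperedDistribution_eq (h2.toLp φ))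
  simp only [TemperedDistribution.fourier_apply, Lp.toTemperedDistribution_apply] at e1
  have e2 : ∫ ξ, (𝓕 G) ξ • φ ξ = ∫ x, G x • 𝓕 φ x := by
    simpa using! VectorFourier.integral_fourierIntegral_smul_eq_flip (L := innerₗ ℝ)
      Real.continuous_fourierChar continuous_inner G.integrable h1
  have e3 : ∫ ξ, (𝓕 G) ξ • (h2.toLp φ) ξ = ∫ ξ, (𝓕 G) ξ • φ ξ := by
    refine integral_congr_ae ?_
    filter_upwards [h2.coeFn_toLp] with x hx
    rw [hx]
  rw [e3, e2] at e1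
  simp only [hGx, smul_eq_mul] at e1
  simp only [real_smul]
  exact e1.symm

lemma memLp_FT {φ : ℝ → ℂ} (h1 : Integrable φ) (h2 : MemLp φ 2 volume) : MemLp (𝓕 φ) 2 volume :=
  (Lp.memLp _).ae_eq (fourier_toLp_ae h1 h2)

lemma parseval_FT {φ ψ : ℝ → ℂ} (h1 : Integrable φ) (h2 : MemLp φ 2 volume)
    (k1 : Integrable ψ) (k2 : MemLp ψ 2 volume) :
    ∫ ξ, 𝓕 ψ ξ * conj (𝓕 φ ξ) = ∫ u, ψ u * conj (φ u) := by
  have := Lp.inner_fourier_eq (h2.toLp φ) (k2.toLp ψ)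
  rw [L2.inner_def, L2.inner_def] at this
  simp only [RCLike.inner_apply] at this
  refine Eq.trans ?_ (this.trans ?_)
  · refine integral_congr_ae ?_
    filter_upwards [fourier_toLp_ae h1 h2, fourier_toLp_ae k1 k2] with x hx hx'
    rw [hx, hx']
  · refine integral_congr_ae ?_
    filter_upwards [h2.coeFn_toLp, k2.coeFn_toLp] with x hx hx'
    rw [hx, hx']

/-- Fourier integral with angular frequency. -/
noncomputable def FI (φ : ℝ → ℂ) (t : ℝ) : ℂ := ∫ u : ℝ, φ u * exp (t * u * I)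

lemma FI_eq (φ : ℝ → ℂ) (t : ℝ) : FI φ t = 𝓕 φ (-(2 * π)⁻¹ * t) := by
  rw [Real.fourier_real_eq_integral_exp_smul, FI]
  congr 1; ext u
  rw [smul_eq_mul, mul_comm]
  congr 3
  have := Real.pi_pos
  push_cast
  have : (π : ℂ) ≠ 0 := ofReal_ne_zero.2 Real.pi_pos.ne'
  field_simp

lemma conj_FI (φ : ℝ → ℂ) (t : ℝ) : conj (FI φ t) = FI (fun u => conj (φ u)) (-t) := by
  rw [FI, FI, ← integral_conj]
  congr 1; ext u
  rw [map_mul, ← exp_conj]
  simp

lemma abs_fac : |(-(2 * π)⁻¹ : ℝ)⁻¹| = 2 * π := by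
  rw [inv_neg, inv_inv, abs_neg, abs_of_pos (by positivity)]

lemma integrable_sq_FI {φ : ℝ → ℂ} (h1 : Integrable φ) (h2 : MemLp φ 2 volume) :
    Integrable fun t => ‖FI φ t‖ ^ 2 := by
  have := (memLp_two_iff_integrable_sq_norm (memLp_FT h1 h2).1).1 (memLp_FT h1 h2)
  simp only [FI_eq]
  exact this.comp_mul_left' (neg_ne_zero.2 (by positivity))

lemma parseval_FI {φ ψ : ℝ → ℂ} (h1 : Integrable φ) (h2 : MemLp φ 2 volume)
    (k1 : Integrable ψ) (k2 : MemLp ψ 2 volume) :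
    ∫ t, FI ψ t * conj (FI φ t) = (2 * π : ℝ) * ∫ u, ψ u * conj (φ u) := by
  simp only [FI_eq]
  rw [Measure.integral_comp_mul_left (fun ξ => 𝓕 ψ ξ * conj (𝓕 φ ξ)), abs_fac,
    parseval_FT h1 h2 k1 k2, real_smul]

lemma plancherel_FI {φ : ℝ → ℂ} (h1 : Integrable φ) (h2 : MemLp φ 2 volume) :
    ∫ t, ‖FI φ t‖ ^ 2 = 2 * π * ∫ u, ‖φ u‖ ^ 2 := by
  have := parseval_FI h1 h2 h1 h2
  simp only [mul_conj, normSq_eq_norm_sq, integral_ofReal] at this
  exact_mod_cast this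

lemma parseval_bilin {φ ψ : ℝ → ℂ} (h1 : Integrable φ) (h2 : MemLp φ 2 volume)
    (k1 : Integrable ψ) (k2 : MemLp ψ 2 volume) :
    ∫ t, FI φ (-t) * FI ψ t = (2 * π : ℝ) * ∫ u, φ u * ψ u := by
  have h1' : Integrable fun u => conj (φ u) :=
    memLp_one_iff_integrable.1 (memLp_one_iff_integrable.2 h1).star
  have h2' : MemLp (fun u => conj (φ u)) 2 volume := h2.star
  have := parseval_FI h1' h2' k1 k2
  simp only [conj_FI, conj_conj] at this
  simp only [mul_comm (FI φ _), mul_comm (φ _)]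
  exact this

end Pool.Agent.P.MP_323ce2_nt
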