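import Mathlib
import Pool.Agent.P.MP_323ce2_nt.Parseval

open Complex Filter Topology Set MeasureTheory ComplexConjugate Metric
open scoped Real

namespace Pool.Agent.P.MP_323ce2_nt

lemma rect_bound {H : ℂ → ℂ} (hH : DifferentiableOn ℂ H {s | 0 < s.re}) {σ1 σ2 T1 T2 B : ℝ}
    (h1 : 0 < σ1) (h12 : σ1 ≤ σ2)
    (hB1 : ∀ σ, σ1 ≤ σ → σ ≤ σ2 → ‖H (σ + T1 * I)‖ ≤ B)
    (hB2 : ∀ σ, σ1 ≤ σ → σ ≤ σ2 → ‖H (σ + T2 * I)‖ ≤ B) :
    ‖(∫ t in T1..T2, H (σ2 + t * I)) - ∫ t in T1..T2, H (σ1 + t * I)‖ ≤ 2 * B * (σ2 - σ1) := by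
  have key := integral_boundary_rect_eq_zero_of_differentiableOn H (σ1 + T1 * I) (σ2 + T2 * I)
    (hH.mono fun s hs => by
      have := hs.1
      simp only [add_re, ofReal_re, mul_re, I_re, mul_zero, ofReal_im, I_im, mul_one, sub_self,
        add_zero, uIcc_of_le h12, mem_preimage] at this
      exact h1.trans_le this.1)
  simp only [add_re, ofReal_re, mul_re, I_re, mul_zero, ofReal_im, I_im, mul_one, sub_self,
    add_zero, add_im, mul_im, zero_add, smul_eq_mul] at key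
  have e : (∫ t in T1..T2, H (σ2 + t * I)) - ∫ t in T1..T2, H (σ1 + t * I) =
      I * ((∫ x in σ1..σ2, H (x + T1 * I)) - ∫ x in σ1..σ2, H (x + T2 * I)) := by
    linear_combination (-I) * key +
      ((∫ t in T1..T2, H (σ2 + t * I)) - ∫ t in T1..T2, H (σ1 + t * I)) * I_mul_I
  rw [e, norm_mul, norm_I, one_mul]
  have k1 := intervalIntegral.norm_integral_le_of_norm_le_const (a := σ1) (b := σ2) (C := B)
    (f := fun x => H (x + T1 * I)) fun x hx => by
      rw [uIoc_of_le h12] at hx; exact hB1 x hx.1.le hx.2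
  have k2 := intervalIntegral.norm_integral_le_of_norm_le_const (a := σ1) (b := σ2) (C := B)
    (f := fun x => H (x + T2 * I)) fun x hx => by
      rw [uIoc_of_le h12] at hx; exact hB2 x hx.1.le hx.2
  rw [abs_of_nonneg (sub_nonneg.2 h12)] at k1 k2
  linarith [norm_sub_le (∫ x in σ1..σ2, H (x + T1 * I)) (∫ x in σ1..σ2, H (x + T2 * I))]

lemma shift_line {H : ℂ → ℂ} (hH : DifferentiableOn ℂ H {s | 0 < s.re}) {σ1 σ2 : ℝ}
    (h1 : 0 < σ1) (h12 : σ1 ≤ σ2) {b : ℝ → ℝ} (hb : Tendsto b atTop (𝓝 0))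
    (hB : ∀ σ t : ℝ, σ1 ≤ σ → σ ≤ σ2 → ‖H (σ + t * I)‖ ≤ b |t|)
    (i1 : Integrable fun t : ℝ => H (σ1 + t * I)) (i2 : Integrable fun t : ℝ => H (σ2 + t * I)) :
    ∫ t : ℝ, H (σ2 + t * I) = ∫ t : ℝ, H (σ1 + t * I) := by
  have t1 := intervalIntegral_tendsto_integral i1 tendsto_neg_atTop_atBot tendsto_id
  have t2 := intervalIntegral_tendsto_integral i2 tendsto_neg_atTop_atBot tendsto_id
  have t3 := (t2.sub t1).norm
  have t4 : Tendsto (fun X : ℝ => 2 * b X * (σ2 - σ1)) atTop (𝓝 (2 * 0 * (σ2 - σ1))) :=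
    (hb.const_mul 2).mul_const _
  have := le_of_tendsto_of_tendsto t3 t4 (by
    filter_upwards [eventually_ge_atTop 0] with X hX
    refine rect_bound hH h1 h12 (fun σ h h' => ?_) (fun σ h h' => ?_)
    · simpa [abs_of_nonneg hX] using hB σ (-X) h h'
    · simpa [abs_of_nonneg hX] using hB σ X h h')
  simp only [mul_zero, zero_mul, norm_le_zero_iff, sub_eq_zero] at this
  exact this

section test

variable {r : ℝ → ℂ} {C U : ℝ}

/-- The test function. -/
noncomputable def tf (r : ℝ → ℂ) (U σ : ℝ) : ℝ → ℂ :=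
  (Ioc 0 U).indicator fun u => conj (r u) * exp (σ * u)

noncomputable def Psi (r : ℝ → ℂ) (U : ℝ) (s : ℂ) : ℂ := ∫ u in Ioc 0 U, conj (r u) * exp (s * u)

lemma Psi_eq (r : ℝ → ℂ) (U σ t : ℝ) : Psi r U (σ + t * I) = FI (tf r U σ) t := by
  rw [Psi, FI, ← integral_indicator measurableSet_Ioc]
  congr 1; ext u
  by_cases h : u ∈ Ioc 0 U
  · simp only [tf, indicator_of_mem h]
    rw [mul_assoc, ← exp_add]; congr 2; ring
  · simp only [tf, indicator_of_notMem h, zero_mul]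

lemma memLp_Ioc {g : ℝ → ℂ} (hg : Measurable g) {B : ℝ} (hB : ∀ u ∈ Ioc 0 U, ‖g u‖ ≤ B)
    (p : ENNReal) : MemLp g p (volume.restrict (Ioc 0 U)) :=
  MemLp.of_bound hg.aestronglyMeasurable B
    ((ae_restrict_iff' measurableSet_Ioc).2 (Eventually.of_forall hB))

lemma r_bd (hC : ∀ u, 0 ≤ u → ‖r u‖ ≤ C * Real.exp (u / 2)) {u : ℝ} (hu : u ∈ Ioc 0 U) :
    ‖r u‖ ≤ |C| * Real.exp (U / 2) :=
  (hC u hu.1.le).trans (by gcongr; exacts [le_abs_self C, hu.2])

lemma norm_exp_le {s : ℂ} {R u : ℝ} (hs : ‖s‖ ≤ R) (hu : u ∈ Ioc 0 U) :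
    ‖exp (s * u)‖ ≤ Real.exp (R * U) := by
  rw [norm_exp, Real.exp_le_exp]
  refine (re_le_norm _).trans ?_
  rw [norm_mul, norm_real, Real.norm_eq_abs, abs_of_pos hu.1]
  have := (norm_nonneg s).trans hs
  gcongr
  · exact hu.1.le
  · exact hu.2

lemma memLp_tf (hr : Measurable r) (hC : ∀ u, 0 ≤ u → ‖r u‖ ≤ C * Real.exp (u / 2))
    (σ : ℝ) (p : ENNReal) : MemLp (tf r U σ) p volume := by
  rw [tf, memLp_indicator_iff_restrict measurableSet_Ioc]
  refine memLp_Ioc (by fun_prop) (B := |C| * Real.exp (U / 2) * Real.exp (‖(σ : ℂ)‖ * U))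
    (fun u hu => ?_) p
  rw [norm_mul, RCLike.norm_conj]
  gcongr
  · exact r_bd hC hu
  · exact norm_exp_le le_rfl hu

lemma integrableOn_sq (hr : Measurable r) (hC : ∀ u, 0 ≤ u → ‖r u‖ ≤ C * Real.exp (u / 2)) :
    IntegrableOn (fun u => ‖r u‖ ^ 2) (Ioc 0 U) :=
  (memLp_two_iff_integrable_sq_norm hr.aestronglyMeasurable).1
    (memLp_Ioc hr (fun _ hu => r_bd hC hu) 2)

lemma differentiable_Psi (hr : Measurable r) (hC : ∀ u, 0 ≤ u → ‖r u‖ ≤ C * Real.exp (u / 2)) :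
    Differentiable ℂ (Psi r U) := by
  intro s
  refine (hasDerivAt_integral_of_dominated_loc_of_deriv_le (μ := volume.restrict (Ioc 0 U))
    (F := fun s u => conj (r u) * exp (s * u)) (F' := fun s u => conj (r u) * (exp (s * u) * u))
    (s := ball s 1) (bound := fun _ => |C| * Real.exp (U / 2) * (Real.exp ((‖s‖ + 1) * U) * U))
    (ball_mem_nhds s one_pos) (Eventually.of_forall fun x => ?_) ?_ ?_ ?_ ?_ ?_).2.differentiableAt
  · exact Measurable.aestronglyMeasurable (by fun_prop)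
  · refine memLp_one_iff_integrable.1 (memLp_Ioc (by fun_prop)
      (B := |C| * Real.exp (U / 2) * Real.exp (‖s‖ * U)) (fun u hu => ?_) 1)
    rw [norm_mul, RCLike.norm_conj]
    gcongr
    · exact r_bd hC hu
    · exact norm_exp_le le_rfl hu
  · exact Measurable.aestronglyMeasurable (by fun_prop)
  · refine (ae_restrict_iff' measurableSet_Ioc).2 (Eventually.of_forall fun u hu x hx => ?_)
    rw [norm_mul, norm_mul, RCLike.norm_conj, norm_real, Real.norm_eq_abs, abs_of_pos hu.1]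
    have hx' : ‖x‖ ≤ ‖s‖ + 1 := by
      rw [mem_ball, dist_eq_norm] at hx
      linarith [norm_le_norm_add_norm_sub' x s]
    have := hu.1.le
    gcongr
    · exact r_bd hC hu
    · exact norm_exp_le hx' hu
    · exact hu.2
  · exact integrable_const _
  · refine Eventually.of_forall fun u x _ => ?_
    exact (((hasDerivAt_id x).mul_const (u : ℂ)).cexp.const_mul _).congr_deriv (by simp)

lemma norm_Psi_le (hr : Measurable r) (hC : ∀ u, 0 ≤ u → ‖r u‖ ≤ C * Real.exp (u / 2))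
    (hU : 0 ≤ U) {σ η : ℝ} (hη : 0 ≤ η) (hσ : σ ≤ η) (t : ℝ) :
    ‖Psi r U (σ + t * I)‖ ≤ Real.exp (η * U) * (U + ∫ u in Ioc 0 U, ‖r u‖ ^ 2) / 2 := by
  have hi : IntegrableOn (fun u => Real.exp (η * U) / 2 * (1 + ‖r u‖ ^ 2)) (Ioc 0 U) :=
    ((integrable_const _).add (integrableOn_sq hr hC)).const_mul _
  refine (norm_integral_le_of_norm_le hi ?_).trans (le_of_eq ?_)
  · refine (ae_restrict_iff' measurableSet_Ioc).2 (Eventually.of_forall fun u hu => ?_)
    rw [norm_mul, RCLike.norm_conj, norm_exp]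
    have e : ((σ + t * I) * u : ℂ).re = σ * u := by simp
    have h1 : Real.exp (σ * u) ≤ Real.exp (η * U) := by
      rw [Real.exp_le_exp]
      nlinarith [hu.1, hu.2]
    rw [e]
    calc _ ≤ (1 + ‖r u‖ ^ 2) / 2 * Real.exp (η * U) := by
          gcongr
          nlinarith [sq_nonneg (‖r u‖ - 1)]
      _ = _ := by ring
  · rw [integral_const_mul, integral_add (integrable_const _) (integrableOn_sq hr hC)]
    simp [hU]
    ring

lemma integral_sq_Psi_le (hr : Measurable r) (hC : ∀ u, 0 ≤ u → ‖r u‖ ≤ C * Real.exp (u / 2))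
    {σ : ℝ} (hσ : 0 ≤ σ) :
    ∫ t : ℝ, ‖Psi r U (σ + t * I)‖ ^ 2 ≤
      2 * π * (Real.exp (2 * σ * U) * ∫ u in Ioc 0 U, ‖r u‖ ^ 2) := by
  simp only [Psi_eq]
  rw [plancherel_FI (memLp_one_iff_integrable.1 (memLp_tf hr hC σ 1)) (memLp_tf hr hC σ 2)]
  gcongr
  rw [← integral_const_mul, ← integral_indicator measurableSet_Ioc]
  refine integral_mono ((memLp_two_iff_integrable_sq_norm (memLp_tf hr hC σ 2).1).1
    (memLp_tf hr hC σ 2))
    ((integrable_indicator_iff measurableSet_Ioc).2 ((integrableOn_sq hr hC).const_mul _))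
    fun u => ?_
  by_cases h : u ∈ Ioc 0 U
  · simp only [tf, indicator_of_mem h]
    rw [norm_mul, RCLike.norm_conj, norm_exp, mul_pow, mul_comm, ← Real.exp_nat_mul]
    refine mul_le_mul_of_nonneg_right (Real.exp_le_exp.2 ?_) (sq_nonneg _)
    have e : ((σ : ℂ) * u).re = σ * u := by simp
    rw [e]
    push_cast
    nlinarith [h.1, h.2]
  · simp [tf, indicator_of_notMem h]

lemma integrable_sq_Psi (hr : Measurable r) (hC : ∀ u, 0 ≤ u → ‖r u‖ ≤ C * Real.exp (u / 2))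
    (σ : ℝ) : Integrable fun t : ℝ => ‖Psi r U (σ + t * I)‖ ^ 2 := by
  simp only [Psi_eq]
  exact integrable_sq_FI (memLp_one_iff_integrable.1 (memLp_tf hr hC σ 1)) (memLp_tf hr hC σ 2)

lemma parseval_start (hr : Measurable r) (hC : ∀ u, 0 ≤ u → ‖r u‖ ≤ C * Real.exp (u / 2))
    {G : ℂ → ℂ}
    (hG : ∀ t : ℝ, G ((3 / 2 : ℝ) + t * I) = ∫ u in Ioi (0 : ℝ), r u * exp (-((3 / 2 : ℝ) + t * I) * u)) :
    ∫ t : ℝ, G ((3 / 2 : ℝ) + t * I) * Psi r U ((3 / 2 : ℝ) + t * I) =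
      ((2 * π * ∫ u in Ioc 0 U, ‖r u‖ ^ 2 : ℝ) : ℂ) := by
  set φ : ℝ → ℂ := (Ioi 0).indicator fun u => r u * exp (-(3 / 2 : ℝ) * u) with hφ
  have hm : Measurable fun u : ℝ => r u * exp (-(3 / 2 : ℝ) * u) := by fun_prop
  have hb : ∀ u ∈ Ioi (0 : ℝ), ‖r u * exp (-(3 / 2 : ℝ) * u)‖ ≤ C * Real.exp (-u) := by
    intro u hu
    rw [norm_mul, norm_exp]
    have e : (-((3 / 2 : ℝ) : ℂ) * u).re = -(3 / 2) * u := by simp
    rw [e]
    calc _ ≤ C * Real.exp (u / 2) * Real.exp (-(3 / 2) * u) := by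
          gcongr; exact hC u (le_of_lt hu)
      _ = _ := by rw [mul_assoc, ← Real.exp_add]; ring_nf
  have h1 : Integrable φ := by
    rw [hφ, integrable_indicator_iff measurableSet_Ioi]
    refine Integrable.mono' ((integrableOn_exp_neg_Ioi 0).const_mul C) hm.aestronglyMeasurable
      ((ae_restrict_iff' measurableSet_Ioi).2 (Eventually.of_forall hb))
  have h2 : MemLp φ 2 volume := by
    rw [hφ, memLp_indicator_iff_restrict measurableSet_Ioi,
      memLp_two_iff_integrable_sq_norm hm.aestronglyMeasurable]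
    refine Integrable.mono' ((integrableOn_exp_neg_Ioi 0).const_mul (C ^ 2))
      (hm.norm.pow_const 2).aestronglyMeasurable
      ((ae_restrict_iff' measurableSet_Ioi).2 (Eventually.of_forall fun u hu => ?_))
    rw [Real.norm_eq_abs, abs_of_nonneg (sq_nonneg _)]
    have h3 : Real.exp (-u) ≤ 1 := Real.exp_le_one_iff.2 (by linarith [mem_Ioi.1 hu])
    have h4 := Real.exp_pos (-u)
    calc _ ≤ (C * Real.exp (-u)) ^ 2 := by gcongr; exact hb u hu
      _ = C ^ 2 * Real.exp (-u) * Real.exp (-u) := by ring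
      _ ≤ _ := mul_le_of_le_one_right (by positivity) h3
  have e1 : ∀ t : ℝ, G ((3 / 2 : ℝ) + t * I) = FI φ (-t) := by
    intro t
    rw [hG, FI, ← integral_indicator measurableSet_Ioi]
    congr 1; ext u
    by_cases h : u ∈ Ioi (0 : ℝ)
    · simp only [hφ, indicator_of_mem h]
      rw [mul_assoc, ← exp_add]; congr 2; push_cast; ring
    · simp only [hφ, indicator_of_notMem h, zero_mul]
  simp only [e1, Psi_eq]
  rw [parseval_bilin h1 h2 (memLp_one_iff_integrable.1 (memLp_tf hr hC _ 1)) (memLp_tf hr hC _ 2),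
    ofReal_mul (2 * π), ← integral_complex_ofReal, ← integral_indicator measurableSet_Ioc]
  congr 2; ext u
  by_cases h : u ∈ Ioc 0 U
  · simp only [hφ, tf, indicator_of_mem h, indicator_of_mem (mem_Ioi.2 h.1)]
    rw [mul_mul_mul_comm, ← exp_add, mul_conj, normSq_eq_norm_sq]
    simp
  · simp only [tf, indicator_of_notMem h, mul_zero]

end test

end Pool.Agent.P.MP_323ce2_nt
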