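import Mathlib
import Pool.Agent.P.MP_323ce2_nt.Contour

open Complex Filter Topology Set MeasureTheory ComplexConjugate Metric
open scoped Real

namespace Pool.Agent.P.MP_323ce2_nt

variable {r : ℝ → ℂ} {C U : ℝ}

lemma continuous_line {G : ℂ → ℂ} (hG : DifferentiableOn ℂ G {s | 0 < s.re}) {σ : ℝ} (hσ : 0 < σ) :
    Continuous fun t : ℝ => G (σ + t * I) :=
  hG.continuousOn.comp_continuous (by fun_prop) fun t => by simpa using hσ

lemma piece_le (hr : Measurable r) (hC : ∀ u, 0 ≤ u → ‖r u‖ ≤ C * Real.exp (u / 2))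
    {G : ℂ → ℂ} {σ : ℝ} (hσ : 0 ≤ σ) {A : Set ℝ}
    (hA : IntegrableOn (fun t : ℝ => ‖G (σ + t * I)‖ ^ 2) A) :
    ‖∫ t in A, G (σ + t * I) * Psi r U (σ + t * I)‖ ≤
      Real.exp (2 * σ * U) * (∫ t in A, ‖G (σ + t * I)‖ ^ 2)
        + π * (∫ u in Ioc 0 U, ‖r u‖ ^ 2) / 2 := by
  set l := Real.exp (2 * σ * U) with hl
  have hl0 : 0 < l := Real.exp_pos _
  have i2 := integrable_sq_Psi (U := U) hr hC σ
  have h1 := norm_integral_le_of_norm_le (μ := volume.restrict A)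
    (f := fun t : ℝ => G (σ + t * I) * Psi r U (σ + t * I))
    ((hA.const_mul l).add (i2.integrableOn.const_mul (1 / (4 * l))))
    (Eventually.of_forall fun t => by
      rw [norm_mul]
      simp only [Pi.add_apply]
      set a := ‖G (σ + t * I)‖
      set b := ‖Psi r U (σ + t * I)‖
      have : l * a ^ 2 + 1 / (4 * l) * b ^ 2 - a * b = (2 * l * a - b) ^ 2 / (4 * l) := by
        field_simp; ring
      have h2 : 0 ≤ (2 * l * a - b) ^ 2 / (4 * l) := by positivity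
      linarith)
  refine h1.trans ?_
  simp only [Pi.add_apply]
  rw [integral_add (hA.const_mul l) (i2.integrableOn.const_mul _), integral_const_mul,
    integral_const_mul]
  have h3 : ∫ t in A, ‖Psi r U (σ + t * I)‖ ^ 2 ≤ ∫ t : ℝ, ‖Psi r U (σ + t * I)‖ ^ 2 :=
    setIntegral_le_integral i2 (Eventually.of_forall fun _ => sq_nonneg _)
  have h4 := h3.trans (integral_sq_Psi_le hr hC hσ)
  rw [← hl] at h4
  have h5 : 1 / (4 * l) * ∫ t in A, ‖Psi r U (σ + t * I)‖ ^ 2 ≤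
      1 / (4 * l) * (2 * π * (l * ∫ u in Ioc 0 U, ‖r u‖ ^ 2)) := by gcongr
  have h6 : 1 / (4 * l) * (2 * π * (l * ∫ u in Ioc 0 U, ‖r u‖ ^ 2)) =
      π * (∫ u in Ioc 0 U, ‖r u‖ ^ 2) / 2 := by field_simp; ring
  linarith

lemma integrable_dec (D : ℝ) : Integrable fun t : ℝ => D * (1 + |t|) ^ (-(3 / 2) : ℝ) := by
  have := integrable_one_add_norm (E := ℝ) (μ := volume) (r := 3 / 2) (by simp; norm_num)
  exact this.const_mul D

theorem contour_ineq (hr : Measurable r) (hC : ∀ u, 0 ≤ u → ‖r u‖ ≤ C * Real.exp (u / 2))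
    {G : ℂ → ℂ} (hGd : DifferentiableOn ℂ G {s | 0 < s.re})
    (hG : ∀ t : ℝ, G ((3 / 2 : ℝ) + t * I) =
      ∫ u in Ioi (0 : ℝ), r u * exp (-((3 / 2 : ℝ) + t * I) * u))
    {δ η Tm Tp ω D : ℝ} (hU : 0 ≤ U) (hδ : 0 < δ) (hδη : δ ≤ η) (hη : η ≤ 1 / 2) (hT : Tm ≤ Tp)
    (hdec : ∀ σ t : ℝ, η ≤ σ → σ ≤ 3 / 2 → ‖G (σ + t * I)‖ ^ 2 ≤ D * (1 + |t|) ^ (-(3 / 2) : ℝ))
    (hm : ∀ σ : ℝ, δ ≤ σ → σ ≤ η → ‖G (σ + Tm * I)‖ ≤ ω)
    (hp : ∀ σ : ℝ, δ ≤ σ → σ ≤ η → ‖G (σ + Tp * I)‖ ≤ ω) :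
    π * ∫ u in Ioc 0 U, ‖r u‖ ^ 2 ≤
      Real.exp (2 * δ * U) * (∫ t in Ioc Tm Tp, ‖G (δ + t * I)‖ ^ 2)
      + Real.exp (2 * η * U) * (∫ t in (Ioc Tm Tp)ᶜ, ‖G (η + t * I)‖ ^ 2)
      + ω * (Real.exp (η * U) * (U + ∫ u in Ioc 0 U, ‖r u‖ ^ 2) / 2) := by
  set J := ∫ u in Ioc 0 U, ‖r u‖ ^ 2 with hJ
  have hJ0 : 0 ≤ J := integral_nonneg fun _ => sq_nonneg _
  have hη0 : 0 < η := hδ.trans_le hδη
  set H : ℂ → ℂ := fun s => G s * Psi r U s with hH
  have hHd : DifferentiableOn ℂ H {s | 0 < s.re} :=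
    hGd.mul (differentiable_Psi hr hC).differentiableOn
  have iG : ∀ σ : ℝ, η ≤ σ → σ ≤ 3 / 2 → Integrable fun t : ℝ => ‖G (σ + t * I)‖ ^ 2 := by
    intro σ h1 h2
    refine Integrable.mono' (integrable_dec D)
      ((continuous_line hGd (hη0.trans_le h1)).norm.pow 2).aestronglyMeasurable
      (Eventually.of_forall fun t => ?_)
    rw [Real.norm_eq_abs, abs_of_nonneg (sq_nonneg _)]
    exact hdec σ t h1 h2
  have iH : ∀ σ : ℝ, η ≤ σ → σ ≤ 3 / 2 → Integrable fun t : ℝ => H (σ + t * I) := by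
    intro σ h1 h2
    refine Integrable.mono' ((iG σ h1 h2).add (integrable_sq_Psi (U := U) hr hC σ))
      (continuous_line hHd (hη0.trans_le h1)).aestronglyMeasurable
      (Eventually.of_forall fun t => ?_)
    simp only [hH, norm_mul, Pi.add_apply]
    nlinarith [sq_nonneg (‖G (σ + t * I)‖ - ‖Psi r U (σ + t * I)‖),
      norm_nonneg (G (σ + t * I)), norm_nonneg (Psi r U (σ + t * I))]
  have hshift : ∫ t : ℝ, H ((3 / 2 : ℝ) + t * I) = ∫ t : ℝ, H (η + t * I) := by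
    refine shift_line hHd hη0 (by linarith)
      (b := fun X => √(D * (1 + X) ^ (-(3 / 2) : ℝ)) * (Real.exp (3 / 2 * U) * (U + J) / 2))
      ?_ (fun σ t h1 h2 => ?_) (iH _ le_rfl (by linarith)) (iH _ (by linarith) le_rfl)
    · have t1 : Tendsto (fun X : ℝ => (1 + X) ^ (-(3 / 2) : ℝ)) atTop (𝓝 0) :=
        (tendsto_rpow_neg_atTop (by norm_num)).comp (tendsto_atTop_add_const_left _ _ tendsto_id)
      have t2 := ((t1.const_mul D).sqrt).mul_const (Real.exp (3 / 2 * U) * (U + J) / 2)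
      simpa using t2
    · simp only [hH, norm_mul]
      gcongr
      · exact Real.le_sqrt_of_sq_le (hdec σ t h1 h2)
      · exact norm_Psi_le hr hC hU (by norm_num) h2 t
  have h0 : 2 * π * J = ‖∫ t : ℝ, H (η + t * I)‖ := by
    rw [← hshift]
    simp only [hH]
    rw [parseval_start hr hC hG, norm_real, Real.norm_eq_abs, abs_of_nonneg (by positivity)]
  rw [← integral_add_compl (measurableSet_Ioc (a := Tm) (b := Tp)) (iH η le_rfl (by linarith))]
    at h0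
  have hω : 0 ≤ ω := (norm_nonneg _).trans (hp δ le_rfl hδη)
  set B := ω * (Real.exp (η * U) * (U + J) / 2) with hB
  have hB0 : 0 ≤ B := by positivity
  have h1 := rect_bound hHd hδ hδη (T1 := Tm) (T2 := Tp) (B := B)
    (fun σ k1 k2 => by
      simp only [hH, norm_mul, hB]
      gcongr
      · exact hm σ k1 k2
      · exact norm_Psi_le hr hC hU hη0.le k2 _)
    (fun σ k1 k2 => by
      simp only [hH, norm_mul, hB]
      gcongr
      · exact hp σ k1 k2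
      · exact norm_Psi_le hr hC hU hη0.le k2 _)
  rw [intervalIntegral.integral_of_le hT, intervalIntegral.integral_of_le hT] at h1
  have h2 := piece_le (U := U) hr hC (G := G) hδ.le (A := Ioc Tm Tp)
    (((continuous_line hGd hδ).norm.pow 2).integrableOn_Icc.mono_set Ioc_subset_Icc_self)
  have h3 := piece_le (U := U) hr hC (G := G) hη0.le (A := (Ioc Tm Tp)ᶜ)
    (iG η le_rfl (by linarith)).integrableOn
  have h4 := norm_add_le (∫ t in Ioc Tm Tp, H (η + t * I)) (∫ t in (Ioc Tm Tp)ᶜ, H (η + t * I))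
  have h5 := norm_le_norm_add_norm_sub' (∫ t in Ioc Tm Tp, H (η + t * I))
    (∫ t in Ioc Tm Tp, H (δ + t * I))
  have h6 : 2 * B * (η - δ) ≤ B := by nlinarith
  simp only [hH] at h0 h1 h4 h5
  rw [← hJ] at h2 h3
  linarith

end Pool.Agent.P.MP_323ce2_nt
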