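import Mathlib

open Finset Complex Filter Topology

namespace Pool.Agent.P.MP_323ce2_nt

noncomputable def pr (m : ℕ) (s : ℂ) : ℂ :=
  ((2 * m + 1 : ℕ) : ℂ) ^ (-s) - ((2 * m + 2 : ℕ) : ℂ) ^ (-s)

noncomputable def eta (s : ℂ) : ℂ := ∑' m, pr m s

noncomputable def PS (N : ℕ) (s : ℂ) : ℂ := ∑ n ∈ Icc 1 N, (-1 : ℂ) ^ (n + 1) * (n : ℂ) ^ (-s)

def dom (R : ℝ) : Set ℂ := {s | 1 / 4 < s.re} ∩ Metric.ball 0 R

lemma isOpen_dom (R : ℝ) : IsOpen (dom R) :=
  (isOpen_lt continuous_const continuous_re).inter Metric.isOpen_ball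

lemma convex_dom (R : ℝ) : Convex ℝ (dom R) :=
  (convex_halfSpace_re_gt _).inter (convex_ball _ _)

lemma norm_cpow_sub_le {a : ℝ} (ha : 1 ≤ a) {s : ℂ} (hs : 1 / 4 < s.re) :
    ‖(a : ℂ) ^ (-s) - ((a + 1 : ℝ) : ℂ) ^ (-s)‖ ≤ ‖s‖ * a ^ (-(5 / 4) : ℝ) := by
  have hs0 : -s ≠ 0 := by
    intro h
    have : s = 0 := neg_eq_zero.1 h
    rw [this] at hs; norm_num at hs
  have key := norm_image_sub_le_of_norm_deriv_le_segment' (a := a) (b := a + 1)
    (f := fun y : ℝ => (y : ℂ) ^ (-s)) (f' := fun y : ℝ => (-s) * (y : ℂ) ^ (-s - 1))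
    (C := ‖s‖ * a ^ (-(5 / 4) : ℝ))
    (fun x hx => (hasDerivAt_ofReal_cpow_const (by have := hx.1; intro h; linarith) hs0).hasDerivWithinAt)
    (fun x hx => by
      have hx1 : 1 ≤ x := le_trans ha hx.1
      rw [norm_mul, norm_neg, norm_cpow_eq_rpow_re_of_pos (by linarith)]
      apply mul_le_mul_of_nonneg_left _ (norm_nonneg _)
      calc x ^ (-s - 1).re ≤ x ^ (-(5 / 4) : ℝ) := by
            apply Real.rpow_le_rpow_of_exponent_le hx1
            simp only [sub_re, neg_re, one_re]; linarith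
        _ ≤ a ^ (-(5 / 4) : ℝ) :=
            Real.rpow_le_rpow_of_nonpos (by linarith) hx.1 (by norm_num))
    (a + 1) ⟨by linarith, le_rfl⟩
  rw [norm_sub_rev]
  simpa using key

lemma norm_pr_le {R : ℝ} (m : ℕ) {s : ℂ} (hs : s ∈ dom R) :
    ‖pr m s‖ ≤ R * ((2 * m + 1 : ℕ) : ℝ) ^ (-(5 / 4) : ℝ) := by
  have h := norm_cpow_sub_le (a := ((2 * m + 1 : ℕ) : ℝ))
    (by exact_mod_cast (by omega : 1 ≤ 2 * m + 1)) hs.1
  have e : pr m s = (((2 * m + 1 : ℕ) : ℝ) : ℂ) ^ (-s)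
      - ((((2 * m + 1 : ℕ) : ℝ) + 1 : ℝ) : ℂ) ^ (-s) := by
    unfold pr; push_cast; ring_nf
  rw [e]
  refine h.trans (mul_le_mul_of_nonneg_right ?_ (by positivity))
  have := hs.2
  rw [Metric.mem_ball, dist_zero_right] at this
  exact this.le

lemma summable_aux {p : ℝ} (hp : p < -1) : Summable fun m : ℕ => ((m + 1 : ℕ) : ℝ) ^ p :=
  (summable_nat_add_iff (f := fun m : ℕ => (m : ℝ) ^ p) 1).2 (Real.summable_nat_rpow.2 hp)

lemma summable_bd (R : ℝ) : Summable fun m : ℕ => R * ((2 * m + 1 : ℕ) : ℝ) ^ (-(5 / 4) : ℝ) := by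
  apply Summable.mul_left
  refine Summable.of_nonneg_of_le (fun m => by positivity) (fun m => ?_)
    (summable_aux (p := -(5 / 4)) (by norm_num))
  apply Real.rpow_le_rpow_of_nonpos (by positivity) _ (by norm_num)
  exact_mod_cast (by omega : m + 1 ≤ 2 * m + 1)

lemma differentiable_ncpow {n : ℕ} (hn : n ≠ 0) : Differentiable ℂ fun s : ℂ => (n : ℂ) ^ (-s) :=
  fun s => ((hasDerivAt_neg s).const_cpow (Or.inl (by exact_mod_cast hn))).differentiableAt

lemma differentiable_pr (m : ℕ) : Differentiable ℂ (pr m) :=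
  (differentiable_ncpow (by omega)).sub (differentiable_ncpow (by omega))

lemma differentiableOn_eta (R : ℝ) : DifferentiableOn ℂ eta (dom R) :=
  differentiableOn_tsum_of_summable_norm (summable_bd R)
    (fun m => (differentiable_pr m).differentiableOn) (isOpen_dom R) (fun m _ hw => norm_pr_le m hw)

lemma summable_pr {R : ℝ} {s : ℂ} (hs : s ∈ dom R) : Summable fun m => pr m s :=
  Summable.of_norm_bounded (summable_bd R) (fun m => norm_pr_le m hs)

lemma eta_eq_of_one_lt {s : ℂ} (hs : 1 < s.re) : eta s = (1 - 2 ^ (1 - s)) * riemannZeta s := by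
  have hsum : Summable fun n : ℕ => 1 / ((n : ℂ) + 1) ^ s := by
    have := (summable_nat_add_iff (f := fun n : ℕ => 1 / (n : ℂ) ^ s) 1).2
      (Complex.summable_one_div_nat_cpow.2 hs)
    simpa using this
  have hz : HasSum (fun n : ℕ => 1 / ((n : ℂ) + 1) ^ s) (riemannZeta s) := by
    rw [zeta_eq_tsum_one_div_nat_add_one_cpow hs]; exact hsum.hasSum
  set f : ℕ → ℂ := fun n => 1 / ((n : ℂ) + 1) ^ s with hf
  have he : Summable fun m => f (2 * m) := hsum.comp_injective (fun a b h => by omega)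
  have ho : HasSum (fun m => f (2 * m + 1)) (2 ^ (-s) * riemannZeta s) := by
    have := hz.mul_left (2 ^ (-s))
    refine this.congr_fun fun m => ?_
    simp only [hf]
    have e : ((2 * m + 1 : ℕ) : ℂ) + 1 = ((2 : ℕ) : ℂ) * ((m + 1 : ℕ) : ℂ) := by push_cast; ring
    rw [e, natCast_mul_natCast_cpow, cpow_neg]
    push_cast
    field_simp
  have htot := he.hasSum.even_add_odd ho
  have hE : ∑' m, f (2 * m) = riemannZeta s - 2 ^ (-s) * riemannZeta s := by
    have := htot.unique hz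
    linear_combination this
  have : HasSum (fun m => pr m s) (∑' m, f (2 * m) - 2 ^ (-s) * riemannZeta s) := by
    have := he.hasSum.sub ho
    refine this.congr_fun fun m => ?_
    simp only [hf, pr, cpow_neg, one_div]
    push_cast
    ring_nf
  unfold eta
  rw [this.tsum_eq, hE, cpow_sub _ _ (by norm_num), cpow_neg, cpow_one]
  ring

lemma eta_eq {R : ℝ} (hR : 2 < R) {s : ℂ} (hs : s ∈ dom R) (hs1 : s ≠ 1) :
    eta s = (1 - 2 ^ (1 - s)) * riemannZeta s := by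
  have h1 : AnalyticOnNhd ℂ (fun s => (s - 1) * eta s) (dom R) := by
    apply DifferentiableOn.analyticOnNhd _ (isOpen_dom R)
    exact (differentiableOn_id.sub_const 1).mul (differentiableOn_eta R)
  have h2 : AnalyticOnNhd ℂ (fun s => (1 - 2 ^ (1 - s)) * riemannZeta₁ s) (dom R) := by
    apply DifferentiableOn.analyticOnNhd _ (isOpen_dom R)
    apply Differentiable.differentiableOn
    apply Differentiable.mul _ differentiable_riemannZeta₁
    intro s
    exact (((hasDerivAt_id s).const_sub 1).const_cpow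
      (Or.inl two_ne_zero)).differentiableAt.const_sub 1
  have h2mem : (2 : ℂ) ∈ dom R := by
    refine ⟨by norm_num, ?_⟩
    rw [Metric.mem_ball, dist_zero_right]; simpa using hR
  have hev : (fun s => (s - 1) * eta s) =ᶠ[𝓝 2] fun s => (1 - 2 ^ (1 - s)) * riemannZeta₁ s := by
    have : ∀ᶠ s : ℂ in 𝓝 2, 1 < s.re :=
      (isOpen_lt continuous_const continuous_re).mem_nhds (by norm_num)
    filter_upwards [this] with s hs
    have hs1 : s ≠ 1 := by rintro rfl; simp at hs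
    rw [eta_eq_of_one_lt hs, riemannZeta_eq_inv_sub_mul hs1]
    have : s - 1 ≠ 0 := sub_ne_zero.2 hs1
    field_simp
  have := h1.eqOn_of_preconnected_of_eventuallyEq h2 (convex_dom R).isPreconnected h2mem hev hs
  simp only at this
  rw [riemannZeta_eq_inv_sub_mul hs1]
  have h0 : s - 1 ≠ 0 := sub_ne_zero.2 hs1
  field_simp
  linear_combination this

lemma PS_even (M : ℕ) (s : ℂ) : PS (2 * M) s = ∑ m ∈ range M, pr m s := by
  induction M with
  | zero => simp [PS]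
  | succ M ih =>
    rw [sum_range_succ, ← ih]
    unfold PS
    rw [show 2 * (M + 1) = 2 * M + 1 + 1 by ring, sum_Icc_succ_top (by omega),
      sum_Icc_succ_top (by omega)]
    have e1 : (-1 : ℂ) ^ (2 * M + 1 + 1) = 1 := Even.neg_one_pow ⟨M + 1, by ring⟩
    have e2 : (-1 : ℂ) ^ (2 * M + 1 + 1 + 1) = -1 := Odd.neg_one_pow ⟨M + 1, by ring⟩
    rw [e1, e2]
    unfold pr
    ring

lemma PS_odd (M : ℕ) (s : ℂ) :
    PS (2 * M + 1) s = ∑ m ∈ range M, pr m s + ((2 * M + 1 : ℕ) : ℂ) ^ (-s) := by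
  rw [← PS_even]
  unfold PS
  rw [sum_Icc_succ_top (by omega)]
  have e1 : (-1 : ℂ) ^ (2 * M + 1 + 1) = 1 := Even.neg_one_pow ⟨M + 1, by ring⟩
  rw [e1, one_mul]

noncomputable def Sc : ℝ := ∑' m : ℕ, ((m + 1 : ℕ) : ℝ) ^ (-(9 / 8) : ℝ)

lemma Sc_nonneg : 0 ≤ Sc := tsum_nonneg fun _ => by positivity

lemma tail_pairs {R : ℝ} {s : ℂ} (hs : s ∈ dom R) (M : ℕ) :
    ‖eta s - ∑ m ∈ range M, pr m s‖ ≤ R * Sc * ((2 * M + 1 : ℕ) : ℝ) ^ (-(1 / 8) : ℝ) := by
  have hR : 0 ≤ R := by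
    have := hs.2
    rw [Metric.mem_ball, dist_zero_right] at this
    exact (norm_nonneg _).trans this.le
  have h1 := (summable_pr hs).sum_add_tsum_nat_add M
  have e : eta s - ∑ m ∈ range M, pr m s = ∑' m, pr (m + M) s := by
    unfold eta; rw [← h1]; ring
  rw [e]
  have hb : HasSum (fun m : ℕ => R * ((m + 1 : ℕ) : ℝ) ^ (-(9 / 8) : ℝ)
      * ((2 * M + 1 : ℕ) : ℝ) ^ (-(1 / 8) : ℝ)) (R * Sc * ((2 * M + 1 : ℕ) : ℝ) ^ (-(1 / 8) : ℝ)) :=
    (((summable_aux (p := -(9 / 8)) (by norm_num)).hasSum.mul_left R).mul_right _)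
  refine tsum_of_norm_bounded hb fun m => (norm_pr_le _ hs).trans ?_
  rw [mul_assoc]
  apply mul_le_mul_of_nonneg_left _ hR
  have hpos : (0 : ℝ) < ((2 * (m + M) + 1 : ℕ) : ℝ) := by positivity
  rw [show (-(5 / 4) : ℝ) = -(9 / 8) + -(1 / 8) by norm_num, Real.rpow_add hpos]
  apply mul_le_mul _ _ (by positivity) (by positivity)
  · apply Real.rpow_le_rpow_of_nonpos (by positivity) _ (by norm_num)
    exact_mod_cast (by omega : m + 1 ≤ 2 * (m + M) + 1)
  · apply Real.rpow_le_rpow_of_nonpos (by positivity) _ (by norm_num)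
    exact_mod_cast (by omega : 2 * M + 1 ≤ 2 * (m + M) + 1)

lemma tail_PS {R : ℝ} {s : ℂ} (hs : s ∈ dom R) {N : ℕ} (hN : 1 ≤ N) :
    ‖eta s - PS N s‖ ≤ (R * Sc + 1) * (N : ℝ) ^ (-(1 / 8) : ℝ) := by
  have hR : 0 ≤ R := by
    have := hs.2
    rw [Metric.mem_ball, dist_zero_right] at this
    exact (norm_nonneg _).trans this.le
  have hRS : 0 ≤ R * Sc := mul_nonneg hR Sc_nonneg
  have hN0 : (0 : ℝ) < N := by exact_mod_cast hN
  rcases Nat.even_or_odd' N with ⟨M, rfl | rfl⟩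
  · rw [PS_even]
    refine (tail_pairs hs M).trans ?_
    apply mul_le_mul (by linarith) _ (by positivity) (by linarith)
    apply Real.rpow_le_rpow_of_nonpos hN0 _ (by norm_num)
    exact_mod_cast (by omega : 2 * M ≤ 2 * M + 1)
  · rw [PS_odd, ← sub_sub]
    refine (norm_sub_le _ _).trans ?_
    rw [add_mul, one_mul]
    apply add_le_add (tail_pairs hs M)
    rw [norm_natCast_cpow_of_pos (by omega)]
    apply Real.rpow_le_rpow_of_exponent_le (by exact_mod_cast hN)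
    have := hs.1
    simp only [Set.mem_ofPred_eq] at this
    simp only [neg_re]; linarith

lemma hasDerivAt_PS (N : ℕ) (s : ℂ) :
    HasDerivAt (PS N)
      (∑ n ∈ Icc 1 N, (-1 : ℂ) ^ (n + 1) * ((n : ℂ) ^ (-s) * Complex.log n * (-1))) s := by
  unfold PS
  apply HasDerivAt.fun_sum
  intro n hn
  have hn0 : (n : ℂ) ≠ 0 := by
    have := (mem_Icc.1 hn).1
    exact_mod_cast (by omega : n ≠ 0)
  exact ((hasDerivAt_neg s).const_cpow (Or.inl hn0)).const_mul _

/-- the kernel -/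
noncomputable def Ker (ρ : ℂ) (y : ℝ) : ℂ :=
  ∑ n ∈ Icc 1 ⌊y⌋₊, (-1 : ℂ) ^ (n + 1) * (n : ℂ) ^ (-ρ) * (Real.log (y / n) : ℝ)

theorem ker_bound {ρ : ℂ} (hz : riemannZeta ρ = 0) (h1 : 1 / 2 ≤ ρ.re) (h2 : ρ.re < 1) :
    ∃ C : ℝ, 0 ≤ C ∧ ∀ y : ℝ, 1 ≤ y →
      ‖Ker ρ y - (1 - 2 ^ (1 - ρ)) * deriv riemannZeta ρ‖ ≤ C * y ^ (-(1 / 16) : ℝ) := by
  set R : ℝ := ‖ρ‖ + 3 with hR
  have hR2 : 2 < R := by have := norm_nonneg ρ; linarith
  have hball : Metric.closedBall ρ (1 / 8) ⊆ dom R := by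
    intro s hs
    rw [Metric.mem_closedBall, dist_eq_norm] at hs
    constructor
    · have := (abs_re_le_norm (s - ρ)).trans hs
      rw [sub_re, abs_le] at this
      simp only [Set.mem_ofPred_eq]; linarith [this.1]
    · rw [Metric.mem_ball, dist_zero_right]
      have := norm_add_le (s - ρ) ρ
      rw [sub_add_cancel] at this
      linarith
  have hρ : ρ ∈ dom R := hball (Metric.mem_closedBall_self (by norm_num))
  have hρ1 : ρ ≠ 1 := by rintro rfl; simp at h2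
  have heta0 : eta ρ = 0 := by rw [eta_eq hR2 hρ hρ1, hz, mul_zero]
  have hev : eta =ᶠ[𝓝 ρ] fun s => (1 - 2 ^ (1 - s)) * riemannZeta s := by
    filter_upwards [(isOpen_dom R).mem_nhds hρ, isOpen_ne.mem_nhds hρ1] with s hs hs1
    exact eta_eq hR2 hs hs1
  have hderiv : HasDerivAt eta ((1 - 2 ^ (1 - ρ)) * deriv riemannZeta ρ) ρ := by
    have a1 := (((hasDerivAt_id ρ).const_sub 1).const_cpow (c := 2)
      (Or.inl two_ne_zero)).const_sub 1
    have a2 := a1.mul (differentiableAt_riemannZeta hρ1).hasDerivAt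
    rw [hz, mul_zero, zero_add] at a2
    exact a2.congr_of_eventuallyEq hev
  set D : ℝ := R * Sc + 1 with hD
  have hD0 : 0 ≤ D := by have := mul_nonneg (by linarith : 0 ≤ R) Sc_nonneg; linarith
  refine ⟨2 * D * (16 + 8), by positivity, fun y hy => ?_⟩
  set N := ⌊y⌋₊ with hN
  have hN1 : 1 ≤ N := Nat.le_floor (by simpa using hy)
  have hy0 : 0 < y := by linarith
  have hτ : HasDerivAt (fun s => eta s - PS N s) ((1 - 2 ^ (1 - ρ)) * deriv riemannZeta ρ
      - ∑ n ∈ Icc 1 N, (-1 : ℂ) ^ (n + 1) * ((n : ℂ) ^ (-ρ) * Complex.log n * (-1))) ρ :=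
    hderiv.sub (hasDerivAt_PS N ρ)
  have hcauchy : ‖deriv (fun s => eta s - PS N s) ρ‖ ≤ D * (N : ℝ) ^ (-(1 / 8) : ℝ) / (1 / 8) := by
    apply norm_deriv_le_of_forall_mem_sphere_norm_le (by norm_num)
    · apply DifferentiableOn.diffContOnCl
      rw [closure_ball _ (by norm_num)]
      exact ((differentiableOn_eta R).mono hball).sub
        (fun s _ => (hasDerivAt_PS N s).differentiableAt.differentiableWithinAt)
    · intro z hz'
      exact tail_PS (hball (Metric.sphere_subset_closedBall hz')) hN1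
  rw [hτ.deriv] at hcauchy
  have htail := tail_PS hρ hN1
  rw [heta0, zero_sub, norm_neg] at htail
  have hK : Ker ρ y = (Real.log y : ℝ) * PS N ρ
      + ∑ n ∈ Icc 1 N, (-1 : ℂ) ^ (n + 1) * ((n : ℂ) ^ (-ρ) * Complex.log n * (-1)) := by
    unfold Ker PS
    rw [mul_sum, ← sum_add_distrib]
    apply sum_congr rfl
    intro n hn
    have hn0 : (n : ℝ) ≠ 0 := by
      have := (mem_Icc.1 hn).1
      exact_mod_cast (by omega : n ≠ 0)
    rw [Real.log_div hy0.ne' hn0, ← natCast_log]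
    push_cast
    ring
  have hNy : (N : ℝ) ^ (-(1 / 8) : ℝ) ≤ 2 * y ^ (-(1 / 8) : ℝ) := by
    have hle : y / 2 ≤ N := by
      have := Nat.lt_floor_add_one y
      have h' : (1 : ℝ) ≤ N := by exact_mod_cast hN1
      rw [← hN] at this; linarith
    calc (N : ℝ) ^ (-(1 / 8) : ℝ) ≤ (y / 2) ^ (-(1 / 8) : ℝ) :=
          Real.rpow_le_rpow_of_nonpos (by positivity) hle (by norm_num)
      _ = y ^ (-(1 / 8) : ℝ) * (2 : ℝ) ^ ((1 / 8) : ℝ) := by
          rw [Real.div_rpow hy0.le (by norm_num), Real.rpow_neg (by norm_num : (0 : ℝ) ≤ 2),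
            div_inv_eq_mul]
      _ ≤ y ^ (-(1 / 8) : ℝ) * 2 := by
          apply mul_le_mul_of_nonneg_left _ (by positivity)
          calc (2 : ℝ) ^ ((1 / 8) : ℝ) ≤ (2 : ℝ) ^ (1 : ℝ) :=
                Real.rpow_le_rpow_of_exponent_le (by norm_num) (by norm_num)
            _ = 2 := Real.rpow_one 2
      _ = _ := by ring
  have hlog : Real.log y ≤ 16 * y ^ ((1 / 16) : ℝ) := by
    have := Real.log_le_rpow_div hy0.le (by norm_num : (0 : ℝ) < 1 / 16)
    linarith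
  have hlog0 : 0 ≤ Real.log y := Real.log_nonneg hy
  have hsplit : y ^ ((1 / 16) : ℝ) * y ^ (-(1 / 8) : ℝ) = y ^ (-(1 / 16) : ℝ) := by
    rw [← Real.rpow_add hy0]; norm_num
  have hmono : y ^ (-(1 / 8) : ℝ) ≤ y ^ (-(1 / 16) : ℝ) :=
    Real.rpow_le_rpow_of_exponent_le hy (by norm_num)
  have hp : 0 ≤ y ^ (-(1 / 8) : ℝ) := by positivity
  calc ‖Ker ρ y - (1 - 2 ^ (1 - ρ)) * deriv riemannZeta ρ‖
      = ‖(Real.log y : ℝ) * PS N ρ - ((1 - 2 ^ (1 - ρ)) * deriv riemannZeta ρ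
        - ∑ n ∈ Icc 1 N, (-1 : ℂ) ^ (n + 1) * ((n : ℂ) ^ (-ρ) * Complex.log n * (-1)))‖ := by
        rw [hK]; congr 1; ring
    _ ≤ Real.log y * (D * (N : ℝ) ^ (-(1 / 8) : ℝ)) + D * (N : ℝ) ^ (-(1 / 8) : ℝ) / (1 / 8) := by
        refine (norm_sub_le _ _).trans (add_le_add ?_ hcauchy)
        rw [norm_mul, norm_real, Real.norm_of_nonneg hlog0]
        exact mul_le_mul_of_nonneg_left htail hlog0
    _ ≤ (16 * y ^ ((1 / 16) : ℝ)) * (D * (2 * y ^ (-(1 / 8) : ℝ)))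
        + D * (2 * y ^ (-(1 / 8) : ℝ)) / (1 / 8) := by
        gcongr
    _ = 2 * D * (16 * (y ^ ((1 / 16) : ℝ) * y ^ (-(1 / 8) : ℝ)) + 8 * y ^ (-(1 / 8) : ℝ)) := by ring
    _ ≤ 2 * D * (16 * y ^ (-(1 / 16) : ℝ) + 8 * y ^ (-(1 / 16) : ℝ)) := by
        rw [hsplit]; gcongr
    _ = _ := by ring

end Pool.Agent.P.MP_323ce2_nt
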