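import Mathlib
import Pool.Agent.P.MP_323ce2_nt.Eta

open Finset Complex Filter Topology MeasureTheory intervalIntegral

namespace Pool.Agent.P.MP_323ce2_nt

noncomputable def Mf (u : ℝ) : ℝ :=
  ∑ n ∈ Icc 1 ⌊u⌋₊, ((ArithmeticFunction.moebius n : ℤ) : ℝ)

lemma measurable_Mf : Measurable Mf :=
  (measurable_from_top (f := fun N : ℕ =>
    ∑ n ∈ Icc 1 N, ((ArithmeticFunction.moebius n : ℤ) : ℝ))).comp Nat.measurable_floor

lemma abs_Mf_le {u : ℝ} (hu : 0 ≤ u) : |Mf u| ≤ u := by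
  unfold Mf
  refine (abs_sum_le_sum_abs _ _).trans ?_
  calc ∑ n ∈ Icc 1 ⌊u⌋₊, |((ArithmeticFunction.moebius n : ℤ) : ℝ)| ≤ ∑ n ∈ Icc 1 ⌊u⌋₊, (1 : ℝ) :=
        sum_le_sum fun n _ => by exact_mod_cast ArithmeticFunction.abs_moebius_le_one
    _ = ⌊u⌋₊ := by simp
    _ ≤ u := Nat.floor_le hu

lemma Mf_of_lt_one {u : ℝ} (hu : u < 1) : Mf u = 0 := by
  unfold Mf
  rw [Nat.floor_eq_zero.2 hu]; simp

lemma ii_Mf_div {c : ℝ} (hc : 1 ≤ c) {a b : ℝ} (ha : 0 ≤ a) (hb : 0 ≤ b) :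
    IntervalIntegrable (fun u => Mf (u / c)) volume a b := by
  rw [intervalIntegrable_iff]
  refine Measure.integrableOn_of_bounded (M := max a b) (by simp [Set.uIoc])
    (measurable_Mf.comp (measurable_id.div_const c)).aestronglyMeasurable ?_
  refine (ae_restrict_iff' measurableSet_uIoc).2 (Eventually.of_forall fun u hu => ?_)
  have h0 : 0 ≤ u := le_trans (le_min ha hb) hu.1.le
  rw [Real.norm_eq_abs]
  refine (abs_Mf_le (by positivity)).trans ((div_le_self h0 hc).trans hu.2)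

lemma ii_Mf {a b : ℝ} (ha : 0 ≤ a) (hb : 0 ≤ b) : IntervalIntegrable Mf volume a b := by
  simpa using ii_Mf_div le_rfl ha hb

lemma ii_ofReal {f : ℝ → ℝ} {a b : ℝ} (h : IntervalIntegrable f volume a b) :
    IntervalIntegrable (fun u => (f u : ℂ)) volume a b := ⟨h.1.ofReal, h.2.ofReal⟩

def altF : ArithmeticFunction ℤ := ⟨fun n => if n = 0 then 0 else (-1) ^ (n + 1), by simp⟩

def bF : ArithmeticFunction ℤ := ⟨fun n => (if n = 1 then 1 else 0) - (if n = 2 then 2 else 0), by simp⟩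

lemma altF_eq : altF = bF * (ArithmeticFunction.zeta : ArithmeticFunction ℤ) := by
  ext n
  rw [ArithmeticFunction.coe_mul_zeta_apply]
  simp only [altF, bF, ArithmeticFunction.coe_mk, sum_sub_distrib, sum_ite_eq', Nat.mem_divisors]
  by_cases hn : n = 0
  · simp [hn]
  · rcases Nat.even_or_odd n with h | h
    · have : 2 ∣ n := even_iff_two_dvd.1 h
      simp [hn, this, Odd.neg_one_pow (Even.add_one h)]
    · have : ¬ 2 ∣ n := by rw [← even_iff_two_dvd]; exact Nat.not_even_iff_odd.2 h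
      simp [hn, this, Even.neg_one_pow (Odd.add_one h)]

lemma alt_sum_nat (V : ℕ) :
    ∑ n ∈ Ioc 0 V, (-1 : ℤ) ^ (n + 1) * ∑ m ∈ Ioc 0 (V / n), ArithmeticFunction.moebius m
      = (if 1 ≤ V then 1 else 0) - (if 2 ≤ V then 2 else 0) := by
  have h := ArithmeticFunction.sum_Ioc_mul_eq_sum_sum altF ArithmeticFunction.moebius V
  rw [altF_eq, mul_assoc, ArithmeticFunction.coe_zeta_mul_moebius, mul_one, ← altF_eq] at h
  have e : ∑ n ∈ Ioc 0 V, altF n * ∑ m ∈ Ioc 0 (V / n), ArithmeticFunction.moebius m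
      = ∑ n ∈ Ioc 0 V, (-1 : ℤ) ^ (n + 1) * ∑ m ∈ Ioc 0 (V / n), ArithmeticFunction.moebius m := by
    apply sum_congr rfl
    intro n hn
    have : n ≠ 0 := by have := (mem_Ioc.1 hn).1; omega
    simp [altF, this]
  rw [← e, ← h]
  simp only [bF, ArithmeticFunction.coe_mk, sum_sub_distrib, sum_ite_eq', mem_Ioc]
  simp

lemma alt_sum {v : ℝ} (hv : 1 ≤ v) {N : ℕ} (hN : ⌊v⌋₊ ≤ N) :
    ∑ n ∈ Icc 1 N, (-1 : ℝ) ^ (n + 1) * Mf (v / n) = if 2 ≤ v then -1 else 1 := by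
  have h := alt_sum_nat ⌊v⌋₊
  have h1 : 1 ≤ ⌊v⌋₊ := Nat.le_floor (by simpa using hv)
  have h2 : 2 ≤ ⌊v⌋₊ ↔ 2 ≤ v := by
    rw [Nat.le_floor_iff (by linarith)]; norm_num
  have e : ∑ n ∈ Icc 1 N, (-1 : ℝ) ^ (n + 1) * Mf (v / n)
      = ∑ n ∈ Ioc 0 ⌊v⌋₊, (-1 : ℝ) ^ (n + 1) * Mf (v / n) := by
    symm
    apply sum_subset
    · intro n hn
      rw [mem_Ioc] at hn; rw [mem_Icc]; omega
    · intro n hn hn'
      rw [mem_Icc] at hn
      rw [mem_Ioc] at hn'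
      have : ⌊v⌋₊ < n := by omega
      have hlt : v < n := (Nat.floor_lt (by linarith)).1 this
      rw [Mf_of_lt_one ((div_lt_one (by linarith)).2 hlt), mul_zero]
  rw [e]
  have h' : ((∑ n ∈ Ioc 0 ⌊v⌋₊, (-1 : ℤ) ^ (n + 1)
      * ∑ m ∈ Ioc 0 (⌊v⌋₊ / n), ArithmeticFunction.moebius m : ℤ) : ℝ)
      = ∑ n ∈ Ioc 0 ⌊v⌋₊, (-1 : ℝ) ^ (n + 1) * Mf (v / n) := by
    push_cast
    apply sum_congr rfl
    intro n _
    unfold Mf
    rw [Nat.floor_div_natCast]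
    rfl
  rw [← h', h, if_pos h1]
  by_cases h3 : 2 ≤ v
  · rw [if_pos (h2.2 h3), if_pos h3]; norm_num
  · rw [if_neg (fun h => h3 (h2.1 h)), if_neg h3]; norm_num

noncomputable def psi (ρ : ℂ) (x v : ℝ) : ℂ := (v : ℂ) ^ (-ρ - 1) * (Real.posLog (x / v) : ℝ)

lemma continuousOn_cpow (r : ℂ) : ContinuousOn (fun v : ℝ => (v : ℂ) ^ r) (Set.Ioi 0) :=
  fun v hv => (continuousAt_ofReal_cpow_const v r (Or.inr (ne_of_gt hv))).continuousWithinAt

lemma continuousOn_psi (ρ : ℂ) (x : ℝ) : ContinuousOn (psi ρ x) (Set.Ioi 0) := by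
  apply (continuousOn_cpow _).mul
  apply continuous_ofReal.comp_continuousOn
  apply Real.continuous_posLog.comp_continuousOn
  exact continuousOn_const.div continuousOn_id fun v hv => ne_of_gt hv

lemma uIcc_sub {a b : ℝ} (ha : 0 < a) (hb : 0 < b) : Set.uIcc a b ⊆ Set.Ioi 0 :=
  fun _ hv => lt_of_lt_of_le (lt_min ha hb) hv.1

lemma psi_zero (ρ : ℂ) {x v : ℝ} (hx : 0 < x) (h : x ≤ v) : psi ρ x v = 0 := by
  unfold psi
  have hv : 0 < v := lt_of_lt_of_le hx h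
  rw [(Real.posLog_eq_zero_iff _).2 (by
    rw [abs_of_pos (by positivity)]; exact (div_le_one hv).2 h)]
  simp

lemma step_n (ρ : ℂ) {x : ℝ} (hx : 1 ≤ x) {n : ℕ} (hn : 1 ≤ n) :
    ∫ v in (1 : ℝ)..x, (Mf (v / n) : ℂ) * psi ρ x v
      = ∫ u in (1 : ℝ)..x, (Mf u : ℂ) * ((n : ℂ) * psi ρ x (n * u)) := by
  have hn1 : (1 : ℝ) ≤ n := by exact_mod_cast hn
  have hn0 : (0 : ℝ) < n := by linarith
  have hx0 : 0 < x := by linarith
  have hi : ∀ a b : ℝ, 0 < a → 0 < b →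
      IntervalIntegrable (fun v => (Mf (v / n) : ℂ) * psi ρ x v) volume a b := fun a b ha hb =>
    (ii_ofReal (ii_Mf_div hn1 ha.le hb.le)).mul_continuousOn
      ((continuousOn_psi ρ x).mono (uIcc_sub ha hb))
  have z1 : ∫ v in (1 : ℝ)..n, (Mf (v / n) : ℂ) * psi ρ x v = 0 := by
    rw [← intervalIntegral.integral_zero (a := (1 : ℝ)) (b := n) (μ := volume) (E := ℂ)]
    apply intervalIntegral.integral_congr_ae
    filter_upwards [Measure.ae_ne volume (n : ℝ)] with v hv hv'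
    rw [Set.uIoc_of_le hn1] at hv'
    rw [Mf_of_lt_one ((div_lt_one hn0).2 (lt_of_le_of_ne hv'.2 hv))]; simp
  have hxn : x ≤ n * x := by nlinarith
  have z2 : ∫ v in x..(n * x), (Mf (v / n) : ℂ) * psi ρ x v = 0 := by
    rw [← intervalIntegral.integral_zero (a := x) (b := n * x) (μ := volume) (E := ℂ)]
    apply intervalIntegral.integral_congr
    intro v hv
    rw [Set.uIcc_of_le hxn] at hv
    simp only [psi_zero ρ hx0 hv.1, mul_zero]
  have a1 := integral_add_adjacent_intervals (hi 1 x one_pos hx0) (hi x (n * x) hx0 (by positivity))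
  have a2 := integral_add_adjacent_intervals (hi 1 n one_pos hn0) (hi n (n * x) hn0 (by positivity))
  rw [z2, add_zero] at a1
  rw [z1, zero_add] at a2
  rw [a1, ← a2]
  have := smul_integral_comp_mul_left (a := 1) (b := x)
    (fun v => (Mf (v / n) : ℂ) * psi ρ x v) (n : ℝ)
  rw [mul_one] at this
  rw [← this, ← intervalIntegral.integral_smul]
  apply intervalIntegral.integral_congr
  intro u _
  simp only
  rw [mul_div_cancel_left₀ _ hn0.ne', real_smul]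
  push_cast
  ring

lemma sum_psi (ρ : ℂ) {x u : ℝ} (hu : 1 ≤ u) (hux : u ≤ x) :
    ∑ n ∈ Icc 1 ⌊x⌋₊, (-1 : ℂ) ^ (n + 1) * ((n : ℂ) * psi ρ x (n * u))
      = (u : ℂ) ^ (-ρ - 1) * Ker ρ (x / u) := by
  have hu0 : 0 < u := by linarith
  have hx0 : 0 < x := by linarith
  unfold Ker
  rw [mul_sum]
  symm
  have hsub : Icc 1 ⌊x / u⌋₊ ⊆ Icc 1 ⌊x⌋₊ :=
    Icc_subset_Icc_right (Nat.floor_le_floor (div_le_self hx0.le hu))
  rw [← sum_subset hsub (f := fun n : ℕ => (-1 : ℂ) ^ (n + 1) * ((n : ℂ) * psi ρ x ((n : ℝ) * u)))]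
  · apply sum_congr rfl
    intro n hn
    rw [mem_Icc] at hn
    have hn0 : (0 : ℝ) < n := by exact_mod_cast hn.1
    have hnc : (n : ℂ) ≠ 0 := by exact_mod_cast hn0.ne'
    have hle : (n : ℝ) ≤ x / u := (Nat.le_floor_iff (by positivity)).1 hn.2
    unfold psi
    have e1 : x / (n * u) = x / u / n := by field_simp
    rw [e1, Real.posLog_eq_log (by
      rw [abs_of_pos (by positivity)]; exact (one_le_div hn0).2 hle)]
    rw [ofReal_mul, mul_cpow_ofReal_nonneg hn0.le hu0.le, ofReal_natCast,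
      cpow_sub _ _ hnc, cpow_one]
    field_simp
  · intro n hn hn'
    rw [mem_Icc] at hn hn'
    have : ⌊x / u⌋₊ < n := by omega
    have hlt : x / u < n := (Nat.floor_lt (by positivity)).1 this
    rw [psi_zero ρ hx0 ((div_lt_iff₀ hu0).1 hlt).le]; simp

lemma ii_term (ρ : ℂ) {x : ℝ} (hx : 1 ≤ x) {n : ℕ} (hn : 1 ≤ n) :
    IntervalIntegrable (fun u => (Mf u : ℂ) * ((n : ℂ) * psi ρ x (n * u))) volume 1 x := by
  have hn0 : (0 : ℝ) < n := by exact_mod_cast hn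
  apply (ii_ofReal (ii_Mf zero_le_one (by linarith))).mul_continuousOn
  apply continuousOn_const.mul
  apply (continuousOn_psi ρ x).comp (continuousOn_const.mul continuousOn_id)
  intro u hu
  exact mul_pos hn0 (uIcc_sub one_pos (by linarith) hu)

lemma ii_ker (ρ : ℂ) {x : ℝ} (hx : 1 ≤ x) :
    IntervalIntegrable (fun u => (Mf u : ℂ) * ((u : ℂ) ^ (-ρ - 1) * Ker ρ (x / u))) volume 1 x := by
  have := IntervalIntegrable.sum (μ := volume) (a := 1) (b := x) (Icc 1 ⌊x⌋₊)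
    (f := fun n u => (-1 : ℂ) ^ (n + 1) * ((Mf u : ℂ) * ((n : ℂ) * psi ρ x (n * u))))
    (fun n hn => (ii_term ρ hx (mem_Icc.1 hn).1).const_mul _)
  refine this.congr ?_
  intro u hu
  rw [Set.uIoc_of_le hx] at hu
  simp only [Finset.sum_apply]
  rw [← sum_psi ρ hu.1.le hu.2, mul_sum]
  exact sum_congr rfl fun n _ => by ring

lemma ker_identity (ρ : ℂ) {x : ℝ} (hx : 2 ≤ x) :
    ∫ u in (1 : ℝ)..x, (Mf u : ℂ) * ((u : ℂ) ^ (-ρ - 1) * Ker ρ (x / u))
      = (∫ v in (1 : ℝ)..x, psi ρ x v) - 2 * ∫ v in (2 : ℝ)..x, psi ρ x v := by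
  have hx1 : 1 ≤ x := by linarith
  have hx0 : 0 < x := by linarith
  have e1 : ∫ u in (1 : ℝ)..x, (Mf u : ℂ) * ((u : ℂ) ^ (-ρ - 1) * Ker ρ (x / u))
      = ∑ n ∈ Icc 1 ⌊x⌋₊, ∫ u in (1 : ℝ)..x,
        (-1 : ℂ) ^ (n + 1) * ((Mf u : ℂ) * ((n : ℂ) * psi ρ x (n * u))) := by
    rw [← intervalIntegral.integral_finsetSum
      (fun n hn => (ii_term ρ hx1 (mem_Icc.1 hn).1).const_mul _)]
    apply intervalIntegral.integral_congr
    intro u hu
    rw [Set.uIcc_of_le hx1] at hu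
    simp only
    rw [← sum_psi ρ hu.1 hu.2, mul_sum]
    exact sum_congr rfl fun n _ => by ring
  have hi : ∀ n ∈ Icc 1 ⌊x⌋₊, IntervalIntegrable
      (fun v => (-1 : ℂ) ^ (n + 1) * ((Mf (v / n) : ℂ) * psi ρ x v)) volume 1 x := fun n hn =>
    ((ii_ofReal (ii_Mf_div (by exact_mod_cast (mem_Icc.1 hn).1) zero_le_one hx0.le)).mul_continuousOn
      ((continuousOn_psi ρ x).mono (uIcc_sub one_pos hx0))).const_mul _
  have e2 : ∑ n ∈ Icc 1 ⌊x⌋₊, ∫ u in (1 : ℝ)..x,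
        (-1 : ℂ) ^ (n + 1) * ((Mf u : ℂ) * ((n : ℂ) * psi ρ x (n * u)))
      = ∫ v in (1 : ℝ)..x, (if 2 ≤ v then -1 else 1 : ℂ) * psi ρ x v := by
    have : ∀ n ∈ Icc 1 ⌊x⌋₊, ∫ u in (1 : ℝ)..x,
        (-1 : ℂ) ^ (n + 1) * ((Mf u : ℂ) * ((n : ℂ) * psi ρ x (n * u)))
        = ∫ v in (1 : ℝ)..x, (-1 : ℂ) ^ (n + 1) * ((Mf (v / n) : ℂ) * psi ρ x v) := by
      intro n hn
      rw [intervalIntegral.integral_const_mul, intervalIntegral.integral_const_mul,
        step_n ρ hx1 (mem_Icc.1 hn).1]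
    rw [sum_congr rfl this, ← intervalIntegral.integral_finsetSum hi]
    apply intervalIntegral.integral_congr
    intro v hv
    rw [Set.uIcc_of_le hx1] at hv
    simp only
    have h := congrArg (fun r : ℝ => (r : ℂ)) (alt_sum hv.1 (Nat.floor_le_floor hv.2))
    simp only [apply_ite (fun r : ℝ => (r : ℂ))] at h
    push_cast at h
    rw [← h, sum_mul]
    exact sum_congr rfl fun n _ => by ring
  rw [e1, e2]
  have hp : ∀ a b : ℝ, 0 < a → 0 < b → IntervalIntegrable (psi ρ x) volume a b := fun a b ha hb =>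
    ((continuousOn_psi ρ x).mono (uIcc_sub ha hb)).intervalIntegrable
  have c1 : (fun v : ℝ => (if 2 ≤ v then -1 else 1 : ℂ) * psi ρ x v)
      =ᵐ[volume.restrict (Set.uIoc (1 : ℝ) 2)] psi ρ x := by
    refine (ae_restrict_iff' measurableSet_uIoc).2 ?_
    filter_upwards [Measure.ae_ne volume (2 : ℝ)] with v hv hv'
    rw [Set.uIoc_of_le (by norm_num)] at hv'
    rw [if_neg (not_le.2 (lt_of_le_of_ne hv'.2 hv)), one_mul]
  have c2 : Set.EqOn (fun v : ℝ => (if 2 ≤ v then -1 else 1 : ℂ) * psi ρ x v)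
      (fun v => -psi ρ x v) (Set.uIcc 2 x) := by
    intro v hv
    rw [Set.uIcc_of_le hx] at hv
    simp only [if_pos hv.1]; ring
  have i1 : IntervalIntegrable (fun v : ℝ => (if 2 ≤ v then -1 else 1 : ℂ) * psi ρ x v)
      volume 1 2 := (hp 1 2 one_pos two_pos).congr_ae c1.symm
  have i2 : IntervalIntegrable (fun v : ℝ => (if 2 ≤ v then -1 else 1 : ℂ) * psi ρ x v)
      volume 2 x := (hp 2 x two_pos hx0).neg.congr fun v hv => (c2 (Set.uIoc_subset_uIcc hv)).symm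
  rw [← integral_add_adjacent_intervals i1 i2,
    ← integral_add_adjacent_intervals (hp 1 2 one_pos two_pos) (hp 2 x two_pos hx0),
    intervalIntegral.integral_congr c2, intervalIntegral.integral_neg,
    intervalIntegral.integral_congr_ae ((ae_restrict_iff' measurableSet_uIoc).1 c1)]
  ring

lemma integral_psi {ρ : ℂ} (hρ : ρ ≠ 0) {a x : ℝ} (ha : 0 < a) (hax : a ≤ x) :
    ∫ v in a..x, psi ρ x v
      = (x : ℂ) ^ (-ρ) / ρ ^ 2 + (a : ℂ) ^ (-ρ) * ((Real.log x - Real.log a : ℝ) : ℂ) / ρ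
        - (a : ℂ) ^ (-ρ) / ρ ^ 2 := by
  have hx0 : 0 < x := by linarith
  have key := integral_eq_sub_of_hasDerivAt (a := a) (b := x)
    (f := fun v : ℝ => -((v : ℂ) ^ (-ρ) * ((Real.log x - Real.log v : ℝ) : ℂ)) / ρ
      + (v : ℂ) ^ (-ρ) / ρ ^ 2) (f' := psi ρ x) ?_
    ((continuousOn_psi ρ x).mono (uIcc_sub ha hx0)).intervalIntegrable
  · rw [key]; simp only [sub_self, ofReal_zero]; ring
  · intro v hv
    rw [Set.uIcc_of_le hax] at hv
    have hv0 : 0 < v := lt_of_lt_of_le ha hv.1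
    have hvc : (v : ℂ) ≠ 0 := by exact_mod_cast hv0.ne'
    have d1 := hasDerivAt_ofReal_cpow_const hv0.ne' (neg_ne_zero.2 hρ)
    have d2 : HasDerivAt (fun v : ℝ => ((Real.log x - Real.log v : ℝ) : ℂ)) ((-v⁻¹ : ℝ) : ℂ) v :=
      ((Real.hasDerivAt_log hv0.ne').const_sub _).ofReal_comp
    refine (((d1.mul d2).neg.div_const ρ).add (d1.div_const (ρ ^ 2))).congr_deriv ?_
    unfold psi
    rw [Real.posLog_eq_log (by
      rw [abs_of_pos (by positivity)]; exact (one_le_div hv0).2 hv.2), Real.log_div hx0.ne' hv0.ne',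
      cpow_sub _ _ hvc, cpow_one]
    push_cast
    field_simp
    ring

end Pool.Agent.P.MP_323ce2_nt
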