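import Mathlib
import Pool.Agent.P.MP_323ce2_nt.Kernel

open Finset Complex Filter Topology MeasureTheory intervalIntegral ComplexConjugate

namespace Pool.Agent.P.MP_323ce2_nt

noncomputable def II (x : ℝ) : ℝ := ∫ u in (1 : ℝ)..x, (Mf u / u) ^ 2

noncomputable def FF (ρ : ℂ) (x : ℝ) : ℂ := ∫ u in (1 : ℝ)..x, (Mf u : ℂ) * (u : ℂ) ^ (-ρ - 1)

lemma ii_sq {x : ℝ} (hx : 1 ≤ x) : IntervalIntegrable (fun u => (Mf u / u) ^ 2) volume 1 x := by
  rw [intervalIntegrable_iff]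
  refine Measure.integrableOn_of_bounded (M := 1) (by simp [Set.uIoc])
    ((measurable_Mf.div measurable_id).pow_const 2).aestronglyMeasurable ?_
  refine (ae_restrict_iff' measurableSet_uIoc).2 (Eventually.of_forall fun u hu => ?_)
  rw [Set.uIoc_of_le hx] at hu
  have h0 : 0 < u := by linarith [hu.1]
  rw [Real.norm_eq_abs, abs_pow, abs_div, abs_of_pos h0]
  exact pow_le_one₀ (by positivity) ((div_le_one h0).2 (abs_Mf_le h0.le))

lemma II_nonneg {x : ℝ} (hx : 1 ≤ x) : 0 ≤ II x :=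
  intervalIntegral.integral_nonneg hx fun _ _ => sq_nonneg _

lemma ii_FF (ρ : ℂ) {x : ℝ} (hx : 1 ≤ x) :
    IntervalIntegrable (fun u => (Mf u : ℂ) * (u : ℂ) ^ (-ρ - 1)) volume 1 x :=
  (ii_ofReal (ii_Mf zero_le_one (by linarith))).mul_continuousOn
    ((continuousOn_cpow _).mono (uIcc_sub one_pos (by linarith)))

lemma amgm (a b δ : ℝ) (hδ : 0 < δ) : |a| * b ≤ δ * a ^ 2 + b ^ 2 / (4 * δ) := by
  have h : 0 ≤ (2 * δ * |a| - b) ^ 2 / (4 * δ) := by positivity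
  have e : (2 * δ * |a| - b) ^ 2 / (4 * δ) = δ * |a| ^ 2 + b ^ 2 / (4 * δ) - |a| * b := by
    field_simp; ring
  rw [e, sq_abs] at h
  linarith

/-- generic estimate of an integral against `Mf u / u` -/
lemma est {x δ D r : ℝ} (hx : 1 ≤ x) (hδ : 0 < δ) (f : ℝ → ℂ) (b : ℝ → ℝ)
    (hf : ∀ u, 1 < u → u ≤ x → ‖f u‖ ≤ |Mf u / u| * b u)
    (hb : ∀ u, 1 < u → u ≤ x → b u ^ 2 ≤ D * u ^ r) :
    ‖∫ u in (1 : ℝ)..x, f u‖ ≤ δ * II x + (D * ∫ u in (1 : ℝ)..x, u ^ r) / (4 * δ) := by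
  have hr : IntervalIntegrable (fun u : ℝ => u ^ r) volume 1 x :=
    intervalIntegrable_rpow (Or.inr (Set.notMem_uIcc_of_lt one_pos (by linarith)))
  have h := intervalIntegral.norm_integral_le_of_norm_le (f := f) (μ := volume)
    (g := fun u => δ * (Mf u / u) ^ 2 + D * u ^ r / (4 * δ)) hx
    (Eventually.of_forall fun u hu => (hf u hu.1 hu.2).trans ((amgm _ _ δ hδ).trans (by
      gcongr; exact hb u hu.1 hu.2)))
    (((ii_sq hx).const_mul δ).add ((hr.const_mul D).div_const _))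
  rw [intervalIntegral.integral_add ((ii_sq hx).const_mul δ) ((hr.const_mul D).div_const _),
    intervalIntegral.integral_const_mul, intervalIntegral.integral_div,
    intervalIntegral.integral_const_mul] at h
  exact h

lemma norm_M_cpow (ρ : ℂ) {u : ℝ} (hu : 0 < u) :
    ‖(Mf u : ℂ) * (u : ℂ) ^ (-ρ - 1)‖ = |Mf u / u| * u ^ (-ρ.re) := by
  rw [norm_mul, norm_real, Real.norm_eq_abs, norm_cpow_eq_rpow_re_of_pos hu, abs_div, abs_of_pos hu]
  simp only [sub_re, neg_re, one_re]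
  rw [Real.rpow_sub_one hu.ne']
  ring

lemma two_factor_ne {ρ : ℂ} (h2 : ρ.re < 1) : (1 : ℂ) - 2 ^ (1 - ρ) ≠ 0 := by
  intro h
  have e : (2 : ℂ) ^ (1 - ρ) = 1 := by linear_combination -h
  have := congrArg norm e
  rw [show (2 : ℂ) = ((2 : ℝ) : ℂ) by simp, norm_cpow_eq_rpow_re_of_pos two_pos, norm_one] at this
  have h' : (1 : ℝ) < 2 ^ (1 - ρ).re := Real.one_lt_rpow (by norm_num) (by simp; linarith)
  linarith

theorem key {ρ : ℂ} (hz : riemannZeta ρ = 0) (h1 : 1 / 2 ≤ ρ.re) (h2 : ρ.re < 1) {ε : ℝ}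
    (hε : 0 < ε) : ∃ C : ℝ, ∀ x : ℝ, 2 ≤ x →
      ‖ρ * deriv riemannZeta ρ * FF ρ x - (Real.log x : ℝ)‖ ≤ ε * II x + C := by
  obtain ⟨C, hC0, hC⟩ := ker_bound hz h1 h2
  have hρ : ρ ≠ 0 := by rintro rfl; norm_num at h1
  set t : ℂ := 1 - 2 ^ (1 - ρ) with ht
  have ht0 : t ≠ 0 := two_factor_ne h2
  set κ : ℝ := ‖ρ / t‖ with hκ
  have hκ0 : 0 < κ := norm_pos_iff.2 (div_ne_zero hρ ht0)
  set δ : ℝ := ε / κ with hδ
  have hδ0 : 0 < δ := by positivity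
  set c : ℂ := -1 / ρ ^ 2 + 2 * 2 ^ (-ρ) * (Real.log 2 : ℝ) / ρ + 2 * 2 ^ (-ρ) / ρ ^ 2 with hc
  refine ⟨κ * (C ^ 2 * 8 / (4 * δ) + (‖1 / ρ ^ 2‖ + ‖c‖)), fun x hx => ?_⟩
  have hx1 : 1 ≤ x := by linarith
  have hx0 : 0 < x := by linarith
  set E : ℂ := ∫ u in (1 : ℝ)..x, (Mf u : ℂ) * ((u : ℂ) ^ (-ρ - 1) * Ker ρ (x / u)) with hE
  have e1 : E - t / ρ * (Real.log x : ℝ) = -((x : ℂ) ^ (-ρ) * (1 / ρ ^ 2)) + c := by
    rw [hE, ker_identity ρ hx, integral_psi hρ one_pos hx1, integral_psi hρ two_pos hx, ht, hc,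
      cpow_sub _ _ two_ne_zero, cpow_one, cpow_neg 2 ρ]
    simp only [ofReal_one, one_cpow, Real.log_one, sub_zero, ofReal_ofNat, cpow_neg 2 ρ]
    push_cast
    ring
  have b1 : ‖E - t / ρ * (Real.log x : ℝ)‖ ≤ ‖1 / ρ ^ 2‖ + ‖c‖ := by
    rw [e1]
    refine (norm_add_le _ _).trans (add_le_add ?_ le_rfl)
    rw [norm_neg, norm_mul, norm_cpow_eq_rpow_re_of_pos hx0]
    apply mul_le_of_le_one_left (norm_nonneg _)
    exact Real.rpow_le_one_of_one_le_of_nonpos hx1 (by simp; linarith)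
  have e2 : E - t * deriv riemannZeta ρ * FF ρ x = ∫ u in (1 : ℝ)..x,
      (Mf u : ℂ) * (u : ℂ) ^ (-ρ - 1) * (Ker ρ (x / u) - t * deriv riemannZeta ρ) := by
    unfold FF
    rw [hE, ← intervalIntegral.integral_const_mul,
      ← intervalIntegral.integral_sub (ii_ker ρ hx1) ((ii_FF ρ hx1).const_mul _)]
    congr 1; ext u; ring
  have b2 : ‖E - t * deriv riemannZeta ρ * FF ρ x‖ ≤ δ * II x + C ^ 2 * 8 / (4 * δ) := by
    rw [e2]
    refine (est (D := C ^ 2 * x ^ (-(1 / 8) : ℝ)) (r := -(7 / 8)) hx1 hδ0 _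
      (fun u => u ^ (-(1 / 2) : ℝ) * (C * (x / u) ^ (-(1 / 16) : ℝ))) ?_ ?_).trans ?_
    · intro u hu hux
      have hu0 : 0 < u := by linarith
      rw [norm_mul, norm_M_cpow ρ hu0, mul_assoc]
      apply mul_le_mul_of_nonneg_left _ (abs_nonneg _)
      apply mul_le_mul _ (hC _ ((one_le_div hu0).2 hux)) (norm_nonneg _) (by positivity)
      exact Real.rpow_le_rpow_of_exponent_le hu.le (by linarith)
    · intro u hu hux
      have hu0 : 0 < u := by linarith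
      apply le_of_eq
      rw [mul_pow, mul_pow, ← Real.rpow_natCast (u ^ _), ← Real.rpow_natCast ((x / u) ^ _),
        ← Real.rpow_mul hu0.le, ← Real.rpow_mul (by positivity), Real.div_rpow hx0.le hu0.le,
        show (-(7 / 8) : ℝ) = -(1 / 2) * (2 : ℕ) - -(1 / 16) * (2 : ℕ) by norm_num,
        Real.rpow_sub hu0, show (-(1 / 8) : ℝ) = -(1 / 16) * (2 : ℕ) by norm_num]
      ring
    · refine add_le_add le_rfl (div_le_div_of_nonneg_right ?_ (by positivity))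
      rw [integral_rpow (Or.inl (by norm_num)), mul_assoc]
      apply mul_le_mul_of_nonneg_left _ (by positivity)
      have : x ^ (-(1 / 8) : ℝ) * x ^ (-(7 / 8) + 1 : ℝ) = 1 := by
        rw [← Real.rpow_add hx0]; norm_num
      have h' : 0 ≤ x ^ (-(1 / 8) : ℝ) := by positivity
      rw [Real.one_rpow, show (-(7 / 8) + 1 : ℝ) = 1 / 8 by norm_num] at *
      nlinarith
  have e3 : ρ * deriv riemannZeta ρ * FF ρ x - (Real.log x : ℝ)
      = ρ / t * ((E - t / ρ * (Real.log x : ℝ)) - (E - t * deriv riemannZeta ρ * FF ρ x)) := by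
    field_simp; ring
  rw [e3, norm_mul, ← hκ]
  have : ‖(E - t / ρ * (Real.log x : ℝ)) - (E - t * deriv riemannZeta ρ * FF ρ x)‖
      ≤ (‖1 / ρ ^ 2‖ + ‖c‖) + (δ * II x + C ^ 2 * 8 / (4 * δ)) :=
    (norm_sub_le _ _).trans (add_le_add b1 b2)
  refine (mul_le_mul_of_nonneg_left this hκ0.le).trans (le_of_eq ?_)
  have : ε = κ * δ := by rw [hδ]; field_simp
  rw [this]; ring

theorem bad {ρ : ℂ} (hz : riemannZeta ρ = 0) (h1 : 1 / 2 ≤ ρ.re) (h2 : ρ.re < 1)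
    (hb : 1 / 2 < ρ.re ∨ deriv riemannZeta ρ = 0) {ε : ℝ} (hε : 0 < ε) :
    ∃ C : ℝ, ∀ x : ℝ, 2 ≤ x → 1 * Real.log x ≤ ε * II x + C := by
  rcases hb with hb | hb
  · obtain ⟨C, hC⟩ := key hz h1 h2 (half_pos hε)
    set κ : ℝ := ‖ρ * deriv riemannZeta ρ‖ with hκ
    have hκ0 : 0 ≤ κ := norm_nonneg _
    set δ : ℝ := ε / 2 / (κ + 1) with hδ
    have hδ0 : 0 < δ := by positivity
    refine ⟨C + κ * (1 * (1 / (2 * ρ.re - 1)) / (4 * δ)), fun x hx => ?_⟩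
    have hx1 : 1 ≤ x := by linarith
    have hx0 : 0 < x := by linarith
    have b : ‖FF ρ x‖ ≤ δ * II x + 1 * (1 / (2 * ρ.re - 1)) / (4 * δ) := by
      refine (est (D := 1) (r := -(2 * ρ.re)) hx1 hδ0 _ (fun u => u ^ (-ρ.re)) ?_ ?_).trans ?_
      · intro u hu _
        exact (norm_M_cpow ρ (by linarith)).le
      · intro u hu _
        rw [← Real.rpow_natCast, ← Real.rpow_mul (by linarith), one_mul]
        apply le_of_eq; congr 1; push_cast; ring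
      · gcongr
        rw [integral_rpow (Or.inr ⟨by linarith, Set.notMem_uIcc_of_lt one_pos hx0⟩), Real.one_rpow,
          ← neg_div_neg_eq]
        have : 0 ≤ x ^ (-(2 * ρ.re) + 1) := by positivity
        rw [show -(-(2 * ρ.re) + 1) = 2 * ρ.re - 1 by ring]
        gcongr
        · linarith
        · linarith
    have h3 := hC x hx
    have h4 : Real.log x ≤ ‖ρ * deriv riemannZeta ρ * FF ρ x - (Real.log x : ℝ)‖ + κ * ‖FF ρ x‖ := by
      have := norm_sub_le (ρ * deriv riemannZeta ρ * FF ρ x)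
        (ρ * deriv riemannZeta ρ * FF ρ x - (Real.log x : ℝ))
      rw [sub_sub_cancel, norm_real, norm_mul, ← hκ] at this
      have h' := le_abs_self (Real.log x)
      rw [← Real.norm_eq_abs] at h'
      linarith
    have h5 : κ * δ ≤ ε / 2 := by
      rw [hδ, ← mul_div_assoc, div_le_iff₀ (by positivity)]; nlinarith
    have h6 := mul_le_mul_of_nonneg_left b hκ0
    have h7 := mul_le_mul_of_nonneg_right h5 (II_nonneg hx1)
    nlinarith
  · obtain ⟨C, hC⟩ := key hz h1 h2 hε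
    refine ⟨C, fun x hx => ?_⟩
    have := hC x hx
    rw [hb, mul_zero, zero_mul, zero_sub, norm_neg, norm_real, Real.norm_eq_abs] at this
    have h' := le_abs_self (Real.log x)
    linarith

lemma cross {ρ σ : ℂ} (hρ : ρ.re = 1 / 2) (hσ : σ.re = 1 / 2) :
    ∃ B : ℝ, ∀ x : ℝ, 1 ≤ x →
      ‖(∫ u in (1 : ℝ)..x, (u : ℂ) ^ (-ρ - conj σ)) - (if ρ = σ then (Real.log x : ℂ) else 0)‖
        ≤ B := by
  by_cases h : ρ = σ
  · subst h
    refine ⟨0, fun x hx => ?_⟩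
    have e : -ρ - conj ρ = -1 := by
      apply Complex.ext
      · simp [hρ]; norm_num
      · simp
    rw [if_pos rfl, e]
    have : ∫ u in (1 : ℝ)..x, (u : ℂ) ^ (-1 : ℂ) = ∫ u in (1 : ℝ)..x, ((u⁻¹ : ℝ) : ℂ) := by
      congr 1; ext u; rw [cpow_neg_one]; simp
    rw [this, intervalIntegral.integral_ofReal,
      integral_inv (Set.notMem_uIcc_of_lt one_pos (by linarith))]
    simp
  · have hre : (-ρ - conj σ + 1).re = 0 := by simp [hρ, hσ]; norm_num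
    have hne : -ρ - conj σ ≠ -1 := by
      intro e
      apply h
      have := congrArg Complex.im e
      simp at this
      apply Complex.ext
      · rw [hρ, hσ]
      · linarith
    refine ⟨2 / ‖-ρ - conj σ + 1‖, fun x hx => ?_⟩
    have hx0 : 0 < x := by linarith
    rw [if_neg h, sub_zero, integral_cpow (Or.inr ⟨hne, Set.notMem_uIcc_of_lt one_pos hx0⟩),
      norm_div]
    gcongr
    refine (norm_sub_le _ _).trans ?_
    rw [norm_cpow_eq_rpow_re_of_pos hx0, norm_cpow_eq_rpow_re_of_pos one_pos, hre]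
    norm_num

theorem good (Z : Finset ℂ) (hz : ∀ ρ ∈ Z, riemannZeta ρ = 0) (h1 : ∀ ρ ∈ Z, ρ.re = 1 / 2)
    (hd : ∀ ρ ∈ Z, deriv riemannZeta ρ ≠ 0) {ε : ℝ} (hε : 0 < ε) :
    ∃ C : ℝ, ∀ x : ℝ, 2 ≤ x →
      (∑ ρ ∈ Z, (‖ρ * deriv riemannZeta ρ‖ ^ 2)⁻¹) * Real.log x ≤ (1 + ε) * II x + C := by
  classical
  set c : ℂ → ℂ := fun ρ => (ρ * deriv riemannZeta ρ)⁻¹ with hc
  set S : ℝ := ∑ ρ ∈ Z, (‖ρ * deriv riemannZeta ρ‖ ^ 2)⁻¹ with hS
  have hSc : S = ∑ ρ ∈ Z, ‖c ρ‖ ^ 2 := by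
    simp only [hS, hc, norm_inv, inv_pow]
  have hS0 : 0 ≤ S := sum_nonneg fun _ _ => by positivity
  set δ : ℝ := ε / (2 * S + 1) with hδ
  have hδ0 : 0 < δ := by positivity
  have hk : ∀ ρ : ℂ, ∃ C : ℝ, ρ ∈ Z → ∀ x : ℝ, 2 ≤ x →
      ‖ρ * deriv riemannZeta ρ * FF ρ x - (Real.log x : ℝ)‖ ≤ δ * II x + C := by
    intro ρ
    by_cases h : ρ ∈ Z
    · obtain ⟨C, hC⟩ := key (hz ρ h) (h1 ρ h).ge (by rw [h1 ρ h]; norm_num) hδ0
      exact ⟨C, fun _ => hC⟩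
    · exact ⟨0, fun h' => absurd h' h⟩
  choose C hC using hk
  have hb : ∀ ρ σ : ℂ, ∃ B : ℝ, ρ ∈ Z → σ ∈ Z → ∀ x : ℝ, 1 ≤ x →
      ‖(∫ u in (1 : ℝ)..x, (u : ℂ) ^ (-ρ - conj σ)) - (if ρ = σ then (Real.log x : ℂ) else 0)‖
        ≤ B := by
    intro ρ σ
    by_cases h : ρ ∈ Z ∧ σ ∈ Z
    · obtain ⟨B, hB⟩ := cross (h1 ρ h.1) (h1 σ h.2)
      exact ⟨B, fun _ _ => hB⟩
    · exact ⟨0, fun h1 h2 => absurd ⟨h1, h2⟩ h⟩
  choose B hB using hb
  refine ⟨2 * ∑ ρ ∈ Z, ‖c ρ‖ ^ 2 * C ρ + ∑ ρ ∈ Z, ∑ σ ∈ Z, ‖c ρ‖ * ‖c σ‖ * B ρ σ, fun x hx => ?_⟩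
  have hx1 : 1 ≤ x := by linarith
  have hx0 : 0 < x := by linarith
  have hI := II_nonneg hx1
  set g : ℝ → ℂ := fun u => ∑ ρ ∈ Z, conj (c ρ) * (u : ℂ) ^ (-ρ) with hg
  have hcp : ∀ r : ℂ, IntervalIntegrable (fun u : ℝ => (u : ℂ) ^ r) volume 1 x := fun r =>
    ((continuousOn_cpow r).mono (uIcc_sub one_pos hx0)).intervalIntegrable
  have hgc : ContinuousOn g (Set.uIcc 1 x) :=
    continuousOn_finsetSum _ fun ρ _ =>
      continuousOn_const.mul ((continuousOn_cpow _).mono (uIcc_sub one_pos hx0))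
  -- the linear term
  have l1 : ∀ u ∈ Set.uIcc 1 x, ((Mf u / u : ℝ) : ℂ) * g u
      = ∑ ρ ∈ Z, conj (c ρ) * ((Mf u : ℂ) * (u : ℂ) ^ (-ρ - 1)) := by
    intro u hu
    have hu0 : 0 < u := uIcc_sub one_pos hx0 hu
    have huc : (u : ℂ) ≠ 0 := by exact_mod_cast hu0.ne'
    simp only [hg]
    rw [mul_sum]
    apply sum_congr rfl
    intro ρ _
    rw [cpow_sub _ _ huc, cpow_one]
    push_cast
    field_simp
  have l1i : IntervalIntegrable (fun u => ((Mf u / u : ℝ) : ℂ) * g u) volume 1 x := by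
    have := IntervalIntegrable.sum (μ := volume) (a := 1) (b := x) Z
      (f := fun ρ u => conj (c ρ) * ((Mf u : ℂ) * (u : ℂ) ^ (-ρ - 1)))
      (fun ρ _ => (ii_FF ρ hx1).const_mul _)
    refine this.congr fun u hu => ?_
    simp only [Finset.sum_apply]
    exact (l1 u (Set.uIoc_subset_uIcc hu)).symm
  have l2 : ∫ u in (1 : ℝ)..x, ((Mf u / u : ℝ) : ℂ) * g u = ∑ ρ ∈ Z, conj (c ρ) * FF ρ x := by
    rw [intervalIntegral.integral_congr l1,
      intervalIntegral.integral_finsetSum (fun ρ _ => (ii_FF ρ hx1).const_mul _)]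
    exact sum_congr rfl fun ρ _ => intervalIntegral.integral_const_mul _ _
  have l3 : S * Real.log x - (S * (δ * II x) + ∑ ρ ∈ Z, ‖c ρ‖ ^ 2 * C ρ)
      ≤ (∑ ρ ∈ Z, conj (c ρ) * FF ρ x).re := by
    rw [hSc, sum_mul, sum_mul, ← sum_add_distrib, ← sum_sub_distrib, re_sum]
    apply sum_le_sum
    intro ρ hρ
    have hne : ρ * deriv riemannZeta ρ ≠ 0 := by
      apply mul_ne_zero _ (hd ρ hρ)
      intro h0
      have := h1 ρ hρ
      rw [h0] at this; norm_num at this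
    have e : conj (c ρ) * FF ρ x = ((‖c ρ‖ ^ 2 : ℝ) : ℂ) * (ρ * deriv riemannZeta ρ * FF ρ x) := by
      have : ((‖c ρ‖ ^ 2 : ℝ) : ℂ) = conj (c ρ) * c ρ := by
        rw [conj_mul']; push_cast; rfl
      have h' : c ρ * (ρ * deriv riemannZeta ρ) = 1 := inv_mul_cancel₀ hne
      rw [this]
      linear_combination (-(conj (c ρ) * FF ρ x)) * h'
    rw [e, re_ofReal_mul]
    have h3 := (abs_re_le_norm _).trans (hC ρ hρ x hx)
    rw [sub_re, ofReal_re, abs_le] at h3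
    have h4 : Real.log x - (δ * II x + C ρ) ≤ (ρ * deriv riemannZeta ρ * FF ρ x).re := by
      linarith [h3.1]
    have := mul_le_mul_of_nonneg_left h4 (sq_nonneg ‖c ρ‖)
    linarith
  -- the quadratic term
  have q1 : ∀ u ∈ Set.uIcc 1 x, ((‖g u‖ ^ 2 : ℝ) : ℂ)
      = ∑ ρ ∈ Z, ∑ σ ∈ Z, conj (c ρ) * c σ * (u : ℂ) ^ (-ρ - conj σ) := by
    intro u hu
    have hu0 : 0 < u := uIcc_sub one_pos hx0 hu
    have huc : (u : ℂ) ≠ 0 := by exact_mod_cast hu0.ne'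
    have : ((‖g u‖ ^ 2 : ℝ) : ℂ) = g u * conj (g u) := by
      rw [mul_conj']; push_cast; rfl
    rw [this]
    simp only [hg, map_sum, map_mul, conj_conj]
    rw [sum_mul_sum]
    refine sum_congr rfl fun ρ _ => sum_congr rfl fun σ _ => ?_
    have e : conj ((u : ℂ) ^ (-σ)) = (u : ℂ) ^ (-conj σ) := by
      have harg : (u : ℂ).arg ≠ Real.pi := by
        rw [arg_ofReal_of_nonneg hu0.le]; exact Real.pi_ne_zero.symm
      have := cpow_conj (u : ℂ) (-σ) harg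
      rw [conj_ofReal, map_neg] at this
      exact this.symm
    rw [e, sub_eq_add_neg, cpow_add _ _ huc]
    ring
  have q2 : ((∫ u in (1 : ℝ)..x, ‖g u‖ ^ 2 : ℝ) : ℂ)
      = ∑ ρ ∈ Z, ∑ σ ∈ Z, conj (c ρ) * c σ * ∫ u in (1 : ℝ)..x, (u : ℂ) ^ (-ρ - conj σ) := by
    rw [← intervalIntegral.integral_ofReal, intervalIntegral.integral_congr q1,
      intervalIntegral.integral_finsetSum]
    · refine sum_congr rfl fun ρ _ => ?_
      rw [intervalIntegral.integral_finsetSum (fun σ _ => (hcp _).const_mul _)]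
      exact sum_congr rfl fun σ _ => intervalIntegral.integral_const_mul _ _
    · intro ρ _
      exact (continuousOn_finsetSum _ fun σ _ => continuousOn_const.mul
        ((continuousOn_cpow _).mono (uIcc_sub one_pos hx0))).intervalIntegrable
  have q3 : ∫ u in (1 : ℝ)..x, ‖g u‖ ^ 2
      ≤ S * Real.log x + ∑ ρ ∈ Z, ∑ σ ∈ Z, ‖c ρ‖ * ‖c σ‖ * B ρ σ := by
    have e : ((S * Real.log x : ℝ) : ℂ)
        = ∑ ρ ∈ Z, ∑ σ ∈ Z, conj (c ρ) * c σ * (if ρ = σ then (Real.log x : ℂ) else 0) := by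
      rw [hSc, sum_mul]
      push_cast
      refine sum_congr rfl fun ρ hρ => ?_
      simp only [mul_ite, mul_zero, sum_ite_eq, hρ, if_true]
      rw [conj_mul']
    have n : ‖((∫ u in (1 : ℝ)..x, ‖g u‖ ^ 2 : ℝ) : ℂ) - ((S * Real.log x : ℝ) : ℂ)‖
        ≤ ∑ ρ ∈ Z, ∑ σ ∈ Z, ‖c ρ‖ * ‖c σ‖ * B ρ σ := by
      rw [q2, e, ← sum_sub_distrib]
      refine (norm_sum_le _ _).trans (sum_le_sum fun ρ hρ => ?_)
      rw [← sum_sub_distrib]
      refine (norm_sum_le _ _).trans (sum_le_sum fun σ hσ => ?_)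
      rw [← mul_sub, norm_mul, norm_mul, RCLike.norm_conj]
      exact mul_le_mul_of_nonneg_left (hB ρ σ hρ hσ x hx1) (by positivity)
    rw [← ofReal_sub, norm_real, Real.norm_eq_abs, abs_le] at n
    linarith [n.2]
  -- pointwise inequality
  have gi : IntervalIntegrable (fun u => ‖g u‖ ^ 2) volume 1 x := (hgc.norm.pow 2).intervalIntegrable
  have l1r : IntervalIntegrable (fun u => (((Mf u / u : ℝ) : ℂ) * g u).re) volume 1 x :=
    ⟨l1i.1.re, l1i.2.re⟩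
  have p1 : ∫ u in (1 : ℝ)..x, 2 * (((Mf u / u : ℝ) : ℂ) * g u).re
      ≤ ∫ u in (1 : ℝ)..x, ((Mf u / u) ^ 2 + ‖g u‖ ^ 2) := by
    apply intervalIntegral.integral_mono_on hx1 (l1r.const_mul 2) ((ii_sq hx1).add gi)
    intro u _
    rw [re_ofReal_mul]
    have h1 : (g u).re ^ 2 ≤ ‖g u‖ ^ 2 := by
      rw [← sq_abs]; exact pow_le_pow_left₀ (abs_nonneg _) (abs_re_le_norm _) 2
    nlinarith [sq_nonneg (Mf u / u - (g u).re)]
  rw [intervalIntegral.integral_add (ii_sq hx1) gi, intervalIntegral.integral_const_mul] at p1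
  have p2 : ∫ u in (1 : ℝ)..x, (((Mf u / u : ℝ) : ℂ) * g u).re
      = (∑ ρ ∈ Z, conj (c ρ) * FF ρ x).re := by
    rw [← l2]
    exact (reCLM.intervalIntegral_comp_comm l1i)
  rw [p2] at p1
  have h5 : 2 * S * δ ≤ ε := by
    rw [hδ, ← mul_div_assoc, div_le_iff₀ (by positivity)]; nlinarith
  have h6 := mul_le_mul_of_nonneg_right h5 hI
  change _ ≤ II x + _ at p1
  nlinarith

lemma ev_le {S κ C L : ℝ} (hκ : 0 < κ) (hL : L * κ < S)
    (h : ∀ x : ℝ, 2 ≤ x → S * Real.log x ≤ κ * II x + C) :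
    ∀ᶠ x in atTop, L ≤ II x / Real.log x := by
  have h1 : ∀ᶠ x in atTop, C / (S - L * κ) ≤ Real.log x :=
    Real.tendsto_log_atTop.eventually_ge_atTop _
  filter_upwards [h1, eventually_ge_atTop (2 : ℝ)] with x hx1 hx
  have hl : 0 < Real.log x := Real.log_pos (by linarith)
  rw [div_le_iff₀ (by linarith)] at hx1
  rw [le_div_iff₀ hl]
  have := h x hx
  have h2 : κ * (L * Real.log x) ≤ κ * II x := by nlinarith
  exact le_of_mul_le_mul_left h2 hκ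

lemma zero_one_sub {ρ : ℂ} (hz : riemannZeta ρ = 0) (h0 : 0 < ρ.re) (h1 : ρ.re < 1) :
    riemannZeta (1 - ρ) = 0 := by
  rw [riemannZeta_one_sub _ (by rintro rfl; simp at h1), hz, mul_zero]
  intro n hn
  rw [hn] at h0
  simp at h0
  linarith [Nat.cast_nonneg (α := ℝ) n]

theorem main :
    ∑' ρ : {ρ : ℂ // riemannZeta ρ = 0 ∧ 0 < ρ.re ∧ ρ.re < 1},
        (if (ρ : ℂ).re = 1 / 2 then (ENNReal.ofReal (‖(ρ : ℂ) * deriv riemannZeta ρ‖ ^ 2))⁻¹ else ⊤)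
      ≤ liminf (fun x : ℝ => ENNReal.ofReal (II x / Real.log x)) atTop := by
  classical
  rw [ENNReal.tsum_eq_iSup_sum]
  refine iSup_le fun T => le_of_forall_lt_imp_le_of_dense fun b hb => ?_
  have hbt : b ≠ ⊤ := ne_top_of_lt hb
  suffices h : ∀ᶠ x in atTop, b.toReal ≤ II x / Real.log x by
    apply le_liminf_of_le
    · isBoundedDefault
    filter_upwards [h] with x hx
    rw [← ENNReal.ofReal_toReal hbt]
    exact ENNReal.ofReal_le_ofReal hx
  have hb0 : 0 ≤ b.toReal := ENNReal.toReal_nonneg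
  have badcase : ∀ ρ : ℂ, riemannZeta ρ = 0 → 1 / 2 ≤ ρ.re → ρ.re < 1 →
      (1 / 2 < ρ.re ∨ deriv riemannZeta ρ = 0) → ∀ᶠ x in atTop, b.toReal ≤ II x / Real.log x := by
    intro ρ hz h1 h2 h3
    have hκ : 0 < 1 / (b.toReal + 1) := by positivity
    obtain ⟨C, hC⟩ := bad hz h1 h2 h3 hκ
    refine ev_le hκ ?_ hC
    rw [mul_one_div, div_lt_one (by positivity)]; linarith
  by_cases hgood : ∀ ρ ∈ T, (ρ : ℂ).re = 1 / 2 ∧ deriv riemannZeta ρ ≠ 0
  · set Z : Finset ℂ := T.map (Function.Embedding.subtype _) with hZ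
    have hmem : ∀ ρ ∈ Z, riemannZeta ρ = 0 ∧ ρ.re = 1 / 2 ∧ deriv riemannZeta ρ ≠ 0 := by
      intro ρ hρ
      obtain ⟨σ, hσ, rfl⟩ := mem_map.1 hρ
      exact ⟨σ.2.1, hgood σ hσ⟩
    set S : ℝ := ∑ ρ ∈ Z, (‖ρ * deriv riemannZeta ρ‖ ^ 2)⁻¹ with hS
    have hST : ∑ ρ ∈ T, (if (ρ : ℂ).re = 1 / 2 then
        (ENNReal.ofReal (‖(ρ : ℂ) * deriv riemannZeta ρ‖ ^ 2))⁻¹ else ⊤) = ENNReal.ofReal S := by
      rw [hS, hZ, sum_map, ENNReal.ofReal_sum_of_nonneg (fun _ _ => by positivity)]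
      refine sum_congr rfl fun ρ hρ => ?_
      rw [if_pos (hgood ρ hρ).1, ENNReal.ofReal_inv_of_pos]
      · rfl
      · have : (ρ : ℂ) ≠ 0 := by
          intro h0
          have := ρ.2.2.1
          rw [h0] at this; simp at this
        have := mul_ne_zero this (hgood ρ hρ).2
        simp only [Function.Embedding.coe_subtype]
        positivity
    rw [hST] at hb
    have hlt : b.toReal < S := by
      rw [← ENNReal.ofReal_toReal hbt] at hb
      exact (ENNReal.ofReal_lt_ofReal_iff_of_nonneg hb0).1 hb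
    have hε : 0 < (S - b.toReal) / (b.toReal + 1) := by
      apply div_pos <;> linarith
    obtain ⟨C, hC⟩ := good Z (fun ρ h => (hmem ρ h).1) (fun ρ h => (hmem ρ h).2.1)
      (fun ρ h => (hmem ρ h).2.2) hε
    refine ev_le (by positivity) ?_ hC
    have : b.toReal * ((S - b.toReal) / (b.toReal + 1)) < S - b.toReal := by
      rw [← mul_div_assoc, div_lt_iff₀ (by positivity)]; nlinarith
    linarith
  · push Not at hgood
    obtain ⟨ρ, _, hρ⟩ := hgood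
    obtain ⟨hz, h0, h1⟩ := ρ.2
    rcases lt_trichotomy (ρ : ℂ).re (1 / 2) with h | h | h
    · refine badcase (1 - ρ) (zero_one_sub hz h0 h1) ?_ ?_ (Or.inl ?_) <;>
        simp only [sub_re, one_re] <;> linarith
    · exact badcase ρ hz h.ge h1 (Or.inr (hρ h))
    · exact badcase ρ hz h.le h1 (Or.inl h)

end Pool.Agent.P.MP_323ce2_nt
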