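import Mathlib
import Pool.Agent.P.MP_323ce2_nt.Tools

open Complex Filter Topology Metric Set MeasureTheory Asymptotics

namespace Pool.Agent.P.MP_323ce2_nt

noncomputable def fr (x : ℝ) : ℂ := (Ioi (1 : ℝ)).indicator (fun x => ((Int.fract x : ℝ) : ℂ)) x

lemma norm_fr_le (x : ℝ) : ‖fr x‖ ≤ 1 := by
  unfold fr
  by_cases h : x ∈ Ioi (1 : ℝ)
  · rw [indicator_of_mem h, norm_real, Real.norm_eq_abs, abs_of_nonneg (Int.fract_nonneg x)]
    exact (Int.fract_lt_one x).le
  · rw [indicator_of_notMem h]; simp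

lemma measurable_fr : Measurable fr :=
  (measurable_ofReal.comp measurable_fract).indicator measurableSet_Ioi

noncomputable def Phi (s : ℂ) : ℂ := mellin fr (-s)

lemma Phi_eq (s : ℂ) :
    Phi s = ∫ t in Ioi (1 : ℝ), ((Int.fract t : ℝ) : ℂ) * (t : ℂ) ^ (-(s + 1)) := by
  unfold Phi mellin fr
  have : (fun t : ℝ => (t : ℂ) ^ (-s - 1) •
      (Ioi (1 : ℝ)).indicator (fun x => ((Int.fract x : ℝ) : ℂ)) t) =
      (Ioi (1 : ℝ)).indicator fun t => ((Int.fract t : ℝ) : ℂ) * (t : ℂ) ^ (-(s + 1)) := by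
    ext t
    by_cases h : t ∈ Ioi (1 : ℝ)
    · rw [indicator_of_mem h, indicator_of_mem h, smul_eq_mul, mul_comm]; congr 2; ring
    · rw [indicator_of_notMem h, indicator_of_notMem h, smul_zero]
  rw [this, setIntegral_indicator measurableSet_Ioi]
  congr 2
  exact inter_eq_right.2 (Ioi_subset_Ioi zero_le_one)

lemma differentiableAt_Phi {s : ℂ} (hs : 0 < s.re) : DifferentiableAt ℂ Phi s := by
  have h : DifferentiableAt ℂ (mellin fr) (-s) := by
    refine mellin_differentiableAt_of_isBigO_rpow (a := 0) (b := (-s).re - 1) ?_ ?_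
      (by simpa using hs) ?_ (by linarith)
    · refine LocallyIntegrable.locallyIntegrableOn ?_ _
      refine (locallyIntegrable_const (1 : ℝ)).mono measurable_fr.aestronglyMeasurable ?_
      exact Eventually.of_forall fun x => by simpa using norm_fr_le x
    · refine IsBigO.of_bound 1 (Eventually.of_forall fun x => ?_)
      simpa using norm_fr_le x
    · refine IsBigO.of_bound 0 ?_
      filter_upwards [Ioo_mem_nhdsGT one_pos] with x hx
      have : x ∉ Ioi (1 : ℝ) := fun h => by linarith [hx.2, mem_Ioi.1 h]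
      simp [fr, indicator_of_notMem this]
  exact h.comp s (by fun_prop)

lemma norm_Phi_le {s : ℂ} (hs : 0 < s.re) : ‖Phi s‖ ≤ 1 / s.re := by
  rw [Phi_eq]
  have h1 : -(s.re + 1) < -1 := by linarith
  calc _ ≤ ∫ t in Ioi (1 : ℝ), t ^ (-(s.re + 1)) := by
        refine norm_integral_le_of_norm_le (integrableOn_Ioi_rpow_of_lt h1 one_pos) ?_
        refine (ae_restrict_iff' measurableSet_Ioi).2 (Eventually.of_forall fun t ht => ?_)
        have ht0 : 0 < t := one_pos.trans ht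
        rw [norm_mul, norm_cpow_eq_rpow_re_of_pos ht0, norm_real, Real.norm_eq_abs,
          abs_of_nonneg (Int.fract_nonneg t)]
        simp only [neg_re, add_re, one_re]
        exact mul_le_of_le_one_left (by positivity) (Int.fract_lt_one t).le
    _ = _ := by
        rw [integral_Ioi_rpow_of_lt h1 one_pos, Real.one_rpow,
          show -(s.re + 1) + 1 = -s.re by ring, neg_div_neg_eq]

lemma zeta_eq_of_one_lt {s : ℂ} (hs : 1 < s.re) :
    riemannZeta₁ s = s - s * (s - 1) * Phi s := by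
  have hs1 : s ≠ 1 := by rintro rfl; simp at hs
  have hs1' : s - 1 ≠ 0 := sub_ne_zero.2 hs1
  have h1 : riemannZeta₁ s = (s - 1) * riemannZeta s := by
    rw [riemannZeta_eq_inv_sub_mul hs1]; field_simp
  have h2 := LSeries_eq_mul_integral (1 : ℕ → ℂ) zero_le_one hs (LSeriesSummable_one_iff.2 hs)
    (IsBigO.of_bound 1 (Eventually.of_forall fun n => by simp))
  rw [LSeries_one_eq_riemannZeta hs] at h2
  have hi1 : IntegrableOn (fun t : ℝ => (t : ℂ) ^ (-s)) (Ioi 1) :=
    integrableOn_Ioi_cpow_of_lt (by simpa using hs) one_pos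
  have hi2 : IntegrableOn (fun t : ℝ => ((Int.fract t : ℝ) : ℂ) * (t : ℂ) ^ (-(s + 1))) (Ioi 1) := by
    refine Integrable.bdd_mul (c := 1)
      (integrableOn_Ioi_cpow_of_lt (by simp; linarith) one_pos)
      (measurable_ofReal.comp measurable_fract).aestronglyMeasurable
      (Eventually.of_forall fun t => ?_)
    rw [norm_real, Real.norm_eq_abs, abs_of_nonneg (Int.fract_nonneg t)]
    exact (Int.fract_lt_one t).le
  have h3 : ∫ t in Ioi (1 : ℝ), (∑ k ∈ Finset.Icc 1 ⌊t⌋₊, (1 : ℕ → ℂ) k) * (t : ℂ) ^ (-(s + 1)) =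
      (∫ t in Ioi (1 : ℝ), (t : ℂ) ^ (-s)) - Phi s := by
    rw [Phi_eq, ← integral_sub hi1 hi2]
    refine setIntegral_congr_fun measurableSet_Ioi fun t ht => ?_
    have ht0 : 0 < t := one_pos.trans ht
    have ht' : (t : ℂ) ≠ 0 := ofReal_ne_zero.2 ht0.ne'
    have e1 : (t : ℂ) ^ (-s) = t * (t : ℂ) ^ (-(s + 1)) := by
      rw [show -s = 1 + -(s + 1) by ring, cpow_add _ _ ht', cpow_one]
    have e2 : (⌊t⌋₊ : ℝ) = t - Int.fract t := by
      rw [Int.self_sub_fract, natCast_floor_eq_intCast_floor ht0.le]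
    simp only [Pi.one_apply, Finset.sum_const, Nat.card_Icc, add_tsub_cancel_right, nsmul_eq_mul,
      mul_one]
    rw [e1, ← ofReal_natCast, e2]; push_cast; ring
  rw [h1, h2, h3, integral_Ioi_cpow_of_lt (by simpa using hs) one_pos, ofReal_one, one_cpow]
  have : -s + 1 ≠ 0 := fun h => hs1' (by linear_combination -h)
  field_simp
  ring

lemma zeta_eq {s : ℂ} (hs : 0 < s.re) : riemannZeta₁ s = s - s * (s - 1) * Phi s := by
  have hU : IsOpen {s : ℂ | 0 < s.re} := isOpen_lt continuous_const continuous_re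
  have h1 : AnalyticOnNhd ℂ riemannZeta₁ {s : ℂ | 0 < s.re} :=
    differentiable_riemannZeta₁.differentiableOn.analyticOnNhd hU
  have h2 : AnalyticOnNhd ℂ (fun s => s - s * (s - 1) * Phi s) {s : ℂ | 0 < s.re} := by
    refine DifferentiableOn.analyticOnNhd (fun s hs => ?_) hU
    have := differentiableAt_Phi hs
    exact DifferentiableAt.differentiableWithinAt (by fun_prop)
  refine h1.eqOn_of_preconnected_of_eventuallyEq h2 (convex_halfSpace_re_gt 0).isPreconnected
    (z₀ := 2) (by simp) ?_ hs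
  have : {s : ℂ | 1 < s.re} ∈ 𝓝 (2 : ℂ) :=
    (isOpen_lt continuous_const continuous_re).mem_nhds (by simp)
  filter_upwards [this] with s hs using zeta_eq_of_one_lt hs

lemma norm_zeta_le {s : ℂ} (hs : 1 / 4 ≤ s.re) (hs1 : 1 ≤ ‖s - 1‖) :
    ‖riemannZeta s‖ ≤ 5 * ‖s‖ := by
  have hne : s ≠ 1 := by rintro rfl; norm_num at hs1
  have hne' : s - 1 ≠ 0 := sub_ne_zero.2 hne
  have hs0 : 0 < s.re := by linarith
  have e : riemannZeta s = s * (s - 1)⁻¹ - s * Phi s := by
    rw [riemannZeta_eq_inv_sub_mul hne, zeta_eq hs0]; field_simp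
  have h1 : ‖Phi s‖ ≤ 4 := (norm_Phi_le hs0).trans (by rw [div_le_iff₀ hs0]; linarith)
  have h2 : ‖(s - 1)⁻¹‖ ≤ 1 := by rw [norm_inv]; exact inv_le_one_of_one_le₀ hs1
  rw [e]
  refine (norm_sub_le _ _).trans ?_
  rw [norm_mul, norm_mul]
  have := norm_nonneg s
  nlinarith

noncomputable def K0 : ℝ := ∑' n : ℕ, ‖LSeries.term (1 : ℕ → ℂ) (3 / 2) n‖

lemma norm_LSeries_le {f : ℕ → ℂ} (hf : ∀ n, ‖f n‖ ≤ 1) {s : ℂ} (hs : 3 / 2 ≤ s.re) :
    ‖LSeries f s‖ ≤ K0 := by
  have hsum : Summable fun n => ‖LSeries.term (1 : ℕ → ℂ) (3 / 2) n‖ :=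
    (LSeriesSummable_one_iff.2 (by norm_num)).norm
  refine tsum_of_norm_bounded hsum.hasSum fun n => ?_
  refine (LSeries.norm_term_le (g := 1) s (by simpa using hf n)).trans ?_
  exact LSeries.norm_term_le_of_re_le_re _ (by simpa using hs) n

lemma norm_zeta_le_K0 {s : ℂ} (hs : 3 / 2 ≤ s.re) : ‖riemannZeta s‖ ≤ K0 := by
  rw [← LSeries_one_eq_riemannZeta (by linarith)]
  exact norm_LSeries_le (by simp) hs

lemma LSeries_mu {s : ℂ} (hs : 1 < s.re) :
    LSeries (fun n => ((ArithmeticFunction.moebius n : ℤ) : ℂ)) s = (riemannZeta s)⁻¹ := by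
  have := LSeries_one_mul_Lseries_moebius hs
  rw [LSeries_one_eq_riemannZeta hs] at this
  exact eq_inv_of_mul_eq_one_right this

lemma norm_inv_zeta_le_K0 {s : ℂ} (hs : 3 / 2 ≤ s.re) : ‖riemannZeta s‖⁻¹ ≤ K0 := by
  rw [← norm_inv, ← LSeries_mu (by linarith)]
  refine norm_LSeries_le (fun n => ?_) hs
  rw [norm_intCast]
  exact_mod_cast ArithmeticFunction.abs_moebius_le_one

lemma one_le_K0 : 1 ≤ K0 := by
  have h1 := norm_zeta_le_K0 (s := 2) (by norm_num)
  have h2 := norm_inv_zeta_le_K0 (s := 2) (by norm_num)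
  have h3 : 0 < ‖riemannZeta 2‖ :=
    norm_pos_iff.2 (riemannZeta_ne_zero_of_one_le_re (by norm_num))
  rcases le_total 1 ‖riemannZeta 2‖ with h | h
  · linarith
  · linarith [one_le_inv₀ h3 |>.2 h]

end Pool.Agent.P.MP_323ce2_nt
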