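import Mathlib
import Pool.Agent.P.MP_323ce2_nt.Zeta

open Complex Filter Topology Metric Set MeasureTheory Asymptotics

namespace Pool.Agent.P.MP_323ce2_nt

/-- All zeros in the critical strip lie on the critical line. -/
def RHs : Prop := ∀ s : ℂ, riemannZeta s = 0 → 0 < s.re → s.re < 1 → s.re = 1 / 2

lemma RHs.ne_zero (h : RHs) {s : ℂ} (hs : 1 / 2 < s.re) : riemannZeta s ≠ 0 := by
  intro h0
  rcases lt_or_ge s.re 1 with h1 | h1
  · have := h s h0 (by linarith) h1
    linarith
  · exact riemannZeta_ne_zero_of_one_le_re h1 h0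

/-- The width of the discs. -/
noncomputable def wd : ℝ := 1 / 1000000

lemma wd_pos : 0 < wd := by unfold wd; norm_num

lemma re_of_mem {c s : ℂ} {r : ℝ} (h : s ∈ closedBall c r) : c.re - r ≤ s.re ∧ s.re ≤ c.re + r := by
  rw [mem_closedBall, dist_eq_norm] at h
  have := abs_le.1 ((abs_re_le_norm (s - c)).trans h)
  rw [sub_re] at this
  constructor <;> linarith [this.1, this.2]

lemma im_of_mem {c s : ℂ} {r : ℝ} (h : s ∈ closedBall c r) : |s.im - c.im| ≤ r := by
  rw [mem_closedBall, dist_eq_norm] at h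
  simpa using (abs_im_le_norm (s - c)).trans h

lemma one_le_norm_sub_one {T : ℝ} (hT : 3 ≤ |T|) {σ : ℝ} {s : ℂ}
    (h : s ∈ closedBall (σ + T * I) 2) : 1 ≤ ‖s - 1‖ := by
  have h1 := im_of_mem h
  have h2 := abs_im_le_norm (s - 1)
  simp only [add_im, ofReal_im, mul_im, ofReal_re, I_im, mul_one, I_re, mul_zero, add_zero,
    zero_add, sub_im, one_im, sub_zero] at h1 h2
  have := abs_sub_abs_le_abs_sub T s.im
  rw [abs_sub_comm] at this
  linarith

lemma differentiableOn_zeta {T : ℝ} (hT : 3 ≤ |T|) (σ : ℝ) :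
    DifferentiableOn ℂ riemannZeta (ball (σ + T * I) 2) := by
  intro s hs
  refine (differentiableAt_riemannZeta ?_).differentiableWithinAt
  rintro rfl
  have := one_le_norm_sub_one hT (ball_subset_closedBall hs)
  norm_num at this

lemma zeta_poly {T : ℝ} (hT : 3 ≤ |T|) {s : ℂ} (hs : s ∈ closedBall (2 + T * I) (7 / 4)) :
    ‖riemannZeta s‖ ≤ Real.exp (4 * Real.log |T|) := by
  have h1 := (re_of_mem hs).1
  simp only [add_re, re_ofNat, mul_re, ofReal_re, I_re, mul_zero, ofReal_im, I_im, mul_one,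
    sub_self, add_zero] at h1
  have h2 : 1 ≤ ‖s - 1‖ := one_le_norm_sub_one (σ := 2) hT
    (closedBall_subset_closedBall (ε₁ := 7 / 4) (by norm_num) (by simpa using hs))
  refine (norm_zeta_le (by linarith) h2).trans ?_
  have h3 : ‖s‖ ≤ |T| + 4 := by
    rw [mem_closedBall, dist_eq_norm] at hs
    have h4 : ‖(2 : ℂ) + T * I‖ ≤ 2 + |T| := (norm_add_le _ _).trans (by simp)
    have := norm_le_norm_add_norm_sub' s (2 + T * I)
    linarith
  have h4 : Real.exp (4 * Real.log |T|) = |T| ^ 4 := by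
    rw [show (4 : ℝ) * Real.log |T| = (4 : ℕ) * Real.log |T| by norm_num, Real.exp_nat_mul,
      Real.exp_log (by linarith)]
  rw [h4]
  have h5 : 27 ≤ |T| ^ 3 := by
    calc (27 : ℝ) = 3 ^ 3 := by norm_num
      _ ≤ _ := by gcongr
  nlinarith

lemma ev_small {A B lam ε : ℝ} (hlam : lam < 1) (hε : 0 < ε) :
    ∀ᶠ L : ℝ in atTop, A + B * L ^ lam ≤ ε * L := by
  have h1 : Tendsto (fun L : ℝ => A * L⁻¹ + B * L ^ (-(1 - lam))) atTop (𝓝 (A * 0 + B * 0)) :=
    (tendsto_inv_atTop_zero.const_mul A).add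
      ((tendsto_rpow_neg_atTop (by linarith)).const_mul B)
  simp only [mul_zero, add_zero] at h1
  filter_upwards [h1.eventually (gt_mem_nhds hε), eventually_gt_atTop 0] with L hL hL0
  have e : A + B * L ^ lam = (A * L⁻¹ + B * L ^ (-(1 - lam))) * L := by
    have : L ^ lam = L ^ (-(1 - lam)) * L := by
      rw [← Real.rpow_add_one hL0.ne']; congr 1; ring
    rw [this]; field_simp
  rw [e]
  gcongr

theorem littlewood_a (h : RHs) : ∃ L1 : ℝ, ∀ T : ℝ, 3 ≤ |T| → L1 ≤ Real.log |T| →
    ∀ s ∈ closedBall (2 + T * I) (3 / 2 - wd),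
      Real.exp (-(Real.log |T| / 2000)) ≤ ‖riemannZeta s‖ ∧
      ‖riemannZeta s‖ ≤ Real.exp (Real.log |T| / 2000) := by
  have hw := wd_pos
  have hw1 : wd = 1 / 1000000 := rfl
  have hK := one_le_K0
  have hlK : 0 ≤ Real.log K0 := Real.log_nonneg hK
  set a := 4 * Real.log K0 + 2 with ha
  have ha0 : 0 < a := by positivity
  set lam := (Real.log (3 / 2 - wd) - Real.log (1 / 4)) /
    (Real.log (3 / 2 - wd / 2) - Real.log (1 / 4)) with hlam
  have hl1 : Real.log (1 / 4) < Real.log (3 / 2 - wd / 2) :=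
    Real.log_lt_log (by norm_num) (by linarith)
  have hl2 : Real.log (3 / 2 - wd) < Real.log (3 / 2 - wd / 2) :=
    Real.log_lt_log (by linarith) (by linarith)
  have hlam1 : lam < 1 := by rw [hlam, div_lt_one (by linarith)]; linarith
  obtain ⟨L1, hL1⟩ := eventually_atTop.1 ((ev_small (A := Real.log K0)
    (B := a * (30 / wd / a) ^ lam) hlam1 (ε := 1 / 2000) (by norm_num)).and
    ((eventually_ge_atTop (Real.log K0)).and (eventually_ge_atTop a)))
  refine ⟨L1, fun T hT hTL s hs => ?_⟩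
  obtain ⟨k1, k2, k3⟩ := hL1 _ hTL
  set L := Real.log |T| with hL
  have hL0 : 0 < L := by linarith
  set c : ℂ := 2 + T * I with hc
  have hcre : c.re = 2 := by simp [hc]
  have hdiff : DifferentiableOn ℂ riemannZeta (ball c 2) := by
    simpa using differentiableOn_zeta hT 2
  obtain ⟨φ, hφ, hφ0, hφe⟩ := exists_log (h := riemannZeta) (c := c) (r := 3 / 2) (by norm_num)
    (hdiff.mono (ball_subset_ball (by norm_num))) (fun z hz => h.ne_zero (by
      rw [mem_ball, dist_eq_norm] at hz
      have := abs_lt.1 ((abs_re_le_norm (z - c)).trans_lt hz)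
      rw [sub_re, hcre] at this
      linarith [this.1]))
  have hc0 : 0 < ‖riemannZeta c‖ :=
    norm_pos_iff.2 (riemannZeta_ne_zero_of_one_le_re (by rw [hcre]; norm_num))
  have hc1 : ‖riemannZeta c‖ ≤ K0 := norm_zeta_le_K0 (by rw [hcre]; norm_num)
  have hc2 : ‖riemannZeta c‖⁻¹ ≤ K0 := norm_inv_zeta_le_K0 (by rw [hcre]; norm_num)
  have hre : ∀ z ∈ ball c (3 / 2), ∀ B : ℝ, ‖riemannZeta z‖ ≤ Real.exp B →
      (φ z).re ≤ B + Real.log K0 := by
    intro z hz B hB
    rw [hφe z hz, norm_mul, norm_exp] at hB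
    rw [← Real.exp_le_exp, Real.exp_add, Real.exp_log (by linarith)]
    calc Real.exp (φ z).re = ‖riemannZeta c‖ * Real.exp (φ z).re * ‖riemannZeta c‖⁻¹ := by
          field_simp
      _ ≤ _ := by gcongr
  have hb1 : ∀ z ∈ closedBall c (1 / 4), ‖φ z‖ ≤ a := by
    intro z hz
    have := bc (M := 2 * Real.log K0 + 1) (R := 1 / 2) (r := 1 / 4) (by positivity) (by norm_num)
      (by norm_num) (hφ.mono (ball_subset_ball (by norm_num))) hφ0 (fun w hw' => ?_) hz
    · refine this.trans (le_of_eq ?_)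
      rw [ha]; ring
    have h1 := (re_of_mem (ball_subset_closedBall hw')).1
    have := hre w (ball_subset_ball (by norm_num) hw') (Real.log K0) (by
      rw [Real.exp_log (by linarith)]; exact norm_zeta_le_K0 (by linarith))
    linarith
  have hb3 : ∀ z ∈ closedBall c (3 / 2 - wd / 2), ‖φ z‖ ≤ 30 / wd * L := by
    intro z hz
    have := bc (M := 5 * L) (R := 3 / 2) (r := 3 / 2 - wd / 2) (by positivity) (by linarith)
      (by linarith) hφ hφ0 (fun w hw' => ?_) hz
    · refine this.trans ?_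
      rw [div_le_iff₀ (by linarith), hw1]
      nlinarith
    have := hre w hw' (4 * L)
      (zeta_poly hT (ball_subset_closedBall (ball_subset_ball (by norm_num) hw')))
    linarith
  have hab : a ≤ 30 / wd * L := by rw [hw1]; nlinarith
  have key := three_circles (r1 := 1 / 4) (r2 := 3 / 2 - wd) (r3 := 3 / 2 - wd / 2) (R := 3 / 2)
    (by norm_num) (by linarith) (by linarith) (by linarith) (by linarith) hφ hb1 hb3 ha0 hab hs
  rw [← hlam, show 30 / wd * L / a = 30 / wd / a * L by ring,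
    Real.mul_rpow (by positivity) hL0.le, ← mul_assoc] at key
  have hs' : s ∈ ball c (3 / 2) := closedBall_subset_ball (by linarith) hs
  have h1 := abs_le.1 ((abs_re_le_norm (φ s)).trans key)
  rw [hφe s hs', norm_mul, norm_exp]
  constructor
  · calc Real.exp (-(L / 2000)) ≤ Real.exp (-Real.log K0 + (φ s).re) :=
          Real.exp_le_exp.2 (by linarith [h1.1])
      _ = K0⁻¹ * Real.exp (φ s).re := by
          rw [Real.exp_add, Real.exp_neg, Real.exp_log (by linarith)]
      _ ≤ _ := by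
          gcongr
          exact inv_le_of_inv_le₀ hc0 hc2
  · calc _ ≤ K0 * Real.exp (φ s).re := by gcongr
      _ = Real.exp (Real.log K0 + (φ s).re) := by
          rw [Real.exp_add, Real.exp_log (by linarith)]
      _ ≤ _ := Real.exp_le_exp.2 (by linarith [h1.2])

theorem littlewood (h : RHs) : ∃ T1 : ℝ, 3 ≤ T1 ∧ ∀ T : ℝ, T1 ≤ |T| → 1000 ≤ Real.log |T| ∧
    (∀ σ : ℝ, 1 / 2 + wd ≤ σ → σ ≤ 2 →
      Real.exp (-(Real.log |T| / 1000)) ≤ ‖riemannZeta (σ + T * I)‖) ∧
    ∀ s ∈ closedBall ((1 / 2 + wd : ℝ) + T * I) (12 * wd),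
      ‖riemannZeta s‖ ≤ Real.exp (Real.log |T| / 1000) := by
  obtain ⟨L1, hL1⟩ := littlewood_a h
  have hw := wd_pos
  have hw1 : wd = 1 / 1000000 := rfl
  refine ⟨max 3 (Real.exp (max L1 1000)), le_max_left _ _, fun T hT => ?_⟩
  have hT3 : 3 ≤ |T| := (le_max_left _ _).trans hT
  have hTL : max L1 1000 ≤ Real.log |T| := by
    rw [Real.le_log_iff_exp_le (by linarith)]
    exact (le_max_right _ _).trans hT
  have ha := hL1 T hT3 ((le_max_left _ _).trans hTL)
  set L := Real.log |T| with hL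
  have hL0 : 1000 ≤ L := (le_max_right _ _).trans hTL
  refine ⟨hL0, fun σ h1 h2 => ?_, fun s hs => ?_⟩
  · refine le_trans (Real.exp_le_exp.2 (by linarith)) (ha _ ?_).1
    rw [mem_closedBall, dist_eq_norm,
      show (σ : ℂ) + T * I - (2 + T * I) = ((σ - 2 : ℝ) : ℂ) by push_cast; ring, norm_real,
      Real.norm_eq_abs, abs_le]
    constructor <;> linarith
  · have hs' : s ∈ closedBall (2 + T * I) (3 / 2 + 11 * wd) := by
      refine closedBall_subset_closedBall' ?_ hs
      rw [dist_eq_norm, show ((1 / 2 + wd : ℝ) : ℂ) + T * I - (2 + T * I)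
        = ((wd - 3 / 2 : ℝ) : ℂ) by push_cast; ring, norm_real, Real.norm_eq_abs,
        abs_of_neg (by linarith)]
      linarith
    have hdiff : DifferentiableOn ℂ riemannZeta (ball (2 + T * I) 2) := by
      simpa using differentiableOn_zeta hT3 2
    have key := three_circles (r1 := 3 / 2 - wd) (r2 := 3 / 2 + 11 * wd) (r3 := 7 / 4) (R := 2)
      (by linarith) (by linarith) (by linarith) (by linarith) (by norm_num) hdiff
      (fun z hz => (ha z hz).2) (fun z hz => zeta_poly hT3 hz) (Real.exp_pos _)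
      (Real.exp_le_exp.2 (by linarith)) hs'
    refine key.trans ?_
    set lam := (Real.log (3 / 2 + 11 * wd) - Real.log (3 / 2 - wd)) /
      (Real.log (7 / 4) - Real.log (3 / 2 - wd)) with hlam
    have h1 : Real.log (3 / 2 + 11 * wd) - Real.log (3 / 2 - wd) ≤ 12 * wd := by
      rw [← Real.log_div (by linarith) (by linarith)]
      refine (Real.log_le_sub_one_of_pos (div_pos (by linarith) (by linarith))).trans ?_
      rw [hw1]; norm_num
    have h2 : 1 / 7 ≤ Real.log (7 / 4) - Real.log (3 / 2 - wd) := by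
      have := Real.log_le_sub_one_of_pos (x := (3 / 2 - wd) / (7 / 4))
        (div_pos (by linarith) (by norm_num))
      rw [Real.log_div (by linarith) (by norm_num)] at this
      linarith
    have h3 : lam ≤ 84 * wd := by
      rw [hlam, div_le_iff₀ (by linarith)]
      nlinarith
    have h4 : 0 ≤ lam := by
      refine div_nonneg ?_ (by linarith)
      linarith [Real.log_le_log (x := 3 / 2 - wd) (y := 3 / 2 + 11 * wd) (by linarith) (by linarith)]
    rw [← Real.exp_sub, ← Real.exp_mul, ← Real.exp_add, Real.exp_le_exp]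
    rw [hw1] at h3
    nlinarith

end Pool.Agent.P.MP_323ce2_nt
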