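import Mathlib
import Pool.Agent.P.MP_323ce2_nt.Tools

open Complex Filter Topology Metric Set

namespace Pool.Agent.P.MP_323ce2_nt

lemma exp_interp {p q A B : ℝ} (hp : 0 ≤ p) (hq : 0 ≤ q) (hpq : p + q = 1) :
    Real.exp (p * A + q * B) ≤ p * Real.exp A + q * Real.exp B := by
  have := convexOn_exp.2 (mem_univ A) (mem_univ B) hp hq hpq
  simpa using this

lemma gap_small {g g1 g2 : ℝ → ℝ} {a b B : ℝ} (hab : a < b) (hB : 0 < B)
    (hc : ContinuousOn g (Icc a b))
    (hd1 : ∀ x ∈ Ioo a b, HasDerivAt g (g1 x) x) (hd2 : ∀ x ∈ Ioo a b, HasDerivAt g1 (g2 x) x)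
    (h2 : ∀ x ∈ Ioo a b, -B ≤ g2 x) {t : ℝ} (ht : t ∈ Icc a b) :
    Real.exp (g t) ≤ Real.exp (B * (b - a) ^ 2 / 4) *
      ((b - t) / (b - a) * Real.exp (g a) + (t - a) / (b - a) * Real.exp (g b)) := by
  have hl : 0 < b - a := sub_pos.2 hab
  have key := max_principle (a := a) (b := b)
    (h := fun x => g x - ((b - x) / (b - a) * g a + (x - a) / (b - a) * g b) + B * ((x - a) * (x - b)))
    (h1 := fun x => g1 x - (-1 / (b - a) * g a + 1 / (b - a) * g b) + B * ((x - b) + (x - a)))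
    (h2 := fun x => g2 x + B * 2) hab.le (by fun_prop) (fun x hx => by
      refine ((hd1 x hx).sub ?_).add ?_
      · exact ((((hasDerivAt_id x).const_sub b).div_const _).mul_const _).add
          ((((hasDerivAt_id x).sub_const a).div_const _).mul_const _)
      · have := (((hasDerivAt_id x).sub_const a).mul ((hasDerivAt_id x).sub_const b)).const_mul B
        exact this.congr_deriv (by simp))
    (fun x hx => by
      refine ((hd2 x hx).sub_const _).add ?_
      have := (((hasDerivAt_id x).sub_const b).add ((hasDerivAt_id x).sub_const a)).const_mul B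
      exact this.congr_deriv (by norm_num))
    (by field_simp; simp) (by field_simp; simp) (fun x hx _ => by linarith [h2 x hx]) t ht
  have h3 : (t - a) * (b - t) ≤ (b - a) ^ 2 / 4 := by nlinarith [sq_nonneg (t - a - (b - t))]
  have h4 : g t ≤ B * (b - a) ^ 2 / 4 + ((b - t) / (b - a) * g a + (t - a) / (b - a) * g b) := by
    have : B * ((t - a) * (b - t)) ≤ B * ((b - a) ^ 2 / 4) := by gcongr
    nlinarith
  calc Real.exp (g t) ≤ _ := Real.exp_le_exp.2 h4
    _ = Real.exp (B * (b - a) ^ 2 / 4) *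
        Real.exp ((b - t) / (b - a) * g a + (t - a) / (b - a) * g b) := Real.exp_add _ _
    _ ≤ _ := by
      gcongr
      exact exp_interp (div_nonneg (by linarith [ht.2]) hl.le)
        (div_nonneg (by linarith [ht.1]) hl.le) (by field_simp; ring)

lemma gap_large {g g1 g2 : ℝ → ℝ} {a b θ : ℝ} (hab : a < b)
    (hc : ContinuousOn g (Icc a b))
    (hd1 : ∀ x ∈ Ioo a b, HasDerivAt g (g1 x) x) (hd2 : ∀ x ∈ Ioo a b, HasDerivAt g1 (g2 x) x)
    (h2 : ∀ x ∈ Ioo a b, θ < g x → 0 < g2 x) {t : ℝ} (ht : t ∈ Icc a b) :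
    Real.exp (g t) ≤
      ((b - t) / (b - a) * Real.exp (g a) + (t - a) / (b - a) * Real.exp (g b)) + Real.exp θ := by
  have hl : 0 < b - a := sub_pos.2 hab
  set A := max (g a) θ with hA
  set B := max (g b) θ with hB
  have hθ : ∀ x ∈ Icc a b, θ ≤ (b - x) / (b - a) * A + (x - a) / (b - a) * B := by
    intro x hx
    have h1 : 0 ≤ (b - x) / (b - a) := div_nonneg (by linarith [hx.2]) hl.le
    have h2 : 0 ≤ (x - a) / (b - a) := div_nonneg (by linarith [hx.1]) hl.le
    have h3 : (b - x) / (b - a) + (x - a) / (b - a) = 1 := by field_simp; ring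
    have h4 : θ ≤ A := le_max_right _ _
    have h5 : θ ≤ B := le_max_right _ _
    calc θ = (b - x) / (b - a) * θ + (x - a) / (b - a) * θ := by rw [← add_mul, h3, one_mul]
      _ ≤ _ := by gcongr
  have key := max_principle (a := a) (b := b)
    (h := fun x => g x - ((b - x) / (b - a) * A + (x - a) / (b - a) * B))
    (h1 := fun x => g1 x - (-1 / (b - a) * A + 1 / (b - a) * B))
    (h2 := fun x => g2 x) hab.le (by fun_prop) (fun x hx => by
      refine ((hd1 x hx).sub ?_)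
      exact ((((hasDerivAt_id x).const_sub b).div_const _).mul_const _).add
          ((((hasDerivAt_id x).sub_const a).div_const _).mul_const _))
    (fun x hx => (hd2 x hx).sub_const _)
    (by
      have : g a ≤ A := le_max_left _ _
      simp [div_self hl.ne', this])
    (by
      have : g b ≤ B := le_max_left _ _
      simp [div_self hl.ne', this])
    (fun x hx h0 => h2 x hx (by linarith [hθ x (Ioo_subset_Icc_self hx)])) t ht
  have h1 : 0 ≤ (b - t) / (b - a) := div_nonneg (by linarith [ht.2]) hl.le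
  have h2 : 0 ≤ (t - a) / (b - a) := div_nonneg (by linarith [ht.1]) hl.le
  have h3 : (b - t) / (b - a) + (t - a) / (b - a) = 1 := by field_simp; ring
  have hmax : ∀ u : ℝ, Real.exp (max u θ) ≤ Real.exp u + Real.exp θ := by
    intro u
    rcases le_total u θ with h | h
    · rw [max_eq_right h]; linarith [Real.exp_pos u]
    · rw [max_eq_left h]; linarith [Real.exp_pos θ]
  calc Real.exp (g t) ≤ Real.exp ((b - t) / (b - a) * A + (t - a) / (b - a) * B) :=
        Real.exp_le_exp.2 (by linarith)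
    _ ≤ (b - t) / (b - a) * Real.exp A + (t - a) / (b - a) * Real.exp B := exp_interp h1 h2 h3
    _ ≤ (b - t) / (b - a) * (Real.exp (g a) + Real.exp θ)
        + (t - a) / (b - a) * (Real.exp (g b) + Real.exp θ) := by
        gcongr
        · exact hmax _
        · exact hmax _
    _ = ((b - t) / (b - a) * Real.exp (g a) + (t - a) / (b - a) * Real.exp (g b))
        + ((b - t) / (b - a) + (t - a) / (b - a)) * Real.exp θ := by ring
    _ = _ := by rw [h3, one_mul]

/-- Local factorisation data in normalised coordinates. -/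
structure Fac (f : ℂ → ℂ) (M : ℝ) (Γ : Finset ℝ) (H : ℝ) (φ : ℂ → ℂ) : Prop where
  Hpos : 0 < H
  Hlow : Real.exp (-M) ≤ H * 4 ^ Γ.card
  card : (2 : ℝ) ^ Γ.card ≤ Real.exp (2 * M)
  diff : DifferentiableOn ℂ φ (ball (-I) 4)
  val : ∀ w ∈ ball (-I) 4, ‖f w‖ = H * Real.exp (φ w).re * ∏ γ ∈ Γ, ‖w - γ‖
  der : ∀ γ ∈ Γ, (γ : ℂ) ∈ ball (-I) 4 →
    ‖deriv f γ‖ = H * Real.exp (φ γ).re * ∏ γ' ∈ Γ.erase γ, |γ - γ'|
  bd : ∀ w ∈ closedBall (-I) 3, ‖φ w‖ ≤ 12 * M

lemma exists_fac {f : ℂ → ℂ} {M : ℝ} (hM : 0 < M) {Γ : Finset ℝ}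
    (hf : DifferentiableOn ℂ f (ball (-I) 13))
    (hΓ : ∀ γ ∈ Γ, (γ : ℂ) ∈ closedBall (-I) 4 ∧ f γ = 0 ∧ deriv f γ ≠ 0)
    (hΓ' : ∀ w ∈ closedBall (-I) 4, f w = 0 → ∃ γ ∈ Γ, w = γ)
    (hlo : Real.exp (-M) ≤ ‖f (-I)‖) (hup : ∀ w ∈ closedBall (-I) 12, ‖f w‖ ≤ Real.exp M) :
    ∃ H φ, Fac f M Γ H φ := by
  classical
  obtain ⟨h, hh, hfh⟩ := exists_factor (U := ball (-I) 13) isOpen_ball
    (Γ.map ⟨((↑) : ℝ → ℂ), ofReal_injective⟩) hf (by
      intro ρ hρ
      obtain ⟨γ, hγ, rfl⟩ := Finset.mem_map.1 hρ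
      exact ⟨closedBall_subset_ball (by norm_num) (hΓ γ hγ).1, (hΓ γ hγ).2.1⟩)
  simp only [Finset.prod_map, Function.Embedding.coeFn_mk] at hfh
  have hder : ∀ γ ∈ Γ, deriv f γ = h γ * ∏ γ' ∈ Γ.erase γ, ((γ : ℂ) - γ') := by
    intro γ hγ
    have e : f = fun s => (s - γ) * (h s * ∏ γ' ∈ Γ.erase γ, (s - γ')) := by
      ext s
      rw [hfh s, ← Finset.mul_prod_erase Γ _ hγ]; ring
    have hγb : (γ : ℂ) ∈ ball (-I) 13 := closedBall_subset_ball (by norm_num) (hΓ γ hγ).1
    have h1 : DifferentiableAt ℂ (fun s => h s * ∏ γ' ∈ Γ.erase γ, (s - (γ' : ℂ))) γ :=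
      (hh.differentiableAt (isOpen_ball.mem_nhds hγb)).mul (by fun_prop)
    have h2 := ((hasDerivAt_id (γ : ℂ)).sub_const (γ : ℂ)).mul h1.hasDerivAt
    rw [e]
    have h3 := h2.deriv
    simp only [id, sub_self, zero_mul, add_zero, one_mul] at h3
    exact h3
  have hne : ∀ w ∈ ball (-I) 4, h w ≠ 0 := by
    intro w hw h0
    obtain ⟨γ, hγ, rfl⟩ := hΓ' w (ball_subset_closedBall hw) (by rw [hfh, h0, zero_mul])
    exact (hΓ γ hγ).2.2 (by rw [hder γ hγ, h0, zero_mul])
  have hH : 0 < ‖h (-I)‖ := norm_pos_iff.2 (hne _ (mem_ball_self (by norm_num)))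
  have hlow : Real.exp (-M) ≤ ‖h (-I)‖ * 4 ^ Γ.card := by
    refine hlo.trans ?_
    rw [hfh, norm_mul, norm_prod]
    gcongr
    rw [← Finset.prod_const]
    refine Finset.prod_le_prod (fun _ _ => norm_nonneg _) fun γ hγ => ?_
    have := (hΓ γ hγ).1
    rwa [mem_closedBall, dist_comm, dist_eq_norm] at this
  have hupp : ∀ w ∈ closedBall (-I) 12, ‖h w‖ ≤ Real.exp M / 8 ^ Γ.card := by
    intro w hw
    refine norm_le_of_forall_mem_frontier_norm_le (U := ball (-I) 12) isBounded_ball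
      ((hh.mono (closedBall_subset_ball (by norm_num))).diffContOnCl_ball le_rfl) ?_
      (by rwa [closure_ball _ (by norm_num)])
    intro z hz
    rw [frontier_ball _ (by norm_num)] at hz
    have h1 := hup z (sphere_subset_closedBall hz)
    rw [hfh, norm_mul, norm_prod] at h1
    have h2 : (8 : ℝ) ^ Γ.card ≤ ∏ γ ∈ Γ, ‖z - γ‖ := by
      rw [← Finset.prod_const]
      refine Finset.prod_le_prod (fun _ _ => by norm_num) fun γ hγ => ?_
      have h3 := (hΓ γ hγ).1
      rw [mem_closedBall, dist_eq_norm] at h3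
      rw [mem_sphere, dist_eq_norm] at hz
      have := norm_sub_norm_le (z - -I) (γ - -I)
      rw [show z - -I - (γ - -I) = z - γ by ring] at this
      linarith
    rw [le_div_iff₀ (by positivity)]
    exact le_trans (by gcongr) h1
  have hcard : (2 : ℝ) ^ Γ.card ≤ Real.exp (2 * M) := by
    have h1 := hupp (-I) (mem_closedBall_self (by norm_num))
    have h2 : Real.exp (-M) ≤ Real.exp M / 8 ^ Γ.card * 4 ^ Γ.card := hlow.trans (by gcongr)
    have h3 : (8 : ℝ) ^ Γ.card = 2 ^ Γ.card * 4 ^ Γ.card := by rw [← mul_pow]; norm_num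
    rw [h3] at h2
    have h4 : Real.exp M / (2 ^ Γ.card * 4 ^ Γ.card) * 4 ^ Γ.card = Real.exp M / 2 ^ Γ.card := by
      field_simp
    rw [h4, le_div_iff₀ (by positivity)] at h2
    have h5 : Real.exp (2 * M) = Real.exp M * Real.exp M := by rw [← Real.exp_add]; ring_nf
    have h6 : Real.exp M * Real.exp (-M) = 1 := by rw [← Real.exp_add]; simp
    calc (2 : ℝ) ^ Γ.card = Real.exp M * (Real.exp (-M) * 2 ^ Γ.card) := by
          rw [← mul_assoc, h6, one_mul]
      _ ≤ Real.exp M * Real.exp M := by gcongr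
      _ = _ := h5.symm
  obtain ⟨φ, hφ, hφ0, hφe⟩ := exists_log (c := -I) (r := 4) (by norm_num)
    (hh.mono (ball_subset_ball (by norm_num))) hne
  have hnorm : ∀ w ∈ ball (-I) 4, ‖h w‖ = ‖h (-I)‖ * Real.exp (φ w).re := by
    intro w hw; rw [hφe w hw, norm_mul, norm_exp]
  refine ⟨‖h (-I)‖, φ, hH, hlow, hcard, hφ, ?_, ?_, ?_⟩
  · intro w hw
    rw [hfh, norm_mul, norm_prod, hnorm w hw]
  · intro γ hγ hγb
    rw [hder γ hγ, norm_mul, norm_prod, hnorm _ hγb]
    congr 1
    refine Finset.prod_congr rfl fun γ' _ => ?_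
    rw [← ofReal_sub, norm_real, Real.norm_eq_abs]
  · intro w hw
    have := bc (M := 2 * M) (R := 4) (r := 3) (by positivity) (by norm_num) (by norm_num) hφ hφ0
      (fun z hz => ?_) hw
    · linarith
    have h1 := hupp z (ball_subset_closedBall (ball_subset_ball (by norm_num) hz))
    rw [hnorm z hz, le_div_iff₀ (by positivity)] at h1
    have h2 : (4 : ℝ) ^ Γ.card ≤ 8 ^ Γ.card := by gcongr; norm_num
    have h3 : Real.exp (-M) * Real.exp (φ z).re ≤ Real.exp M := by
      calc _ ≤ ‖h (-I)‖ * 4 ^ Γ.card * Real.exp (φ z).re := by gcongr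
        _ ≤ ‖h (-I)‖ * 8 ^ Γ.card * Real.exp (φ z).re := by gcongr
        _ = _ := by ring
        _ ≤ _ := h1
    rw [← Real.exp_add, Real.exp_le_exp] at h3
    linarith

end Pool.Agent.P.MP_323ce2_nt
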