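import Mathlib
import Pool.Agent.P.MP_323ce2_nt.Gap

open Complex Filter Topology Metric Set

namespace Pool.Agent.P.MP_323ce2_nt

variable {f : ℂ → ℂ} {M : ℝ} {Γ : Finset ℝ} {H : ℝ} {φ : ℂ → ℂ}

lemma Fac.d1 (F : Fac f M Γ H φ) {w : ℂ} (hw : w ∈ closedBall (-I) 2) :
    ‖deriv φ w‖ ≤ 12 * M := by
  have hsub : closedBall w 1 ⊆ closedBall (-I) 3 :=
    closedBall_subset_closedBall' (by rw [mem_closedBall] at hw; linarith)
  have := norm_deriv_le_of_forall_mem_sphere_norm_le (c := w) (R := 1) (C := 12 * M) one_pos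
    ((F.diff.mono (hsub.trans (closedBall_subset_ball (by norm_num)))).diffContOnCl_ball le_rfl)
    (fun z hz => F.bd z (hsub (sphere_subset_closedBall hz)))
  simpa using this

lemma Fac.d2 (F : Fac f M Γ H φ) {w : ℂ} (hw : w ∈ closedBall (-I) (3 / 2)) :
    ‖deriv (deriv φ) w‖ ≤ 24 * M := by
  have hsub : closedBall w (1 / 2) ⊆ closedBall (-I) 2 :=
    closedBall_subset_closedBall' (by rw [mem_closedBall] at hw; linarith)
  have := norm_deriv_le_of_forall_mem_sphere_norm_le (c := w) (R := 1 / 2) (C := 12 * M)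
    (by norm_num)
    (((F.diff.deriv isOpen_ball).mono
      (hsub.trans (closedBall_subset_ball (by norm_num)))).diffContOnCl_ball le_rfl)
    (fun z hz => F.d1 (hsub (sphere_subset_closedBall hz)))
  linarith

lemma Fac.lower (F : Fac f M Γ H φ) {w : ℂ} (hw : w ∈ closedBall (-I) 3) :
    Real.exp (-13 * M) * ∏ γ ∈ Γ, ‖w - γ‖ ≤ ‖f w‖ * 4 ^ Γ.card := by
  rw [F.val w (closedBall_subset_ball (by norm_num) hw)]
  have h1 : -(12 * M) ≤ (φ w).re := by
    have := F.bd w hw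
    have := abs_re_le_norm (φ w)
    have := neg_abs_le (φ w).re
    linarith
  have h2 : Real.exp (-13 * M) ≤ H * 4 ^ Γ.card * Real.exp (φ w).re := by
    calc Real.exp (-13 * M) = Real.exp (-M) * Real.exp (-(12 * M)) := by
          rw [← Real.exp_add]; ring_nf
      _ ≤ _ := by
          gcongr
          · have := F.Hpos; positivity
          · exact F.Hlow
  have h3 : 0 ≤ ∏ γ ∈ Γ, ‖w - γ‖ := Finset.prod_nonneg fun _ _ => norm_nonneg _
  calc _ ≤ H * 4 ^ Γ.card * Real.exp (φ w).re * ∏ γ ∈ Γ, ‖w - γ‖ := by gcongr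
    _ = _ := by ring

lemma mem_cb {x y : ℝ} (hx : |x| ≤ 1) (hy0 : 0 ≤ y) (hy1 : y ≤ 1) :
    (x : ℂ) - y * I ∈ closedBall (-I) (3 / 2) := by
  rw [mem_closedBall, dist_eq_norm]
  have e : (x : ℂ) - y * I - -I = x + (1 - y : ℝ) * I := by push_cast; ring
  rw [e, norm_add_mul_I]
  refine Real.sqrt_le_iff.2 ⟨by norm_num, ?_⟩
  have := abs_le.1 hx
  nlinarith

lemma Fac.good (F : Fac f M Γ H φ) {a : ℝ} (ha : -1 ≤ a) (ha' : a ≤ 3 / 4) :
    ∃ x ∈ Icc a (a + 1 / 4), ∀ y : ℝ, 0 ≤ y → y ≤ 1 → Real.exp (-25 * M) ≤ ‖f (x - y * I)‖ := by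
  obtain ⟨x, hx, hxp⟩ := exists_good_point Γ id a (l := 1 / 4) (by norm_num)
  refine ⟨x, hx, fun y hy0 hy1 => ?_⟩
  have hx1 : |x| ≤ 1 := abs_le.2 ⟨by linarith [hx.1], by linarith [hx.2]⟩
  have h1 := F.lower (closedBall_subset_closedBall (by norm_num) (mem_cb hx1 hy0 hy1))
  have h2 : ∏ γ ∈ Γ, |x - id γ| ≤ ∏ γ ∈ Γ, ‖(x : ℂ) - y * I - γ‖ := by
    refine Finset.prod_le_prod (fun _ _ => abs_nonneg _) fun γ _ => ?_
    have := abs_re_le_norm ((x : ℂ) - y * I - γ)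
    simpa using this
  have h3 : Real.exp (-13 * M) * (1 / 4 / 4) ^ Γ.card ≤ ‖f (x - y * I)‖ * 4 ^ Γ.card :=
    le_trans (by gcongr; exact hxp.trans h2) h1
  have h4 : ((2 : ℝ) ^ Γ.card) ^ 6 ≤ Real.exp (12 * M) := by
    calc _ ≤ Real.exp (2 * M) ^ 6 := by gcongr; exact F.card
      _ = _ := by rw [← Real.exp_nat_mul]; congr 1; push_cast; ring
  have h5 : (1 / 4 / 4 : ℝ) ^ Γ.card * ((2 : ℝ) ^ Γ.card) ^ 6 = 4 ^ Γ.card := by
    rw [← pow_mul, mul_comm Γ.card 6, pow_mul, ← mul_pow]; norm_num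
  have h6 : (0 : ℝ) < 4 ^ Γ.card := by positivity
  refine le_of_mul_le_mul_right ?_ h6
  refine le_trans ?_ h3
  calc Real.exp (-25 * M) * 4 ^ Γ.card
      = Real.exp (-25 * M) * ((2 : ℝ) ^ Γ.card) ^ 6 * (1 / 4 / 4 : ℝ) ^ Γ.card := by
        rw [← h5]; ring
    _ ≤ Real.exp (-25 * M) * Real.exp (12 * M) * (1 / 4 / 4 : ℝ) ^ Γ.card := by gcongr
    _ = _ := by rw [← Real.exp_add]; ring_nf

lemma Fac.card_le (F : Fac f M Γ H φ) : (Γ.card : ℝ) ≤ 3 * M := by
  have h1 := Real.log_le_log (by positivity) F.card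
  rw [Real.log_pow, Real.log_exp] at h1
  have h2 := Real.log_two_gt_d9
  have h3 : (0 : ℝ) ≤ Γ.card := Nat.cast_nonneg _
  nlinarith

lemma prod_split (Γ : Finset ℝ) {a b : ℝ} (hab : a ≠ b) (G : ℝ → ℝ) :
    ∏ γ ∈ Γ, G γ = (∏ γ ∈ (Γ.erase a).erase b, G γ) * (if a ∈ Γ then G a else 1) *
      (if b ∈ Γ then G b else 1) := by
  have h1 : ∀ (S : Finset ℝ) (c : ℝ),
      ∏ γ ∈ S, G γ = (∏ γ ∈ S.erase c, G γ) * (if c ∈ S then G c else 1) := by
    intro S c
    split_ifs with h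
    · exact (Finset.prod_erase_mul _ _ h).symm
    · rw [Finset.erase_eq_of_notMem h, mul_one]
  rw [h1 Γ a, h1 (Γ.erase a) b]
  have : (b ∈ Γ.erase a) ↔ b ∈ Γ := by simp [hab.symm]
  simp only [this]
  ring

lemma Fac.exists_ab (F : Fac f M Γ H φ) : ∃ a b : ℝ, -1 ≤ a ∧ a ≤ 0 ∧ 0 < b ∧ b ≤ 1 ∧
    (a ∈ Γ ∨ Real.exp (-25 * M) ≤ ‖f a‖) ∧ (b ∈ Γ ∨ Real.exp (-25 * M) ≤ ‖f b‖) ∧
    ∀ γ ∈ Γ, γ ≤ a ∨ b ≤ γ := by
  classical
  obtain ⟨a0, ha0, ha0'⟩ := F.good (a := -1) le_rfl (by norm_num)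
  obtain ⟨b0, hb0, hb0'⟩ := F.good (a := 3 / 4) (by norm_num) le_rfl
  have ha1 := ha0' 0 le_rfl zero_le_one
  have hb1 := hb0' 0 le_rfl zero_le_one
  simp only [ofReal_zero, zero_mul, sub_zero] at ha1 hb1
  set A := insert a0 (Γ.filter fun γ => a0 ≤ γ ∧ γ ≤ 0) with hA
  set B := insert b0 (Γ.filter fun γ => 0 < γ ∧ γ ≤ b0) with hB
  have hAne : A.Nonempty := Finset.insert_nonempty _ _
  have hBne : B.Nonempty := Finset.insert_nonempty _ _
  have hAm := A.max'_mem hAne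
  have hBm := B.min'_mem hBne
  have hA0 : a0 ≤ A.max' hAne := A.le_max' _ (Finset.mem_insert_self _ _)
  have hB0 : B.min' hBne ≤ b0 := B.min'_le _ (Finset.mem_insert_self _ _)
  refine ⟨A.max' hAne, B.min' hBne, by linarith [ha0.1], ?_, ?_, by linarith [hb0.2], ?_, ?_, ?_⟩
  · rcases Finset.mem_insert.1 hAm with h | h
    · rw [h]; linarith [ha0.2]
    · exact (Finset.mem_filter.1 h).2.2
  · rcases Finset.mem_insert.1 hBm with h | h
    · rw [h]; linarith [hb0.1]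
    · exact (Finset.mem_filter.1 h).2.1
  · rcases Finset.mem_insert.1 hAm with h | h
    · right; rw [h]; exact ha1
    · left; exact (Finset.mem_filter.1 h).1
  · rcases Finset.mem_insert.1 hBm with h | h
    · right; rw [h]; exact hb1
    · left; exact (Finset.mem_filter.1 h).1
  · intro γ hγ
    rcases le_or_gt γ 0 with h | h
    · left
      rcases le_total a0 γ with h' | h'
      · exact A.le_max' _ (Finset.mem_insert_of_mem (Finset.mem_filter.2 ⟨hγ, h', h⟩))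
      · linarith
    · right
      rcases le_total γ b0 with h' | h'
      · exact B.min'_le _ (Finset.mem_insert_of_mem (Finset.mem_filter.2 ⟨hγ, h, h'⟩))
      · linarith

/-- The function whose convexity is used. -/
noncomputable def gf (H : ℝ) (φ : ℂ → ℂ) (S : Finset ℝ) (x : ℝ) : ℝ :=
  -Real.log H - (φ x).re - ∑ γ ∈ S, Real.log (x - γ)

lemma exp_gf {H : ℝ} (hH : 0 < H) (φ : ℂ → ℂ) {S : Finset ℝ} {x : ℝ} (hx : ∀ γ ∈ S, x ≠ γ) :
    Real.exp (gf H φ S x) = (H * Real.exp (φ x).re * ∏ γ ∈ S, |x - γ|)⁻¹ := by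
  rw [gf, Real.exp_sub, Real.exp_sub, Real.exp_neg, Real.exp_log hH, Real.exp_sum]
  have : ∏ γ ∈ S, Real.exp (Real.log (x - γ)) = ∏ γ ∈ S, |x - γ| :=
    Finset.prod_congr rfl fun γ hγ => Real.exp_log_eq_abs (sub_ne_zero.2 (hx γ hγ))
  rw [this]
  field_simp

lemma mem_cb' {x : ℝ} (hx : |x| ≤ 1) : (x : ℂ) ∈ closedBall (-I) (3 / 2) := by
  simpa using mem_cb hx le_rfl zero_le_one

lemma Fac.gap (F : Fac f M Γ H φ) (hM : 1 ≤ M) {a b : ℝ} (ha : -1 ≤ a) (ha0 : a ≤ 0)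
    (hb0 : 0 < b) (hb : b ≤ 1) (hΓ : ∀ γ ∈ Γ, γ ≤ a ∨ b ≤ γ) :
    Real.exp (gf H φ ((Γ.erase a).erase b) 0) ≤ Real.exp (6 * M * (b - a) ^ 2) *
      (b / (b - a) * Real.exp (gf H φ ((Γ.erase a).erase b) a)
        + -a / (b - a) * Real.exp (gf H φ ((Γ.erase a).erase b) b)) ∧
    Real.exp (gf H φ ((Γ.erase a).erase b) 0) ≤
      (b / (b - a) * Real.exp (gf H φ ((Γ.erase a).erase b) a)
        + -a / (b - a) * Real.exp (gf H φ ((Γ.erase a).erase b) b)) + Real.exp (208 * M) := by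
  set S := (Γ.erase a).erase b with hS
  have hab : a < b := by linarith
  have hne : ∀ x ∈ Icc a b, ∀ γ ∈ S, x - γ ≠ 0 := by
    intro x hx γ hγ
    simp only [hS, Finset.mem_erase] at hγ
    rcases hΓ γ hγ.2.2 with h | h
    · have : γ < a := lt_of_le_of_ne h hγ.2.1
      linarith [hx.1]
    · have : b < γ := lt_of_le_of_ne h (Ne.symm hγ.1)
      linarith [hx.2]
  have hx1 : ∀ x ∈ Icc a b, |x| ≤ 1 := fun x hx =>
    abs_le.2 ⟨by linarith [hx.1], by linarith [hx.2]⟩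
  have hball : ∀ x ∈ Icc a b, ball (-I) 4 ∈ 𝓝 (x : ℂ) := fun x hx =>
    isOpen_ball.mem_nhds (closedBall_subset_ball (by norm_num) (mem_cb' (hx1 x hx)))
  have hd1 : ∀ x ∈ Icc a b, HasDerivAt (gf H φ S)
      (-(deriv φ x).re - ∑ γ ∈ S, (x - γ)⁻¹) x := by
    intro x hx
    have h1 := (F.diff.differentiableAt (hball x hx)).hasDerivAt.real_of_complex
    have h2 : HasDerivAt (fun x => ∑ γ ∈ S, Real.log (x - γ)) (∑ γ ∈ S, (x - γ)⁻¹) x := by
      refine HasDerivAt.fun_sum fun γ hγ => ?_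
      have := ((hasDerivAt_id x).sub_const γ).log (hne x hx γ hγ)
      exact this.congr_deriv (by simp)
    exact ((h1.const_sub (-Real.log H)).sub h2)
  have hd2 : ∀ x ∈ Icc a b, HasDerivAt (fun x : ℝ => -(deriv φ x).re - ∑ γ ∈ S, (x - γ)⁻¹)
      (-(deriv (deriv φ) x).re + ∑ γ ∈ S, ((x - γ) ^ 2)⁻¹) x := by
    intro x hx
    have h1 := ((F.diff.deriv isOpen_ball).differentiableAt (hball x hx)).hasDerivAt.real_of_complex
    have h2 : HasDerivAt (fun x => ∑ γ ∈ S, (x - γ)⁻¹) (∑ γ ∈ S, -((x - γ) ^ 2)⁻¹) x := by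
      refine HasDerivAt.fun_sum fun γ hγ => ?_
      have := ((hasDerivAt_id x).sub_const γ).inv (hne x hx γ hγ)
      exact this.congr_deriv (by simp [neg_div])
    refine (h1.neg.sub h2).congr_deriv ?_
    simp [Finset.sum_neg_distrib]
  have hc : ContinuousOn (gf H φ S) (Icc a b) := fun x hx =>
    (hd1 x hx).continuousAt.continuousWithinAt
  have hv2 : ∀ x ∈ Icc a b, (deriv (deriv φ) x).re ≤ 24 * M := fun x hx =>
    (re_le_norm _).trans (F.d2 (mem_cb' (hx1 x hx)))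
  have hs0 : ∀ x : ℝ, 0 ≤ ∑ γ ∈ S, ((x - γ) ^ 2)⁻¹ := fun x =>
    Finset.sum_nonneg fun _ _ => by positivity
  constructor
  · have := gap_small (B := 24 * M) hab (by linarith) hc
      (fun x hx => hd1 x (Ioo_subset_Icc_self hx)) (fun x hx => hd2 x (Ioo_subset_Icc_self hx))
      (fun x hx => by linarith [hv2 x (Ioo_subset_Icc_self hx), hs0 x]) (t := 0) ⟨ha0, hb0.le⟩
    simp only [sub_zero, zero_sub] at this
    convert this using 3
    ring
  · have := gap_large (θ := 208 * M) hab hc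
      (fun x hx => hd1 x (Ioo_subset_Icc_self hx)) (fun x hx => hd2 x (Ioo_subset_Icc_self hx))
      (fun x hx hθ => ?_) (t := 0) ⟨ha0, hb0.le⟩
    · simpa only [sub_zero, zero_sub] using this
    have hx' := Ioo_subset_Icc_self hx
    by_contra hcon
    push Not at hcon
    have h1 : ∑ γ ∈ S, ((x - γ) ^ 2)⁻¹ ≤ 24 * M := by linarith [hv2 x hx']
    have h2 : -Real.log H ≤ M + Γ.card * Real.log 4 := by
      have := Real.log_le_log (Real.exp_pos _) F.Hlow
      rw [Real.log_exp, Real.log_mul F.Hpos.ne' (by positivity), Real.log_pow] at this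
      linarith
    have h3 : -(φ x).re ≤ 12 * M := by
      have := F.bd x (closedBall_subset_closedBall (by norm_num) (mem_cb' (hx1 x hx')))
      have := abs_re_le_norm (φ x)
      have := neg_abs_le (φ x).re
      linarith
    have h4 : (Γ.card : ℝ) ≤ S.card + 2 := by
      have e1 := Finset.pred_card_le_card_erase (s := Γ) (a := a)
      have e2 := Finset.pred_card_le_card_erase (s := Γ.erase a) (a := b)
      have : Γ.card ≤ S.card + 2 := by rw [hS]; omega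
      exact_mod_cast this
    have h5 : ∑ γ ∈ S, (Real.log 4 - Real.log (x - γ)) ≤ ∑ γ ∈ S, 8 * ((x - γ) ^ 2)⁻¹ := by
      refine Finset.sum_le_sum fun γ hγ => ?_
      have h0 := hne x hx' γ hγ
      have hp : 0 < 16 * ((x - γ) ^ 2)⁻¹ := by positivity
      have := Real.log_le_sub_one_of_pos hp
      rw [Real.log_mul (by norm_num) (by positivity), Real.log_inv, Real.log_pow,
        show (16 : ℝ) = 4 ^ 2 by norm_num, Real.log_pow] at this
      push_cast at this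
      linarith
    rw [Finset.sum_sub_distrib, Finset.sum_const, nsmul_eq_mul, ← Finset.mul_sum] at h5
    have h6 : Real.log 4 ≤ 3 / 2 := by
      rw [show (4 : ℝ) = 2 ^ 2 by norm_num, Real.log_pow]
      have := Real.log_two_lt_d9
      push_cast; linarith
    have h7 : 0 ≤ Real.log 4 := Real.log_nonneg (by norm_num)
    have h8 : (Γ.card : ℝ) * Real.log 4 ≤ (S.card + 2) * Real.log 4 := by gcongr
    unfold gf at hθ
    nlinarith

end Pool.Agent.P.MP_323ce2_nt
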