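import Mathlib
import Pool.Agent.P.MP_323ce2_nt.Local

open Complex Filter Topology Metric Set

namespace Pool.Agent.P.MP_323ce2_nt

variable {f : ℂ → ℂ} {M : ℝ} {Γ : Finset ℝ} {H : ℝ} {φ : ℂ → ℂ}

/-- The elementary inequality that combines the four cases. -/
lemma combine {a b M E Ea Eb X da db αa αb : ℝ} {pa pb : Prop} [Decidable pa] [Decidable pb]
    (hM : 1 ≤ M) (ha : -1 ≤ a) (ha0 : a ≤ 0) (hb0 : 0 < b) (hb : b ≤ 1)
    (hda : -a ≤ da) (hdb : b ≤ db) (hda0 : 0 < da) (hαa : 0 ≤ αa) (hαb : 0 ≤ αb)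
    (hE : 0 ≤ E)
    (h1 : E ≤ Real.exp (6 * M * (b - a) ^ 2) * (b / (b - a) * Ea + -a / (b - a) * Eb))
    (h2 : E ≤ (b / (b - a) * Ea + -a / (b - a) * Eb) + Real.exp (208 * M))
    (hEa : Ea ≤ (if pa then αa else Real.exp (25 * M)) * (if pb then b - a else 1))
    (hEb : Eb ≤ (if pb then αb else Real.exp (25 * M)) * (if pa then b - a else 1))
    (hX : X ≤ Real.exp 12 * E / ((if pa then da else 1) * (if pb then db else 1))) :
    X ≤ Real.exp 18 * ((if pa then (αa + Real.exp (210 * M)) / da else 0)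
      + (if pb then (αb + Real.exp (210 * M)) / db else 0) + Real.exp (210 * M)) := by
  have hl : 0 < b - a := by linarith
  have hdb0 : 0 < db := by linarith
  have hp : 0 ≤ b / (b - a) := by positivity
  have hq : 0 ≤ -a / (b - a) := div_nonneg (by linarith) hl.le
  have hp1 : b / (b - a) ≤ 1 := (div_le_one hl).2 (by linarith)
  have hq1 : -a / (b - a) ≤ 1 := (div_le_one hl).2 (by linarith)
  have hpq : b / (b - a) + -a / (b - a) = 1 := by field_simp; ring
  set Θ := Real.exp (210 * M) with hΘ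
  have hΘ0 : 0 < Θ := Real.exp_pos _
  have e25 : Real.exp (25 * M) ≤ Real.exp (208 * M) := Real.exp_le_exp.2 (by linarith)
  have e208 : 3 * Real.exp (208 * M) ≤ Θ := by
    have : (3 : ℝ) ≤ Real.exp (2 * M) := by linarith [Real.add_one_le_exp (2 * M)]
    calc _ ≤ Real.exp (2 * M) * Real.exp (208 * M) := by gcongr
      _ = Θ := by rw [← Real.exp_add, hΘ]; ring_nf
  have e0 : 0 < Real.exp (25 * M) := Real.exp_pos _
  have e1218 : Real.exp 12 ≤ Real.exp 18 := Real.exp_le_exp.2 (by norm_num)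
  have e12 : 0 < Real.exp 12 := Real.exp_pos _
  by_cases hpa : pa <;> by_cases hpb : pb <;>
    simp only [hpa, hpb, if_true, if_false, mul_one, one_mul, div_one, add_zero, zero_add]
      at hEa hEb hX ⊢
  · -- both are zeros
    have hlin : b / (b - a) * Ea + -a / (b - a) * Eb ≤ db * αa + da * αb := by
      calc _ ≤ b / (b - a) * (αa * (b - a)) + -a / (b - a) * (αb * (b - a)) := by gcongr
        _ = b * αa + -a * αb := by field_simp
        _ ≤ _ := by gcongr
    have hsum : (db * αa + da * αb) / (da * db) = αa / da + αb / db := by field_simp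
    by_cases hs : M * (b - a) ^ 2 ≤ 1
    · have h3 : Real.exp (6 * M * (b - a) ^ 2) ≤ Real.exp 6 := Real.exp_le_exp.2 (by linarith)
      have h4 : E ≤ Real.exp 6 * (db * αa + da * αb) := by
        refine h1.trans ((mul_le_mul_of_nonneg_left hlin (Real.exp_pos _).le).trans ?_)
        gcongr
      calc X ≤ Real.exp 12 * E / (da * db) := hX
        _ ≤ Real.exp 12 * (Real.exp 6 * (db * αa + da * αb)) / (da * db) := by gcongr
        _ = Real.exp 18 * (αa / da + αb / db) := by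
            rw [← hsum, ← mul_assoc, ← Real.exp_add]; norm_num; ring
        _ ≤ _ := by
            have : αa / da ≤ (αa + Θ) / da := by gcongr; linarith
            have : αb / db ≤ (αb + Θ) / db := by gcongr; linarith
            exact mul_le_mul_of_nonneg_left (by linarith) (Real.exp_pos _).le
    · push Not at hs
      have h3 : 1 ≤ M * (b - a) := by
        by_contra h
        push Not at h
        have h5 : b - a < 1 := by nlinarith
        nlinarith
      have h4 : Real.exp (208 * M) ≤ Θ * (da + db) := by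
        have h5 : M ≤ Real.exp (2 * M) := by linarith [Real.add_one_le_exp (2 * M)]
        calc Real.exp (208 * M) ≤ Real.exp (208 * M) * (M * (b - a)) :=
              le_mul_of_one_le_right (Real.exp_pos _).le h3
          _ ≤ Real.exp (208 * M) * (Real.exp (2 * M) * (da + db)) := by
              gcongr; linarith
          _ = _ := by rw [← mul_assoc, ← Real.exp_add, hΘ]; ring_nf
      calc X ≤ Real.exp 12 * E / (da * db) := hX
        _ ≤ Real.exp 18 * ((db * αa + da * αb) + Θ * (da + db)) / (da * db) := by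
            gcongr; linarith
        _ = Real.exp 18 * ((αa + Θ) / da + (αb + Θ) / db) := by field_simp; ring
        _ ≤ _ := mul_le_mul_of_nonneg_left (by linarith) (Real.exp_pos _).le
  · have hlin : b / (b - a) * Ea + -a / (b - a) * Eb ≤ αa + Real.exp (25 * M) := by
      calc _ ≤ b / (b - a) * αa + -a / (b - a) * (Real.exp (25 * M) * (b - a)) := by gcongr
        _ = b / (b - a) * αa + -a * Real.exp (25 * M) := by field_simp
        _ ≤ 1 * αa + 1 * Real.exp (25 * M) := by gcongr; linarith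
        _ = _ := by ring
    calc X ≤ Real.exp 12 * E / da := hX
      _ ≤ Real.exp 18 * (αa + Θ) / da := by gcongr; linarith
      _ = Real.exp 18 * ((αa + Θ) / da) := by ring
      _ ≤ _ := by gcongr; linarith
  · have hlin : b / (b - a) * Ea + -a / (b - a) * Eb ≤ αb + Real.exp (25 * M) := by
      calc _ ≤ b / (b - a) * (Real.exp (25 * M) * (b - a)) + -a / (b - a) * αb := by gcongr
        _ = b * Real.exp (25 * M) + -a / (b - a) * αb := by field_simp
        _ ≤ 1 * Real.exp (25 * M) + 1 * αb := by gcongr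
        _ = _ := by ring
    calc X ≤ Real.exp 12 * E / db := hX
      _ ≤ Real.exp 18 * (αb + Θ) / db := by gcongr; linarith
      _ = Real.exp 18 * ((αb + Θ) / db) := by ring
      _ ≤ _ := by gcongr; linarith
  · have hlin : b / (b - a) * Ea + -a / (b - a) * Eb ≤ Real.exp (25 * M) := by
      calc _ ≤ b / (b - a) * Real.exp (25 * M) + -a / (b - a) * Real.exp (25 * M) := by gcongr
        _ = _ := by rw [← add_mul, hpq, one_mul]
    calc X ≤ Real.exp 12 * E := hX
      _ ≤ _ := by gcongr; linarith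

lemma Fac.endpoint (F : Fac f M Γ H φ) {a b : ℝ} (hab : a ≠ b) (ha : |a| ≤ 1)
    (hne : ∀ γ ∈ (Γ.erase a).erase b, a ≠ γ)
    (hg : a ∈ Γ ∨ Real.exp (-25 * M) ≤ ‖f a‖) :
    Real.exp (gf H φ ((Γ.erase a).erase b) a) ≤
      (if a ∈ Γ then ‖deriv f a‖⁻¹ else Real.exp (25 * M)) * (if b ∈ Γ then |a - b| else 1) := by
  have hball : (a : ℂ) ∈ ball (-I) 4 := closedBall_subset_ball (by norm_num) (mem_cb' ha)
  rw [exp_gf F.Hpos φ hne]
  have hP : 0 < H * Real.exp (φ a).re * ∏ γ ∈ (Γ.erase a).erase b, |a - γ| := by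
    have := F.Hpos
    have : 0 < ∏ γ ∈ (Γ.erase a).erase b, |a - γ| :=
      Finset.prod_pos fun γ hγ => abs_pos.2 (sub_ne_zero.2 (hne γ hγ))
    positivity
  have hq : 0 < (if b ∈ Γ then |a - b| else 1) := by
    split_ifs
    · exact abs_pos.2 (sub_ne_zero.2 hab)
    · exact one_pos
  have hsplit : ∏ γ ∈ Γ.erase a, |a - γ| =
      (∏ γ ∈ (Γ.erase a).erase b, |a - γ|) * (if b ∈ Γ then |a - b| else 1) := by
    split_ifs with h
    · exact (Finset.prod_erase_mul _ _ (Finset.mem_erase.2 ⟨hab.symm, h⟩)).symm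
    · rw [Finset.erase_eq_of_notMem (fun h' => h (Finset.mem_of_mem_erase h')), mul_one]
  by_cases haΓ : a ∈ Γ
  · rw [if_pos haΓ, F.der a haΓ hball, hsplit, ← mul_assoc,
      mul_inv (H * Real.exp (φ a).re * ∏ γ ∈ (Γ.erase a).erase b, |a - γ|), mul_assoc _ _⁻¹,
      inv_mul_cancel₀ hq.ne', mul_one]
  · rw [if_neg haΓ]
    have h1 := hg.resolve_left haΓ
    rw [F.val a hball] at h1
    have e : ∏ γ ∈ Γ, ‖(a : ℂ) - γ‖ = ∏ γ ∈ Γ.erase a, |a - γ| := by
      rw [Finset.erase_eq_of_notMem haΓ]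
      refine Finset.prod_congr rfl fun γ _ => ?_
      rw [← ofReal_sub, norm_real, Real.norm_eq_abs]
    rw [e, hsplit, ← mul_assoc] at h1
    rw [inv_le_iff_one_le_mul₀ hP]
    calc 1 = Real.exp (25 * M) * Real.exp (-25 * M) := by rw [← Real.exp_add]; simp
      _ ≤ Real.exp (25 * M) * ((H * Real.exp (φ a).re * ∏ γ ∈ (Γ.erase a).erase b, |a - γ|) *
          (if b ∈ Γ then |a - b| else 1)) := by gcongr
      _ = _ := by ring

lemma norm_yI (y γ : ℝ) : ‖-(y * I) - (γ : ℂ)‖ ^ 2 = γ ^ 2 + y ^ 2 := by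
  rw [← normSq_eq_norm_sq, normSq_apply]; simp; ring

theorem Fac.pointwise (F : Fac f M Γ H φ) (hM : 1 ≤ M) {y : ℝ} (hy0 : 0 < y) (hy1 : y ≤ 1)
    (hyM : y * M ≤ 1) :
    (‖f (-(y * I))‖⁻¹) ^ 2 ≤ 6 * Real.exp 36 *
      (∑ γ ∈ Γ, ((‖deriv f γ‖⁻¹) ^ 2 + Real.exp (420 * M)) / (γ ^ 2 + y ^ 2)
        + Real.exp (420 * M)) := by
  classical
  obtain ⟨a, b, ha, ha0, hb0, hb, hga, hgb, hΓ⟩ := F.exists_ab
  obtain ⟨g1, g2⟩ := F.gap hM ha ha0 hb0 hb hΓ
  have hab : a < b := by linarith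
  set S := (Γ.erase a).erase b with hS
  have hSout : ∀ γ ∈ S, γ < a ∨ b < γ := by
    intro γ hγ
    simp only [hS, Finset.mem_erase] at hγ
    rcases hΓ γ hγ.2.2 with h | h
    · exact Or.inl (lt_of_le_of_ne h hγ.2.1)
    · exact Or.inr (lt_of_le_of_ne h (Ne.symm hγ.1))
  have hEa := F.endpoint hab.ne (abs_le.2 ⟨ha, by linarith⟩)
    (fun γ hγ => by rcases hSout γ hγ with h | h <;> linarith [h] ) hga
  have hS' : (Γ.erase b).erase a = S := Finset.erase_right_comm
  have hEb := F.endpoint hab.ne' (abs_le.2 ⟨by linarith, hb⟩)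
    (fun γ hγ => by
      rw [hS'] at hγ
      rcases hSout γ hγ with h | h <;> linarith [h]) hgb
  rw [hS', abs_of_pos (sub_pos.2 hab)] at hEb
  rw [← hS, abs_sub_comm, abs_of_pos (sub_pos.2 hab)] at hEa
  set z : ℂ := -(y * I) with hz
  have hzm : z ∈ closedBall (-I) (3 / 2) := by
    have := mem_cb (x := 0) (by simp) hy0.le hy1
    rwa [ofReal_zero, zero_sub] at this
  have h0m : (0 : ℂ) ∈ closedBall (-I) (3 / 2) := by
    simpa using mem_cb' (x := 0) (by simp)
  have hd : ∀ γ : ℝ, |γ| ≤ ‖z - γ‖ := by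
    intro γ
    have := abs_re_le_norm (z - γ)
    simpa [hz] using this
  have hd0 : ∀ γ : ℝ, 0 < ‖z - γ‖ := by
    intro γ
    have := abs_im_le_norm (z - γ)
    simp only [hz, sub_im, neg_im, mul_im, ofReal_re, I_im, mul_one, ofReal_im, I_re, mul_zero,
      add_zero, sub_zero, abs_neg, abs_of_pos hy0] at this
    exact hy0.trans_le this
  have hφz : (φ 0).re - 12 ≤ (φ z).re := by
    have h1 := (convex_closedBall (-I) 2).norm_image_sub_le_of_norm_deriv_le (𝕜 := ℂ) (f := φ)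
      (C := 12 * M) (fun w hw => F.diff.differentiableAt (isOpen_ball.mem_nhds
        (closedBall_subset_ball (by norm_num) hw))) (fun w hw => F.d1 hw)
      (closedBall_subset_closedBall (by norm_num) h0m)
      (closedBall_subset_closedBall (by norm_num) hzm)
    have h2 : ‖z - 0‖ = y := by simp [hz, abs_of_pos hy0]
    rw [h2] at h1
    have h3 := abs_re_le_norm (φ z - φ 0)
    have h4 := neg_abs_le (φ z - φ 0).re
    rw [sub_re] at h3 h4
    nlinarith
  have h0S : ∀ γ ∈ S, (0 : ℝ) ≠ γ := fun γ hγ => by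
    rcases hSout γ hγ with h | h <;> linarith [h]
  have hX : ‖f z‖⁻¹ ≤ Real.exp 12 * Real.exp (gf H φ S 0) /
      ((if a ∈ Γ then ‖z - a‖ else 1) * (if b ∈ Γ then ‖z - b‖ else 1)) := by
    have hD : 0 < (if a ∈ Γ then ‖z - a‖ else 1) * (if b ∈ Γ then ‖z - b‖ else 1) := by
      refine mul_pos ?_ ?_ <;> split_ifs <;> first | exact hd0 _ | exact one_pos
    rw [exp_gf F.Hpos φ h0S, F.val z (closedBall_subset_ball (by norm_num) hzm),
      prod_split Γ hab.ne (fun γ => ‖z - γ‖), ← hS]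
    have hP : 0 < ∏ γ ∈ S, |0 - γ| :=
      Finset.prod_pos fun γ hγ => abs_pos.2 (sub_ne_zero.2 (h0S γ hγ))
    have hP' : ∏ γ ∈ S, |0 - γ| ≤ ∏ γ ∈ S, ‖z - γ‖ :=
      Finset.prod_le_prod (fun _ _ => abs_nonneg _) fun γ _ => by simpa using hd γ
    have hH := F.Hpos
    have e : Real.exp 12 * (H * Real.exp (φ ((0 : ℝ) : ℂ)).re * ∏ γ ∈ S, |0 - γ|)⁻¹ /
        ((if a ∈ Γ then ‖z - a‖ else 1) * (if b ∈ Γ then ‖z - b‖ else 1)) =
        (H * Real.exp ((φ 0).re - 12) * ((∏ γ ∈ S, |0 - γ|) *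
          ((if a ∈ Γ then ‖z - a‖ else 1) * (if b ∈ Γ then ‖z - b‖ else 1))))⁻¹ := by
      rw [Real.exp_sub, ofReal_zero]
      field_simp
    rw [e, mul_assoc (∏ γ ∈ S, ‖z - γ‖)]
    gcongr
  have key := combine (X := ‖f z‖⁻¹) (da := ‖z - a‖) (db := ‖z - b‖) hM ha ha0 hb0 hb
    ((neg_le_abs a).trans (hd a)) ((le_abs_self b).trans (hd b)) (hd0 a)
    (by positivity) (by positivity) (Real.exp_pos _).le g1 g2 hEa hEb hX
  set Θ := Real.exp (210 * M) with hΘ
  have hΘ2 : Real.exp (420 * M) = Θ ^ 2 := by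
    rw [hΘ, ← Real.exp_nat_mul]; congr 1; push_cast; ring
  have h36 : Real.exp 36 = Real.exp 18 ^ 2 := by
    rw [← Real.exp_nat_mul]; congr 1; push_cast; ring
  rw [hΘ2, h36]
  set t : ℝ → ℝ := fun γ => ((‖deriv f γ‖⁻¹) ^ 2 + Θ ^ 2) / (γ ^ 2 + y ^ 2) with ht
  have ht0 : ∀ γ, 0 ≤ t γ := fun γ => by positivity
  have hsq : ∀ γ : ℝ, (if γ ∈ Γ then (‖deriv f γ‖⁻¹ + Θ) / ‖z - γ‖ else 0) ^ 2 ≤
      2 * (if γ ∈ Γ then t γ else 0) := by
    intro γ
    split_ifs
    · rw [div_pow, hz, norm_yI, ht, ← mul_div_assoc]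
      gcongr
      nlinarith [sq_nonneg (‖deriv f γ‖⁻¹ - Θ)]
    · simp
  have hsum : (if a ∈ Γ then t a else 0) + (if b ∈ Γ then t b else 0) ≤ ∑ γ ∈ Γ, t γ := by
    have h1 : ∑ γ ∈ ({a, b} : Finset ℝ), (if γ ∈ Γ then t γ else 0) ≤ ∑ γ ∈ Γ, t γ := by
      rw [← Finset.sum_filter]
      exact Finset.sum_le_sum_of_subset_of_nonneg
        (fun γ hγ => (Finset.mem_filter.1 hγ).2) fun γ _ _ => ht0 γ
    rwa [Finset.sum_pair hab.ne] at h1
  have ka := hsq a
  have kb := hsq b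
  set xa := (if a ∈ Γ then (‖deriv f a‖⁻¹ + Θ) / ‖z - a‖ else 0)
  set xb := (if b ∈ Γ then (‖deriv f b‖⁻¹ + Θ) / ‖z - b‖ else 0)
  calc (‖f z‖⁻¹) ^ 2 ≤ (Real.exp 18 * (xa + xb + Θ)) ^ 2 := by gcongr
    _ = Real.exp 18 ^ 2 * (xa + xb + Θ) ^ 2 := by ring
    _ ≤ Real.exp 18 ^ 2 * (6 * (∑ γ ∈ Γ, t γ + Θ ^ 2)) := by
        gcongr
        nlinarith [sq_nonneg (xa - xb), sq_nonneg (xa - Θ), sq_nonneg (xb - Θ), sq_nonneg Θ]
    _ = _ := by ring

end Pool.Agent.P.MP_323ce2_nt
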