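import Mathlib
import Pool.Agent.P.MP_323ce2_nt.Littlewood
import Pool.Agent.P.MP_323ce2_nt.Pointwise

open Complex Filter Topology Metric Set MeasureTheory Asymptotics

namespace Pool.Agent.P.MP_323ce2_nt

/-- The zeros in the critical strip. -/
def Zs : Set ℂ := {ρ | riemannZeta ρ = 0 ∧ 0 < ρ.re ∧ ρ.re < 1}

noncomputable def sc (T : ℝ) (w : ℂ) : ℂ := 1 / 2 + (T + wd * w) * I

lemma sc_sub (T : ℝ) (w : ℂ) :
    ‖sc T w - ((1 / 2 + wd : ℝ) + T * I)‖ = wd * ‖w - -I‖ := by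
  have e : sc T w - ((1 / 2 + wd : ℝ) + T * I) = wd * (w - -I) * I := by
    unfold sc; push_cast
    linear_combination (-(wd : ℂ)) * I_mul_I
  rw [e, norm_mul, norm_mul, norm_I, norm_real, Real.norm_eq_abs, abs_of_pos wd_pos, mul_one]

lemma sc_mem {T r : ℝ} {w : ℂ} :
    w ∈ closedBall (-I) r ↔ sc T w ∈ closedBall ((1 / 2 + wd : ℝ) + T * I) (r * wd) := by
  rw [mem_closedBall, mem_closedBall, dist_eq_norm, dist_eq_norm, sc_sub, mul_comm r,
    mul_le_mul_iff_right₀ wd_pos]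

lemma sc_zero {T : ℝ} {ρ : ℂ} (h : ρ.re = 1 / 2) : sc T (((ρ.im - T) / wd : ℝ) : ℂ) = ρ := by
  have := wd_pos
  apply Complex.ext
  · simp [sc, h, -ofReal_div, -ofReal_sub]
  · simp [sc, -ofReal_div, -ofReal_sub]; field_simp; ring

lemma sc_inj {T : ℝ} {w w' : ℂ} (h : sc T w = sc T w') : w = w' := by
  have : (wd : ℂ) ≠ 0 := ofReal_ne_zero.2 wd_pos.ne'
  unfold sc at h
  have h1 : (wd : ℂ) * I * (w - w') = 0 := by linear_combination h
  simpa [this, sub_eq_zero] using h1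

lemma sc_pt (T x y : ℝ) : sc T (x - y * I) = ((1 / 2 + wd * y : ℝ) : ℂ) + (T + wd * x : ℝ) * I := by
  unfold sc; push_cast
  linear_combination (-(wd : ℂ) * y) * I_mul_I

theorem zlocal (h : RHs) (hs : ∀ ρ ∈ Zs, deriv riemannZeta ρ ≠ 0) : ∃ T1 : ℝ, 3 ≤ T1 ∧
    ∀ T : ℝ, T1 ≤ |T| →
    (∀ A : Finset ℂ, (∀ ρ ∈ A, ρ ∈ Zs ∧ |ρ.im - T| ≤ wd) → (A.card : ℝ) ≤ Real.log |T|) ∧
    (∀ σ : ℝ, 1 / 2 + wd ≤ σ → σ ≤ 2 →
      Real.exp (-(Real.log |T| / 1000)) ≤ ‖riemannZeta (σ + T * I)‖) ∧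
    (∀ a : ℝ, -1 ≤ a → a ≤ 3 / 4 → ∃ x ∈ Icc a (a + 1 / 4), ∀ σ : ℝ, 1 / 2 ≤ σ → σ ≤ 1 / 2 + wd →
      Real.exp (-(Real.log |T| / 40)) ≤ ‖riemannZeta (σ + (T + wd * x : ℝ) * I)‖) ∧
    (∀ δ : ℝ, 0 < δ → δ ≤ wd → δ * Real.log |T| ≤ 1000 * wd → ∃ A : Finset ℂ,
      (∀ ρ ∈ A, ρ ∈ Zs ∧ |ρ.im - T| ≤ 4 * wd) ∧
      (‖riemannZeta ((1 / 2 + δ : ℝ) + T * I)‖⁻¹) ^ 2 ≤ 6 * Real.exp 36 *
        (∑ ρ ∈ A, ((‖deriv riemannZeta ρ‖⁻¹) ^ 2 + √|T|) / ((ρ.im - T) ^ 2 + δ ^ 2) + √|T|)) := by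
  classical
  obtain ⟨T1, hT1, hL⟩ := littlewood h
  refine ⟨T1, hT1, fun T hT => ?_⟩
  obtain ⟨hL0, hlo, hup⟩ := hL T hT
  have hT3 : 3 ≤ |T| := hT1.trans hT
  have hw := wd_pos
  have hw1 : wd = 1 / 1000000 := rfl
  set L := Real.log |T| with hLdef
  set c : ℂ := (1 / 2 + wd : ℝ) + T * I with hc
  have hcre : c.re = 1 / 2 + wd := by simp [hc]
  have hcim : c.im = T := by simp [hc]
  set N : Finset ℂ :=
    ((isCompact_closedBall c (4 * wd)).inter_riemannZetaZeros_finite).toFinset with hN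
  have hNmem : ∀ ρ, ρ ∈ N ↔ ρ ∈ closedBall c (4 * wd) ∧ riemannZeta ρ = 0 := by
    intro ρ; simp [hN, mem_riemannZetaZeros]
  have hNZ : ∀ ρ ∈ N, ρ ∈ Zs := by
    intro ρ hρ
    obtain ⟨h1, h2⟩ := (hNmem ρ).1 hρ
    have := re_of_mem h1
    exact ⟨h2, by linarith [this.1], by linarith [this.2]⟩
  have hNre : ∀ ρ ∈ N, ρ.re = 1 / 2 := fun ρ hρ =>
    h ρ (hNZ ρ hρ).1 (hNZ ρ hρ).2.1 (hNZ ρ hρ).2.2
  set p : ℂ → ℝ := fun ρ => (ρ.im - T) / wd with hp
  have hinj : Set.InjOn p N := by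
    intro ρ hρ σ hσ e
    rw [← sc_zero (T := T) (hNre ρ hρ), ← sc_zero (T := T) (hNre σ hσ)]
    exact congrArg (fun x : ℝ => sc T x) e
  set f : ℂ → ℂ := fun w => riemannZeta (sc T w) with hf
  have hzd : ∀ w ∈ closedBall (-I) 13, DifferentiableAt ℂ riemannZeta (sc T w) := by
    intro w hw'
    refine (differentiableOn_zeta hT3 (1 / 2 + wd)).differentiableAt (isOpen_ball.mem_nhds ?_)
    exact closedBall_subset_ball (by linarith) (sc_mem.1 hw')
  have hscd : ∀ w, HasDerivAt (sc T) (wd * I) w := by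
    intro w
    have := ((((hasDerivAt_id w).const_mul (wd : ℂ)).const_add (T : ℂ)).mul_const I).const_add
      (1 / 2 : ℂ)
    exact this.congr_deriv (by simp)
  have hfd : ∀ w ∈ closedBall (-I) 13, HasDerivAt f (deriv riemannZeta (sc T w) * (wd * I)) w :=
    fun w hw' => (hzd w hw').hasDerivAt.comp w (hscd w)
  have hpm : ∀ ρ ∈ N, ((p ρ : ℝ) : ℂ) ∈ closedBall (-I) 4 := by
    intro ρ hρ
    rw [sc_mem (T := T), sc_zero (hNre ρ hρ)]
    exact ((hNmem ρ).1 hρ).1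
  have hpd : ∀ ρ ∈ N, deriv f (p ρ) = deriv riemannZeta ρ * (wd * I) := by
    intro ρ hρ
    rw [(hfd _ (closedBall_subset_closedBall (by norm_num) (hpm ρ hρ))).deriv,
      sc_zero (hNre ρ hρ)]
  obtain ⟨H, φ, F⟩ := exists_fac (f := f) (M := L / 1000) (Γ := N.image p) (by linarith)
    (fun w hw' => (hfd w (ball_subset_closedBall hw')).differentiableAt.differentiableWithinAt)
    (fun γ hγ => by
      obtain ⟨ρ, hρ, rfl⟩ := Finset.mem_image.1 hγ
      refine ⟨hpm ρ hρ, ?_, ?_⟩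
      · simp only [hf]; rw [sc_zero (hNre ρ hρ)]; exact (hNZ ρ hρ).1
      · rw [hpd ρ hρ]
        exact mul_ne_zero (hs ρ (hNZ ρ hρ)) (mul_ne_zero (ofReal_ne_zero.2 hw.ne') I_ne_zero))
    (fun w hw' h0 => by
      have hm : sc T w ∈ N := (hNmem _).2 ⟨sc_mem.1 hw', h0⟩
      exact ⟨p (sc T w), Finset.mem_image_of_mem _ hm, sc_inj (sc_zero (hNre _ hm)).symm⟩)
    (by
      have := hlo (1 / 2 + wd) le_rfl (by linarith)
      have e := sc_pt T 0 1
      simp only [ofReal_zero, ofReal_one, one_mul, zero_sub, mul_one, mul_zero, add_zero] at e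
      simp only [hf]; rw [e]; exact this)
    (fun w hw' => hup _ (sc_mem.1 hw'))
  refine ⟨fun A hA => ?_, hlo, fun a ha ha' => ?_, fun δ hδ0 hδ1 hδ2 => ?_⟩
  · have h1 := F.card_le
    rw [Finset.card_image_of_injOn hinj] at h1
    have h2 : A ⊆ N := by
      intro ρ hρ
      obtain ⟨hz, hi⟩ := hA ρ hρ
      refine (hNmem ρ).2 ⟨?_, hz.1⟩
      rw [mem_closedBall, dist_eq_norm]
      refine (norm_le_abs_re_add_abs_im _).trans ?_
      rw [sub_re, sub_im, hcre, hcim, h ρ hz.1 hz.2.1 hz.2.2,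
        show 1 / 2 - (1 / 2 + wd) = -wd by ring, abs_neg, abs_of_pos hw]
      linarith
    have h3 : (A.card : ℝ) ≤ N.card := by exact_mod_cast Finset.card_le_card h2
    linarith
  · obtain ⟨x, hx, hx'⟩ := F.good ha ha'
    refine ⟨x, hx, fun σ h1 h2 => ?_⟩
    have := hx' ((σ - 1 / 2) / wd) (div_nonneg (by linarith) hw.le)
      ((div_le_one hw).2 (by linarith))
    simp only [hf] at this
    rw [sc_pt, show 1 / 2 + wd * ((σ - 1 / 2) / wd) = σ by field_simp; ring] at this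
    convert this using 2
    ring
  · refine ⟨N, fun ρ hρ => ⟨hNZ ρ hρ, ?_⟩, ?_⟩
    · have := im_of_mem ((hNmem ρ).1 hρ).1
      rwa [hcim] at this
    have key := F.pointwise (y := δ / wd) (by linarith) (by positivity) ((div_le_one hw).2 hδ1)
      (by rw [div_mul_div_comm, div_le_one (by positivity)]; linarith)
    have e := sc_pt T 0 (δ / wd)
    simp only [ofReal_zero, zero_sub, mul_zero, add_zero] at e
    simp only [hf] at key
    rw [e, show 1 / 2 + wd * (δ / wd) = 1 / 2 + δ by field_simp, Finset.sum_image hinj] at key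
    refine key.trans ?_
    have hΘ : Real.exp (420 * (L / 1000)) ≤ √|T| := by
      rw [Real.sqrt_eq_rpow, Real.rpow_def_of_pos (by linarith), Real.exp_le_exp, ← hLdef]
      linarith
    refine mul_le_mul_of_nonneg_left (add_le_add (Finset.sum_le_sum fun ρ hρ => ?_) hΘ)
      (by positivity)
    have e1 := hpd ρ hρ
    simp only [hf] at e1
    rw [e1, norm_mul, norm_mul, norm_I, norm_real, Real.norm_eq_abs, abs_of_pos hw, mul_one]
    have e2 : p ρ ^ 2 + (δ / wd) ^ 2 = ((ρ.im - T) ^ 2 + δ ^ 2) / wd ^ 2 := by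
      simp only [hp]; field_simp
    rw [e2, div_div_eq_mul_div]
    refine div_le_div_of_nonneg_right ?_ (by positivity)
    rw [mul_inv, mul_pow, add_mul, mul_assoc, ← mul_pow, inv_mul_cancel₀ hw.ne', one_pow, mul_one]
    refine add_le_add le_rfl ?_
    have : wd ^ 2 ≤ 1 := by rw [hw1]; norm_num
    exact (mul_le_of_le_one_right (Real.exp_pos _).le this).trans hΘ

end Pool.Agent.P.MP_323ce2_nt
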