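import Mathlib
import Pool.Agent.P.MP_323ce2_nt.Kernel
import Pool.Agent.P.MP_323ce2_nt.ZLocal
import Pool.Agent.P.MP_323ce2_nt.Contour2

open Complex Filter Topology Set MeasureTheory ComplexConjugate Metric Asymptotics
open scoped Real

namespace Pool.Agent.P.MP_323ce2_nt

noncomputable def gz (s : ℂ) : ℂ := (s - 1) / (s * riemannZeta₁ s)

noncomputable def aa (ρ : ℂ) : ℂ := (ρ * deriv riemannZeta ρ)⁻¹

noncomputable def SS (Z : Finset ℂ) (w : ℂ) : ℂ := ∑ ρ ∈ Z, aa ρ / (1 / 2 + w - ρ)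

noncomputable def GG (Z : Finset ℂ) (w : ℂ) : ℂ := gz (1 / 2 + w) - SS Z w

noncomputable def mm (u : ℝ) : ℝ := Mf (Real.exp u) * Real.exp (-(u / 2))

noncomputable def PP (Z : Finset ℂ) (u : ℝ) : ℂ := ∑ ρ ∈ Z, aa ρ * exp ((ρ - 1 / 2) * u)

noncomputable def rr (Z : Finset ℂ) (u : ℝ) : ℂ := mm u - PP Z u

lemma gz_eq {s : ℂ} (hs : s ≠ 1) : gz s = (s * riemannZeta s)⁻¹ := by
  have : s - 1 ≠ 0 := sub_ne_zero.2 hs
  rw [gz, riemannZeta_eq_inv_sub_mul hs, mul_inv, mul_inv, inv_inv, div_eq_mul_inv, mul_inv]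
  ring

lemma zeta1_ne_zero {s : ℂ} (h : riemannZeta s ≠ 0) : riemannZeta₁ s ≠ 0 := by
  rcases eq_or_ne s 1 with rfl | hs
  · simp
  · intro h0
    rw [riemannZeta_eq_inv_sub_mul hs, h0, mul_zero] at h
    exact h rfl

lemma differentiableAt_gz {s : ℂ} (h0 : s ≠ 0) (h : riemannZeta s ≠ 0) :
    DifferentiableAt ℂ gz s := by
  unfold gz
  exact DifferentiableAt.div (by fun_prop) (by fun_prop) (mul_ne_zero h0 (zeta1_ne_zero h))

lemma measurable_mm : Measurable mm :=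
  (measurable_Mf.comp Real.measurable_exp).mul (by fun_prop)

lemma abs_mm_le (u : ℝ) : |mm u| ≤ Real.exp (u / 2) := by
  rw [mm, abs_mul, abs_of_pos (Real.exp_pos _)]
  calc _ ≤ Real.exp u * Real.exp (-(u / 2)) := by
        gcongr; exact abs_Mf_le (Real.exp_pos u).le
    _ = _ := by rw [← Real.exp_add]; ring_nf

lemma continuous_PP (Z : Finset ℂ) : Continuous (PP Z) := by unfold PP; fun_prop

lemma measurable_rr (Z : Finset ℂ) : Measurable (rr Z) :=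
  (measurable_ofReal.comp measurable_mm).sub (continuous_PP Z).measurable

variable {Z : Finset ℂ}

lemma norm_PP_le (hZ : ∀ ρ ∈ Z, ρ.re = 1 / 2) (u : ℝ) : ‖PP Z u‖ ≤ ∑ ρ ∈ Z, ‖aa ρ‖ := by
  refine norm_sum_le_of_le _ fun ρ hρ => ?_
  rw [norm_mul, norm_exp]
  simp [hZ ρ hρ]

lemma norm_rr_le (hZ : ∀ ρ ∈ Z, ρ.re = 1 / 2) (u : ℝ) (hu : 0 ≤ u) :
    ‖rr Z u‖ ≤ (1 + ∑ ρ ∈ Z, ‖aa ρ‖) * Real.exp (u / 2) := by
  refine (norm_sub_le _ _).trans ?_
  rw [norm_real, Real.norm_eq_abs, add_mul, one_mul]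
  have h1 : 1 ≤ Real.exp (u / 2) := Real.one_le_exp (by linarith)
  have h2 : 0 ≤ ∑ ρ ∈ Z, ‖aa ρ‖ := Finset.sum_nonneg fun _ _ => norm_nonneg _
  have := le_mul_of_one_le_right h2 h1
  linarith [abs_mm_le u, norm_PP_le hZ u]

lemma den_ne (hZ : ∀ ρ ∈ Z, ρ.re = 1 / 2) {w : ℂ} (hw : 0 < w.re) {ρ : ℂ} (hρ : ρ ∈ Z) :
    1 / 2 + w - ρ ≠ 0 := by
  intro h
  have := congrArg re h
  simp [hZ ρ hρ] at this
  linarith

lemma differentiableOn_GG (h : RHs) (hZ : ∀ ρ ∈ Z, ρ.re = 1 / 2) :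
    DifferentiableOn ℂ (GG Z) {s | 0 < s.re} := by
  intro w hw
  have hw' : 0 < w.re := hw
  have h1 : (1 / 2 : ℝ) < (1 / 2 + w : ℂ).re := by simp; linarith
  refine DifferentiableAt.differentiableWithinAt (DifferentiableAt.sub ?_ ?_)
  · refine (differentiableAt_gz ?_ (h.ne_zero h1)).comp w (by fun_prop)
    intro h0; rw [h0] at h1; norm_num at h1
  · unfold SS
    refine DifferentiableAt.fun_sum fun ρ hρ => ?_
    exact DifferentiableAt.div (by fun_prop) (by fun_prop) (den_ne hZ hw' hρ)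

lemma laplace_mm {w : ℂ} (hw : 1 / 2 < w.re) :
    gz (1 / 2 + w) = ∫ u in Ioi (0 : ℝ), (mm u : ℂ) * exp (-w * u) := by
  set s : ℂ := 1 / 2 + w with hs
  have hs1 : 1 < s.re := by simp [hs]; linarith
  have hs0 : s ≠ 0 := by intro h; rw [h] at hs1; norm_num at hs1
  have hs1' : s ≠ 1 := by intro h; rw [h] at hs1; norm_num at hs1
  have h1 := LSeries_eq_mul_integral (fun n => ((ArithmeticFunction.moebius n : ℤ) : ℂ))
    zero_le_one hs1 (ArithmeticFunction.LSeriesSummable_moebius_iff.2 hs1)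
    (IsBigO.of_bound 1 (Eventually.of_forall fun n => by
      have := abs_Mf_le (u := n) (Nat.cast_nonneg n)
      rw [Mf, Nat.floor_natCast] at this
      rw [← Int.cast_sum, norm_intCast]
      simpa using this))
  rw [LSeries_mu hs1, ← Real.exp_zero, ← integral_comp_exp_Ioi] at h1
  rw [gz_eq hs1', mul_inv, h1, ← mul_assoc, inv_mul_cancel₀ hs0, one_mul]
  congr 1; ext u
  have e : ((Real.exp u : ℝ) : ℂ) ^ (-(s + 1)) = exp (u * -(s + 1)) := by
    rw [cpow_def_of_ne_zero (ofReal_ne_zero.2 (Real.exp_pos u).ne'),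
      ← ofReal_log (Real.exp_pos u).le, Real.log_exp]
  rw [e, real_smul, mm, Mf]
  push_cast
  rw [mul_left_comm, mul_assoc, ← exp_add, ← exp_add]
  congr 2
  rw [hs]; ring

lemma laplace_rr (hZ : ∀ ρ ∈ Z, ρ.re = 1 / 2) {w : ℂ} (hw : 1 / 2 < w.re) :
    GG Z w = ∫ u in Ioi (0 : ℝ), rr Z u * exp (-w * u) := by
  have i1 : IntegrableOn (fun u : ℝ => (mm u : ℂ) * exp (-w * u)) (Ioi 0) := by
    refine Integrable.mono' (g := fun u => ‖exp ((1 / 2 - w) * u)‖)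
      (integrableOn_exp_mul_complex_Ioi (by simp; linarith) 0).norm
      (((measurable_ofReal.comp measurable_mm).mul (by fun_prop)).aestronglyMeasurable)
      (Eventually.of_forall fun u => ?_)
    rw [norm_mul, norm_real, Real.norm_eq_abs, norm_exp, norm_exp]
    calc _ ≤ Real.exp (u / 2) * Real.exp (-w * u).re := by gcongr; exact abs_mm_le u
      _ = _ := by rw [← Real.exp_add]; congr 1; simp; ring
  have hre : ∀ ρ ∈ Z, (ρ - 1 / 2 - w).re < 0 := fun ρ hρ => by simp [hZ ρ hρ]; linarith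
  have i2 : ∀ ρ ∈ Z, IntegrableOn (fun u : ℝ => aa ρ * exp ((ρ - 1 / 2 - w) * u)) (Ioi 0) :=
    fun ρ hρ => (integrableOn_exp_mul_complex_Ioi (hre ρ hρ) 0).const_mul _
  have e : ∀ u : ℝ, rr Z u * exp (-w * u) =
      mm u * exp (-w * u) - ∑ ρ ∈ Z, aa ρ * exp ((ρ - 1 / 2 - w) * u) := by
    intro u
    rw [rr, PP, sub_mul, Finset.sum_mul]
    congr 1
    refine Finset.sum_congr rfl fun ρ _ => ?_
    rw [mul_assoc, ← exp_add]; congr 2; ring
  simp only [e]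
  rw [integral_sub i1 (integrable_finsetSum _ i2), integral_finsetSum _ i2, GG, laplace_mm hw, SS]
  congr 1
  refine Finset.sum_congr rfl fun ρ hρ => ?_
  rw [integral_const_mul, integral_exp_mul_complex_Ioi (hre ρ hρ)]
  rw [show ρ - 1 / 2 - w = -(1 / 2 + w - ρ) by ring]
  simp [div_eq_mul_inv, ← neg_inv, -neg_sub]

lemma pole_bdd {F : ℂ → ℂ} {s0 : ℂ} (hF : AnalyticAt ℂ F s0) (h0 : F s0 = 0)
    (hd : deriv F s0 ≠ 0) :
    ∃ C, ∀ᶠ s in 𝓝 s0, s ≠ s0 → ‖(F s)⁻¹ - (deriv F s0)⁻¹ / (s - s0)‖ ≤ C := by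
  have hU : {s | AnalyticAt ℂ F s} ∈ 𝓝 s0 := hF.eventually_analyticAt
  have h1 : DifferentiableAt ℂ (dslope F s0) s0 :=
    ((differentiableOn_dslope hU).2
      (fun s hs => hs.differentiableAt.differentiableWithinAt)).differentiableAt hU
  have h2 : DifferentiableAt ℂ (fun s => (dslope F s0 s)⁻¹) s0 :=
    h1.inv (by rwa [dslope_same])
  have h3 := (continuousAt_dslope_same.2 h2).norm
  refine ⟨‖dslope (fun s => (dslope F s0 s)⁻¹) s0 s0‖ + 1, ?_⟩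
  filter_upwards [h3.eventually (gt_mem_nhds (lt_add_one _))] with s hs hne
  refine le_trans (le_of_eq ?_) hs.le
  congr 1
  rw [dslope_of_ne _ hne, slope_def_field, dslope_same, dslope_of_ne _ hne, slope_def_field, h0,
    sub_zero, inv_div, sub_div, div_div, mul_comm, ← div_div, div_self (sub_ne_zero.2 hne), one_div]

lemma low_bdd (h : RHs) (hs : ∀ ρ ∈ Zs, deriv riemannZeta ρ ≠ 0) {T0 : ℝ} (hZ : ∀ ρ ∈ Z, ρ ∈ Zs)
    (hZ' : ∀ ρ ∈ Zs, |ρ.im| ≤ T0 → ρ ∈ Z) :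
    ∃ C, ∀ δ t : ℝ, 0 < δ → δ ≤ 1 / 4 → |t| ≤ T0 → ‖GG Z (δ + t * I)‖ ≤ C := by
  classical
  have hre : ∀ ρ ∈ Z, ρ.re = 1 / 2 := fun ρ hρ => h ρ (hZ ρ hρ).1 (hZ ρ hρ).2.1 (hZ ρ hρ).2.2
  have hK : IsCompact (Icc (0 : ℝ) (1 / 4) ×ℂ Icc (-T0) T0) :=
    isCompact_Icc.reProdIm isCompact_Icc
  have key := hK.induction_on (p := fun A => ∃ C, ∀ w ∈ A, 0 < w.re → ‖GG Z w‖ ≤ C)
    ⟨0, by simp⟩ (fun A B hAB ⟨C, hC⟩ => ⟨C, fun w hw => hC w (hAB hw)⟩)
    (fun A B ⟨C, hC⟩ ⟨D, hD⟩ => ⟨max C D, fun w hw hw' => hw.elim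
      (fun k => (hC w k hw').trans (le_max_left _ _))
      (fun k => (hD w k hw').trans (le_max_right _ _))⟩) ?_
  · obtain ⟨C, hC⟩ := key
    refine ⟨C, fun δ t h1 h2 h3 => hC _ ⟨?_, ?_⟩ (by simpa using h1)⟩
    · simp; constructor <;> linarith
    · simpa using abs_le.1 h3
  intro w0 hw0
  suffices ∃ C, ∀ᶠ w in 𝓝 w0, 0 < w.re → ‖GG Z w‖ ≤ C by
    obtain ⟨C, hC⟩ := this
    exact ⟨_, mem_nhdsWithin_of_mem_nhds hC, C, fun w hw => hw⟩
  set s0 : ℂ := 1 / 2 + w0 with hs0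
  have k1 : s0.re = 1 / 2 + w0.re := by simp [hs0]
  have k2 := hw0.1.1
  have k3 := hw0.1.2
  have hs00 : s0 ≠ 0 := by intro e; rw [e] at k1; simp at k1; linarith
  have hs01 : s0 ≠ 1 := by intro e; rw [e] at k1; simp at k1; linarith
  have hcont : ∀ A : Finset ℂ, s0 ∉ A → ContinuousAt (SS A) w0 := by
    intro A hA
    unfold SS
    refine tendsto_finsetSum _ fun ρ hρ => ContinuousAt.tendsto ?_
    refine ContinuousAt.div (by fun_prop) (by fun_prop) (sub_ne_zero.2 ?_)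
    intro e; exact hA (by rw [hs0, e]; exact hρ)
  by_cases hmem : s0 ∈ Z
  · have hA : AnalyticAt ℂ riemannZeta s0 := by
      refine DifferentiableOn.analyticAt (s := {1}ᶜ)
        (fun s hs => (differentiableAt_riemannZeta hs).differentiableWithinAt)
        (isOpen_compl_singleton.mem_nhds hs01)
    have hz := (hZ s0 hmem).1
    have hder : deriv (fun s => s * riemannZeta s) s0 = s0 * deriv riemannZeta s0 := by
      have := ((hasDerivAt_id s0).mul hA.differentiableAt.hasDerivAt).deriv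
      simp only [id, hz, mul_zero, zero_add] at this
      exact this
    obtain ⟨C, hC⟩ := pole_bdd (F := fun s => s * riemannZeta s) (s0 := s0)
      (analyticAt_id.mul hA) (by simp [hz]) (by rw [hder]; exact mul_ne_zero hs00 (hs _ (hZ _ hmem)))
    rw [hder] at hC
    have hc2 := (hcont (Z.erase s0) (Finset.notMem_erase _ _)).norm
    have ht : Tendsto (fun w : ℂ => 1 / 2 + w) (𝓝 w0) (𝓝 s0) :=
      (by fun_prop : Continuous fun w : ℂ => 1 / 2 + w).tendsto w0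
    refine ⟨C + (‖SS (Z.erase s0) w0‖ + 1), ?_⟩
    filter_upwards [ht.eventually hC, hc2.eventually (gt_mem_nhds (lt_add_one _)),
      ht.eventually (isOpen_compl_singleton.mem_nhds hs01)] with w e1 e2 e3 hw
    have e4 := e1 (sub_ne_zero.1 (den_ne hre hw hmem))
    have e5 : GG Z w = ((1 / 2 + w) * riemannZeta (1 / 2 + w))⁻¹
        - (s0 * deriv riemannZeta s0)⁻¹ / (1 / 2 + w - s0) - SS (Z.erase s0) w := by
      rw [GG, gz_eq e3, SS, SS, ← Finset.add_sum_erase _ _ hmem, aa]; ring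
    rw [e5]
    exact (norm_sub_le _ _).trans (add_le_add e4 e2.le)
  · have hz : riemannZeta s0 ≠ 0 := by
      intro e
      refine hmem (hZ' s0 ⟨e, by linarith, by linarith⟩ ?_)
      have : s0.im = w0.im := by simp [hs0]
      rw [this]; exact abs_le.2 hw0.2
    have hc : ContinuousAt (GG Z) w0 :=
      (ContinuousAt.comp (f := fun w : ℂ => 1 / 2 + w) (differentiableAt_gz hs00 hz).continuousAt
        (by fun_prop)).sub (hcont Z hmem)
    refine ⟨‖GG Z w0‖ + 1, ?_⟩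
    filter_upwards [hc.norm.eventually (gt_mem_nhds (lt_add_one _))] with w hw _ using hw.le

lemma SS_le {T0 : ℝ} (hT0 : 0 < T0) (hZ : ∀ ρ ∈ Z, |ρ.im| < T0) :
    ∃ A, 0 ≤ A ∧ ∀ σ t : ℝ, T0 ≤ |t| → ‖SS Z (σ + t * I)‖ ≤ A / |t| := by
  refine ⟨∑ ρ ∈ Z, ‖aa ρ‖ * (T0 / (T0 - |ρ.im|)), Finset.sum_nonneg fun ρ hρ => ?_,
    fun σ t ht => ?_⟩
  · have := sub_pos.2 (hZ ρ hρ); positivity
  rw [Finset.sum_div]
  refine norm_sum_le_of_le _ fun ρ hρ => ?_
  have h1 := sub_pos.2 (hZ ρ hρ)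
  have ht0 : 0 < |t| := hT0.trans_le ht
  have h2 : |t| * (T0 - |ρ.im|) / T0 ≤ ‖1 / 2 + (σ + t * I) - ρ‖ := by
    refine le_trans ?_ (abs_im_le_norm _)
    have e : (1 / 2 + (σ + t * I) - ρ : ℂ).im = t - ρ.im := by simp
    rw [e, div_le_iff₀ hT0]
    have := abs_sub_abs_le_abs_sub t ρ.im
    nlinarith [abs_nonneg ρ.im]
  rw [norm_div, mul_div_assoc, div_eq_mul_inv]
  gcongr
  rw [div_div, ← inv_div ((T0 - |ρ.im|) * |t|), mul_comm (T0 - |ρ.im|)]
  gcongr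

end Pool.Agent.P.MP_323ce2_nt
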