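import Mathlib
import Pool.Agent.P.MP_323ce2_nt.Rest

open Complex Filter Topology Set MeasureTheory ComplexConjugate Metric Asymptotics
open scoped Real

namespace Pool.Agent.P.MP_323ce2_nt

lemma poisson_eq (γ : ℝ) {δ : ℝ} (hδ : 0 < δ) (t : ℝ) :
    ((γ - t) ^ 2 + δ ^ 2)⁻¹ = (δ ^ 2)⁻¹ * (1 + (δ⁻¹ * (t - γ)) ^ 2)⁻¹ := by
  field_simp; ring

lemma integrable_poisson (γ : ℝ) {δ : ℝ} (hδ : 0 < δ) :
    Integrable fun t : ℝ => ((γ - t) ^ 2 + δ ^ 2)⁻¹ := by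
  simp only [poisson_eq γ hδ]
  exact ((integrable_inv_one_add_sq.comp_mul_left' (inv_ne_zero hδ.ne')).comp_sub_right γ).const_mul _

lemma integral_poisson (γ : ℝ) {δ : ℝ} (hδ : 0 < δ) :
    ∫ t : ℝ, ((γ - t) ^ 2 + δ ^ 2)⁻¹ = π / δ := by
  simp only [poisson_eq γ hδ]
  rw [integral_const_mul,
    integral_sub_right_eq_self (fun t : ℝ => (1 + (δ⁻¹ * t) ^ 2)⁻¹) γ,
    Measure.integral_comp_mul_left (fun t : ℝ => (1 + t ^ 2)⁻¹), integral_univ_inv_one_add_sq,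
    inv_inv, abs_of_pos hδ, smul_eq_mul]
  field_simp

lemma sqrt_div_sq {x : ℝ} (hx : 0 < x) : √x / x ^ 2 = x ^ (-(3 / 2) : ℝ) := by
  rw [Real.sqrt_eq_rpow, ← Real.rpow_natCast, ← Real.rpow_sub hx]; norm_num

lemma rpow_cmp {x y : ℝ} (hx : 0 < x) (h : x ≤ 2 * y) :
    y ^ (-(3 / 2) : ℝ) ≤ 4 * x ^ (-(3 / 2) : ℝ) := by
  have h1 : y ^ (-(3 / 2) : ℝ) ≤ (x / 2) ^ (-(3 / 2) : ℝ) :=
    Real.rpow_le_rpow_of_nonpos (by linarith) (by linarith) (by norm_num)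
  refine h1.trans ?_
  rw [Real.div_rpow hx.le (by norm_num), Real.rpow_neg (x := 2) (by norm_num), div_inv_eq_mul,
    mul_comm]
  gcongr
  calc (2 : ℝ) ^ (3 / 2 : ℝ) ≤ 2 ^ (2 : ℝ) :=
        Real.rpow_le_rpow_of_exponent_le one_le_two (by norm_num)
    _ = 4 := by norm_num

/-- The weight attached to a zero. -/
noncomputable def WW (ρ : ℂ) : ℝ := ‖aa ρ‖ ^ 2 + |ρ.im| ^ (-(3 / 2) : ℝ)

lemma WW_nonneg (ρ : ℂ) : 0 ≤ WW ρ := by unfold WW; positivity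

lemma gz_pointwise (h : RHs) {t δ : ℝ} (ht : 3 ≤ |t|) (hδ : 0 < δ) {A Z' : Finset ℂ}
    (hA : ∀ ρ ∈ A, ρ ∈ Zs ∧ |ρ.im - t| ≤ 4 * wd) (hZ' : ∀ ρ ∈ Zs, |ρ.im - t| ≤ 1 → ρ ∈ Z')
    (hb : (‖riemannZeta ((1 / 2 + δ : ℝ) + t * I)‖⁻¹) ^ 2 ≤ 6 * Real.exp 36 *
      (∑ ρ ∈ A, ((‖deriv riemannZeta ρ‖⁻¹) ^ 2 + √|t|) / ((ρ.im - t) ^ 2 + δ ^ 2) + √|t|)) :
    ‖gz (1 / 2 + (δ + t * I))‖ ^ 2 ≤ 24 * Real.exp 36 *
      (∑ ρ ∈ Z', WW ρ * ((ρ.im - t) ^ 2 + δ ^ 2)⁻¹ + (1 + |t|) ^ (-(3 / 2) : ℝ)) := by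
  have hw1 : wd = 1 / 1000000 := rfl
  have e : (1 / 2 + (δ + t * I) : ℂ) = (1 / 2 + δ : ℝ) + t * I := by push_cast; ring
  have ht0 : 0 < |t| := by linarith
  have him : ((1 / 2 + δ : ℝ) + t * I : ℂ).im = t := by simp
  have hne : ((1 / 2 + δ : ℝ) + t * I : ℂ) ≠ 1 := by
    intro h1; rw [h1] at him; rw [← him] at ht0; simp at ht0
  have hs : |t| ≤ ‖((1 / 2 + δ : ℝ) + t * I : ℂ)‖ := by
    have := abs_im_le_norm ((1 / 2 + δ : ℝ) + t * I : ℂ)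
    rwa [him] at this
  rw [e, gz_eq hne, norm_inv, norm_mul, mul_inv, mul_pow]
  have h1 : (‖((1 / 2 + δ : ℝ) + t * I : ℂ)‖⁻¹) ^ 2 ≤ (|t| ^ 2)⁻¹ := by
    rw [← inv_pow]; gcongr
  have h2 : ∑ ρ ∈ A, WW ρ * ((ρ.im - t) ^ 2 + δ ^ 2)⁻¹ ≤
      ∑ ρ ∈ Z', WW ρ * ((ρ.im - t) ^ 2 + δ ^ 2)⁻¹ :=
    Finset.sum_le_sum_of_subset_of_nonneg
      (fun ρ hρ => hZ' ρ (hA ρ hρ).1 ((hA ρ hρ).2.trans (by rw [hw1]; norm_num)))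
      fun ρ _ _ => mul_nonneg (WW_nonneg ρ) (by positivity)
  have h3 : (|t| ^ 2)⁻¹ * √|t| = |t| ^ (-(3 / 2) : ℝ) := by
    rw [← sqrt_div_sq ht0]; ring
  have h4 : (|t| ^ 2)⁻¹ * √|t| ≤ 4 * (1 + |t|) ^ (-(3 / 2) : ℝ) := by
    rw [h3]; exact rpow_cmp (by linarith) (by linarith)
  have h5 : ∀ ρ ∈ A, (|t| ^ 2)⁻¹ * (((‖deriv riemannZeta ρ‖⁻¹) ^ 2 + √|t|) / ((ρ.im - t) ^ 2 + δ ^ 2))
      ≤ 4 * (WW ρ * ((ρ.im - t) ^ 2 + δ ^ 2)⁻¹) := by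
    intro ρ hρ
    obtain ⟨hz, hi⟩ := hA ρ hρ
    have hre := h ρ hz.1 hz.2.1 hz.2.2
    have k1 := abs_sub_abs_le_abs_sub ρ.im t
    have k2 := abs_sub_abs_le_abs_sub t ρ.im
    rw [abs_sub_comm] at k2
    have k3 : ‖ρ‖ ≤ 2 * |t| := by
      refine (norm_le_abs_re_add_abs_im ρ).trans ?_
      rw [hre, abs_of_pos (by norm_num)]; linarith
    have k4 : 0 < ‖ρ‖ := lt_of_lt_of_le (by linarith) (abs_im_le_norm ρ)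
    have k5 : (|t| ^ 2)⁻¹ * (‖deriv riemannZeta ρ‖⁻¹) ^ 2 ≤ 4 * ‖aa ρ‖ ^ 2 := by
      rw [aa, norm_inv, norm_mul, mul_inv, mul_pow, ← mul_assoc]
      refine mul_le_mul_of_nonneg_right ?_ (sq_nonneg _)
      have : (2 * |t|)⁻¹ ^ 2 ≤ ‖ρ‖⁻¹ ^ 2 := by gcongr
      refine le_trans (le_of_eq ?_) (mul_le_mul_of_nonneg_left this (by norm_num))
      field_simp; norm_num
    have k6 : (|t| ^ 2)⁻¹ * √|t| ≤ 4 * |ρ.im| ^ (-(3 / 2) : ℝ) := by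
      rw [h3]; exact rpow_cmp (by linarith) (by linarith)
    rw [div_eq_mul_inv, ← mul_assoc, ← mul_assoc]
    refine mul_le_mul_of_nonneg_right ?_ (by positivity)
    rw [WW, mul_add, mul_add]
    linarith
  calc _ ≤ (|t| ^ 2)⁻¹ * (6 * Real.exp 36 *
      (∑ ρ ∈ A, ((‖deriv riemannZeta ρ‖⁻¹) ^ 2 + √|t|) / ((ρ.im - t) ^ 2 + δ ^ 2) + √|t|)) := by
        gcongr
    _ = 6 * Real.exp 36 * (∑ ρ ∈ A, (|t| ^ 2)⁻¹ *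
        (((‖deriv riemannZeta ρ‖⁻¹) ^ 2 + √|t|) / ((ρ.im - t) ^ 2 + δ ^ 2))
          + (|t| ^ 2)⁻¹ * √|t|) := by rw [← Finset.mul_sum]; ring
    _ ≤ 6 * Real.exp 36 * (∑ ρ ∈ A, 4 * (WW ρ * ((ρ.im - t) ^ 2 + δ ^ 2)⁻¹)
          + 4 * (1 + |t|) ^ (-(3 / 2) : ℝ)) := by
        exact mul_le_mul_of_nonneg_left (add_le_add (Finset.sum_le_sum h5) h4) (by positivity)
    _ = 24 * Real.exp 36 * (∑ ρ ∈ A, WW ρ * ((ρ.im - t) ^ 2 + δ ^ 2)⁻¹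
          + (1 + |t|) ^ (-(3 / 2) : ℝ)) := by rw [← Finset.mul_sum]; ring
    _ ≤ _ := by gcongr

lemma summable_ord {T1 : ℝ} (hT1 : 3 ≤ T1)
    (hc : ∀ T : ℝ, T1 ≤ |T| → ∀ A : Finset ℂ, (∀ ρ ∈ A, ρ ∈ Zs ∧ |ρ.im - T| ≤ wd) →
      (A.card : ℝ) ≤ Real.log |T|) :
    Summable fun ρ : Zs => if T1 + 1 ≤ |(ρ : ℂ).im| then |(ρ : ℂ).im| ^ (-(3 / 2) : ℝ) else 0 := by
  classical
  have hw := wd_pos
  have hw1 : wd = 1 / 1000000 := rfl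
  set b : ℕ → ℝ := fun k => 8 * wd ^ (-(5 / 4) : ℝ) * (k : ℝ) ^ (-(5 / 4) : ℝ) with hb
  have hbs : Summable b := (Real.summable_nat_rpow.2 (by norm_num)).mul_left _
  have hb0 : ∀ k, 0 ≤ b k := fun k => by positivity
  refine summable_of_sum_le (c := ∑' k, b k) (fun ρ => by positivity) fun A => ?_
  rw [← Finset.sum_filter]
  set B : Finset Zs := A.filter fun ρ : Zs => T1 + 1 ≤ |(ρ : ℂ).im| with hB
  set k : Zs → ℕ := fun ρ => ⌊|(ρ : ℂ).im| / wd⌋₊ with hk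
  rw [← Finset.sum_fiberwise_of_maps_to (g := k) (t := B.image k)
    (fun ρ hρ => Finset.mem_image_of_mem _ hρ)]
  refine le_trans (Finset.sum_le_sum fun j hj => ?_) (hbs.sum_le_tsum _ fun j _ => hb0 j)
  have hfib : ∀ ρ ∈ B.filter (fun ρ => k ρ = j), j * wd ≤ |(ρ : ℂ).im| ∧
      |(ρ : ℂ).im| ≤ j * wd + wd ∧ T1 + 1 ≤ |(ρ : ℂ).im| := by
    intro ρ hρ
    obtain ⟨h1, h2⟩ := Finset.mem_filter.1 hρ
    have h3 := Nat.floor_le (a := |(ρ : ℂ).im| / wd) (by positivity)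
    have h4 := Nat.lt_floor_add_one (|(ρ : ℂ).im| / wd)
    simp only [hk] at h2
    rw [h2] at h3 h4
    rw [le_div_iff₀ hw] at h3
    rw [div_lt_iff₀ hw] at h4
    exact ⟨h3, by linarith, (Finset.mem_filter.1 h1).2⟩
  obtain ⟨ρ0, hρ0, hρ0j⟩ := Finset.mem_image.1 hj
  have hj1 : T1 ≤ j * wd := by
    have := hfib ρ0 (Finset.mem_filter.2 ⟨hρ0, hρ0j⟩)
    linarith [this.2.1, this.2.2]
  have hj0 : 0 < j * wd := by linarith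
  set F := (B.filter fun ρ => k ρ = j).map (Function.Embedding.subtype _) with hF
  have hFm : ∀ ρ ∈ F, ρ ∈ Zs ∧ j * wd ≤ |ρ.im| ∧ |ρ.im| ≤ j * wd + wd := by
    intro ρ hρ
    obtain ⟨σ, hσ, rfl⟩ := Finset.mem_map.1 hρ
    exact ⟨σ.2, (hfib σ hσ).1, (hfib σ hσ).2.1⟩
  have c1 := hc (j * wd) (by rwa [abs_of_pos hj0]) (F.filter fun ρ => 0 ≤ ρ.im) (fun ρ hρ => by
    obtain ⟨h1, h2⟩ := Finset.mem_filter.1 hρ
    obtain ⟨h3, h4, h5⟩ := hFm ρ h1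
    rw [abs_of_nonneg h2] at h4 h5
    exact ⟨h3, abs_le.2 ⟨by linarith, by linarith⟩⟩)
  have c2 := hc (-(j * wd)) (by rwa [abs_neg, abs_of_pos hj0]) (F.filter fun ρ => ¬ 0 ≤ ρ.im)
    (fun ρ hρ => by
      obtain ⟨h1, h2⟩ := Finset.mem_filter.1 hρ
      obtain ⟨h3, h4, h5⟩ := hFm ρ h1
      rw [abs_of_neg (not_le.1 h2)] at h4 h5
      exact ⟨h3, abs_le.2 ⟨by linarith, by linarith⟩⟩)
  rw [abs_neg] at c2
  rw [abs_of_pos hj0] at c1 c2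
  have c3 : ((B.filter fun ρ => k ρ = j).card : ℝ) ≤ 2 * Real.log (j * wd) := by
    have := Finset.card_filter_add_card_filter_not (s := F) (fun ρ => 0 ≤ ρ.im)
    rw [hF, Finset.card_map] at this
    rw [← this]; push_cast; linarith
  have c4 : Real.log (j * wd) ≤ 4 * (j * wd) ^ (1 / 4 : ℝ) := by
    have := Real.log_le_rpow_div hj0.le (ε := 1 / 4) (by norm_num)
    linarith
  calc _ ≤ (B.filter fun ρ => k ρ = j).card • (j * wd) ^ (-(3 / 2) : ℝ) :=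
        Finset.sum_le_card_nsmul _ _ _ fun ρ hρ =>
          Real.rpow_le_rpow_of_nonpos hj0 (hfib ρ hρ).1 (by norm_num)
    _ ≤ 2 * (4 * (j * wd) ^ (1 / 4 : ℝ)) * (j * wd) ^ (-(3 / 2) : ℝ) := by
        rw [nsmul_eq_mul]; gcongr; linarith
    _ = 8 * (j * wd) ^ (-(5 / 4) : ℝ) := by
        rw [show (-(5 / 4) : ℝ) = 1 / 4 + -(3 / 2) by norm_num, Real.rpow_add hj0]; ring
    _ = b j := by
        rw [hb, Real.mul_rpow (Nat.cast_nonneg _) hw.le]; ring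

end Pool.Agent.P.MP_323ce2_nt
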