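import Mathlib
import Pool.Agent.P.MP_323ce2_nt.Tail

open Complex Filter Topology Set MeasureTheory ComplexConjugate Metric Asymptotics
open scoped Real

namespace Pool.Agent.P.MP_323ce2_nt

lemma fin_zeros (X : ℝ) : {ρ | ρ ∈ Zs ∧ |ρ.im| ≤ X}.Finite := by
  have hK : IsCompact (Icc (0 : ℝ) 1 ×ℂ Icc (-X) X) := isCompact_Icc.reProdIm isCompact_Icc
  refine hK.inter_riemannZetaZeros_finite.subset fun ρ hρ => ?_
  exact ⟨⟨⟨hρ.1.2.1.le, hρ.1.2.2.le⟩, abs_le.1 hρ.2⟩, hρ.1.1⟩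

lemma gz_bound {σ t x : ℝ} (ht : 0 < |t|)
    (h : Real.exp (-x) ≤ ‖riemannZeta ((1 / 2 + σ : ℝ) + t * I)‖) :
    ‖gz (1 / 2 + (σ + t * I))‖ ≤ Real.exp x / |t| := by
  have e : (1 / 2 + (σ + t * I) : ℂ) = (1 / 2 + σ : ℝ) + t * I := by push_cast; ring
  have him : ((1 / 2 + σ : ℝ) + t * I : ℂ).im = t := by simp
  have hne : ((1 / 2 + σ : ℝ) + t * I : ℂ) ≠ 1 := by
    intro h1; rw [h1] at him; rw [← him] at ht; simp at ht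
  have hs : |t| ≤ ‖((1 / 2 + σ : ℝ) + t * I : ℂ)‖ := by
    have := abs_im_le_norm ((1 / 2 + σ : ℝ) + t * I : ℂ)
    rwa [him] at this
  rw [e, gz_eq hne, norm_inv, norm_mul]
  calc _ ≤ (|t| * Real.exp (-x))⁻¹ := by gcongr
    _ = _ := by rw [Real.exp_neg]; field_simp

lemma inv_sq_le {t : ℝ} (ht : 1 ≤ |t|) {x : ℝ} (hx : x ≤ Real.log |t| / 4) :
    (Real.exp x / |t|) ^ 2 ≤ 4 * (1 + |t|) ^ (-(3 / 2) : ℝ) := by
  have ht0 : 0 < |t| := by linarith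
  refine le_trans ?_ (rpow_cmp (y := |t|) (by linarith) (by linarith))
  rw [← sqrt_div_sq ht0, div_pow]
  gcongr
  rw [← Real.exp_nat_mul, Real.sqrt_eq_rpow, Real.rpow_def_of_pos ht0, Real.exp_le_exp]
  push_cast; linarith

lemma const_le_dec {c T0 t : ℝ} (hc : 0 ≤ c) (ht : |t| ≤ T0) :
    c ≤ c * (1 + T0) ^ (3 / 2 : ℝ) * (1 + |t|) ^ (-(3 / 2) : ℝ) := by
  have h0 : 0 < 1 + |t| := by positivity
  rw [Real.rpow_neg h0.le, mul_assoc, ← div_eq_mul_inv]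
  refine le_mul_of_one_le_right hc ((one_le_div (by positivity)).2 ?_)
  gcongr

lemma norm_sub_sq_le (a b : ℂ) : ‖a - b‖ ^ 2 ≤ 2 * ‖a‖ ^ 2 + 2 * ‖b‖ ^ 2 := by
  have := norm_sub_le a b
  have h0 := norm_nonneg (a - b)
  nlinarith [sq_nonneg (‖a‖ - ‖b‖)]

lemma SS_sq {Z : Finset ℂ} {A t : ℝ} {w : ℂ} (ht : 1 ≤ |t|) (h : ‖SS Z w‖ ≤ A / |t|) :
    ‖SS Z w‖ ^ 2 ≤ A ^ 2 * (4 * (1 + |t|) ^ (-(3 / 2) : ℝ)) := by
  have h1 := inv_sq_le ht (x := 0) (by have := Real.log_nonneg ht; linarith)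
  rw [Real.exp_zero] at h1
  calc _ ≤ (A / |t|) ^ 2 := by gcongr
    _ = A ^ 2 * (1 / |t|) ^ 2 := by ring
    _ ≤ _ := by gcongr

lemma exists_dec (h : RHs) {Z : Finset ℂ} (hZ : ∀ ρ ∈ Z, ρ.re = 1 / 2) {T0 A : ℝ} (hT0 : 1 ≤ T0)
    (hl : ∀ T : ℝ, T0 ≤ |T| → ∀ σ : ℝ, 1 / 2 + wd ≤ σ → σ ≤ 2 →
      Real.exp (-(Real.log |T| / 1000)) ≤ ‖riemannZeta (σ + T * I)‖)
    (hA : ∀ σ t : ℝ, T0 ≤ |t| → ‖SS Z (σ + t * I)‖ ≤ A / |t|) :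
    ∃ D, 0 ≤ D ∧ ∀ σ t : ℝ, wd ≤ σ → σ ≤ 3 / 2 →
      ‖GG Z (σ + t * I)‖ ^ 2 ≤ D * (1 + |t|) ^ (-(3 / 2) : ℝ) := by
  have hK : IsCompact (Icc wd (3 / 2) ×ℂ Icc (-T0) T0) := isCompact_Icc.reProdIm isCompact_Icc
  obtain ⟨C, hC⟩ := hK.exists_bound_of_continuousOn
    ((differentiableOn_GG h hZ).continuousOn.mono fun w hw => wd_pos.trans_le hw.1.1)
  refine ⟨C ^ 2 * (1 + T0) ^ (3 / 2 : ℝ) + (8 + 8 * A ^ 2), by positivity, fun σ t h1 h2 => ?_⟩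
  have hp : 0 ≤ (1 + |t|) ^ (-(3 / 2) : ℝ) := by positivity
  rw [add_mul]
  rcases le_total |t| T0 with ht | ht
  · have k1 := hC (σ + t * I) ⟨by simpa using ⟨h1, h2⟩, by simpa using abs_le.1 ht⟩
    have k2 : ‖GG Z (σ + t * I)‖ ^ 2 ≤ C ^ 2 := by gcongr
    have k3 := const_le_dec (sq_nonneg C) ht
    have : 0 ≤ (8 + 8 * A ^ 2) * (1 + |t|) ^ (-(3 / 2) : ℝ) := by positivity
    linarith
  · have ht1 : 1 ≤ |t| := hT0.trans ht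
    have k1 := gz_bound (by linarith) (hl t ht (1 / 2 + σ) (by linarith) (by linarith))
    have k2 := inv_sq_le ht1 (x := Real.log |t| / 1000) (by have := Real.log_nonneg ht1; linarith)
    have k3 : ‖gz (1 / 2 + (σ + t * I))‖ ^ 2 ≤ (Real.exp (Real.log |t| / 1000) / |t|) ^ 2 := by
      gcongr
    have k4 := SS_sq ht1 (hA σ t ht)
    have k5 := norm_sub_sq_le (gz (1 / 2 + (σ + t * I))) (SS Z (σ + t * I))
    have : 0 ≤ C ^ 2 * (1 + T0) ^ (3 / 2 : ℝ) * (1 + |t|) ^ (-(3 / 2) : ℝ) := by positivity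
    rw [GG]
    nlinarith

lemma high_le {g : ℝ → ℝ} {D X Tm Tp : ℝ} (hD : 0 ≤ D) (hX : 0 < X) (hm : Tm ≤ -X) (hp : X ≤ Tp)
    (hg0 : ∀ t, 0 ≤ g t) (hg : ∀ t, g t ≤ D * (1 + |t|) ^ (-(3 / 2) : ℝ)) :
    ∫ t in (Ioc Tm Tp)ᶜ, g t ≤
      D * X ^ (-(1 / 4) : ℝ) * ∫ t : ℝ, (1 + |t|) ^ (-(5 / 4) : ℝ) := by
  have i1 : Integrable fun t : ℝ => (1 + |t|) ^ (-(5 / 4) : ℝ) :=
    integrable_one_add_norm (E := ℝ) (μ := volume) (r := 5 / 4) (by simp; norm_num)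
  rw [← integral_const_mul]
  refine le_trans (integral_mono_of_nonneg (Eventually.of_forall hg0)
    (i1.const_mul (D * X ^ (-(1 / 4) : ℝ))).integrableOn ?_)
    (setIntegral_le_integral (i1.const_mul _) (Eventually.of_forall fun t => by positivity))
  refine (ae_restrict_iff' measurableSet_Ioc.compl).2 (Eventually.of_forall fun t ht => ?_)
  have h1 : X ≤ |t| := by
    simp only [mem_compl_iff, mem_Ioc, not_and_or, not_lt, not_le] at ht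
    rcases ht with ht | ht
    · linarith [neg_abs_le t]
    · linarith [le_abs_self t]
  refine (hg t).trans ?_
  have h0 : 0 < 1 + |t| := by positivity
  simp only
  rw [show (-(3 / 2) : ℝ) = -(1 / 4) + -(5 / 4) by norm_num, Real.rpow_add h0, mul_assoc]
  gcongr ?_ * (?_ * _)
  exact Real.rpow_le_rpow_of_nonpos hX (by linarith) (by norm_num)

lemma low_le {g : ℝ → ℝ} {c K δ Tm Tp : ℝ} (Z' : Finset ℂ) (hc : 0 ≤ c) (hK : 0 ≤ K) (hδ : 0 < δ)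
    (hg0 : ∀ t, 0 ≤ g t)
    (hg : ∀ t ∈ Ioc Tm Tp, g t ≤ c * (1 + |t|) ^ (-(3 / 2) : ℝ)
      + K * ∑ ρ ∈ Z', WW ρ * ((ρ.im - t) ^ 2 + δ ^ 2)⁻¹) :
    ∫ t in Ioc Tm Tp, g t ≤ (∫ t : ℝ, c * (1 + |t|) ^ (-(3 / 2) : ℝ))
      + K * ((∑ ρ ∈ Z', WW ρ) * (π / δ)) := by
  have i1 : ∀ ρ ∈ Z', Integrable fun t : ℝ => WW ρ * ((ρ.im - t) ^ 2 + δ ^ 2)⁻¹ :=
    fun ρ _ => (integrable_poisson ρ.im hδ).const_mul _
  have i2 := (integrable_dec c).add ((integrable_finsetSum _ i1).const_mul K)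
  refine le_trans (integral_mono_of_nonneg (Eventually.of_forall hg0) i2.integrableOn
    ((ae_restrict_iff' measurableSet_Ioc).2 (Eventually.of_forall hg)))
    ((setIntegral_le_integral i2 (Eventually.of_forall fun t => ?_)).trans (le_of_eq ?_))
  · have : 0 ≤ ∑ ρ ∈ Z', WW ρ * ((ρ.im - t) ^ 2 + δ ^ 2)⁻¹ :=
      Finset.sum_nonneg fun ρ _ => mul_nonneg (WW_nonneg ρ) (by positivity)
    simp only [Pi.add_apply, Pi.zero_apply]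
    positivity
  · simp only [Pi.add_apply]
    rw [integral_add (integrable_dec c) ((integrable_finsetSum _ i1).const_mul K),
      integral_const_mul K, integral_finsetSum _ i1, Finset.sum_mul]
    congr 2
    refine Finset.sum_congr rfl fun ρ _ => ?_
    rw [integral_const_mul, integral_poisson _ hδ]

lemma exists_cut (T1 : ℝ) {W : Zs → ℝ} (hW : Summable W) {ε : ℝ} (hε : 0 < ε) :
    ∃ T0 : ℝ, T1 + 2 ≤ T0 ∧ (∀ ρ ∈ Zs, |ρ.im| ≠ T0) ∧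
      ∀ A : Finset Zs, (∀ ρ ∈ A, T0 - 1 ≤ |(ρ : ℂ).im|) → ∑ ρ ∈ A, W ρ < ε := by
  obtain ⟨s0, hs0⟩ := hW.vanishing (gt_mem_nhds hε)
  obtain ⟨B0, hB0⟩ := (s0.image fun ρ : Zs => |(ρ : ℂ).im|).bddAbove
  set B := max (T1 + 2) (B0 + 1) with hB
  have hfin : ((fun ρ : ℂ => |ρ.im|) '' {ρ | ρ ∈ Zs ∧ |ρ.im| ≤ B + 1}).Finite :=
    (fin_zeros _).image _
  obtain ⟨T0, hT0, hT0'⟩ := ((Set.Ioo_infinite (lt_add_one B)).sdiff hfin).nonempty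
  refine ⟨T0, (le_max_left _ _).trans hT0.1.le, fun ρ hρ e => hT0' ⟨ρ, ⟨hρ, ?_⟩, e⟩,
    fun A hA => hs0 A (Finset.disjoint_left.2 fun ρ hρ hρ' => ?_)⟩
  · rw [e]; exact hT0.2.le
  · have h1 := hB0 (Finset.mem_coe.2 (Finset.mem_image_of_mem _ hρ'))
    have h2 := hA ρ hρ
    have h3 : B0 + 1 ≤ B := le_max_right _ _
    linarith [hT0.1]

end Pool.Agent.P.MP_323ce2_nt
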