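import Mathlib
import Pool.Agent.P.MP_323ce2_nt.Small

open Complex Filter Topology Set MeasureTheory ComplexConjugate Metric Asymptotics
open scoped Real

namespace Pool.Agent.P.MP_323ce2_nt

lemma horiz_le {Z : Finset ℂ} {A X T σ : ℝ} (hA : 0 ≤ A) (hX : 1 ≤ X) (hT : X ≤ |T|)
    (h1 : Real.exp (-(Real.log X / 40)) ≤ ‖riemannZeta ((1 / 2 + σ : ℝ) + T * I)‖)
    (h2 : ‖SS Z (σ + T * I)‖ ≤ A / |T|) :
    ‖GG Z (σ + T * I)‖ ≤ (1 + A) * Real.exp (-(Real.log X / 2)) := by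
  have hl : 0 ≤ Real.log X := Real.log_nonneg hX
  have k1 := gz_bound (by linarith) h1
  have k2 : Real.exp (Real.log X / 2) / X = Real.exp (-(Real.log X / 2)) := by
    rw [div_eq_iff (by linarith)]
    nth_rewrite 3 [← Real.exp_log (x := X) (by linarith)]
    rw [← Real.exp_add]; ring_nf
  have k3 : Real.exp (Real.log X / 40) / |T| ≤ Real.exp (Real.log X / 2) / X := by
    gcongr; norm_num
  have k4 : A / |T| ≤ A * (Real.exp (Real.log X / 2) / X) := by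
    rw [← mul_div_assoc]
    gcongr
    exact le_mul_of_one_le_right hA (Real.one_le_exp (by linarith))
  rw [GG]
  refine (norm_sub_le _ _).trans ?_
  rw [k2] at k3 k4
  linarith

theorem rest_small (h : RHs) (hs : ∀ ρ ∈ Zs, deriv riemannZeta ρ ≠ 0)
    (hsum : Summable fun ρ : Zs => ‖aa ρ‖ ^ 2) {ε : ℝ} (hε : 0 < ε) :
    ∃ Z : Finset ℂ, (∀ ρ ∈ Z, ρ ∈ Zs) ∧
      ∀ᶠ U : ℝ in atTop, ∫ u in Ioc 0 U, ‖rr Z u‖ ^ 2 ≤ ε * U := by
  classical
  have hw := wd_pos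
  have hw1 : wd = 1 / 1000000 := rfl
  obtain ⟨T1, hT1, hz⟩ := zlocal h hs
  set K : ℝ := 24 * Real.exp 36 with hK
  have hK0 : 0 < K := by positivity
  set ε1 : ℝ := ε / (4 * Real.exp 2 * K * π) with hε1
  have hε10 : 0 < ε1 := by positivity
  obtain ⟨T0, hT0, hT0n, hcut⟩ := exists_cut T1
    (hsum.add (summable_ord hT1 fun T hT => (hz T hT).1)) hε10
  set Z : Finset ℂ := (fin_zeros T0).toFinset with hZ
  have hZm : ∀ ρ, ρ ∈ Z ↔ ρ ∈ Zs ∧ |ρ.im| ≤ T0 := fun ρ => by simp [hZ]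
  have hZs : ∀ ρ ∈ Z, ρ ∈ Zs := fun ρ hρ => ((hZm ρ).1 hρ).1
  have hre : ∀ ρ ∈ Z, ρ.re = 1 / 2 := fun ρ hρ => h ρ (hZs ρ hρ).1 (hZs ρ hρ).2.1 (hZs ρ hρ).2.2
  obtain ⟨A, hA0, hA⟩ := SS_le (Z := Z) (T0 := T0) (by linarith)
    fun ρ hρ => lt_of_le_of_ne ((hZm ρ).1 hρ).2 (hT0n ρ (hZs ρ hρ))
  obtain ⟨D, hD0, hD⟩ := exists_dec h hre (T0 := T0) (by linarith)
    (fun T hT => (hz T (by linarith)).2.1) hA
  obtain ⟨C, hC⟩ := low_bdd h hs (T0 := T0) hZs fun ρ h1 h2 => (hZm ρ).2 ⟨h1, h2⟩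
  set c : ℝ := C ^ 2 * (1 + T0) ^ (3 / 2 : ℝ) + (2 * K + 8 * A ^ 2) with hc
  have hT00 : 0 < 1 + T0 := by linarith
  have hc0 : 0 ≤ c := by positivity
  set E1 : ℝ := Real.exp 2 * ∫ t : ℝ, c * (1 + |t|) ^ (-(3 / 2) : ℝ) with hE1
  set E2 : ℝ := D * ∫ t : ℝ, (1 + |t|) ^ (-(5 / 4) : ℝ) with hE2
  refine ⟨Z, hZs, ?_⟩
  have t1 : Tendsto (fun U : ℝ => Real.exp (8 * wd * U)) atTop atTop :=
    Real.tendsto_exp_atTop.comp (tendsto_id.const_mul_atTop (by positivity))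
  have t2 : Tendsto (fun U : ℝ => (1 + A) * Real.exp (-(3 * wd * U))) atTop (𝓝 ((1 + A) * 0)) :=
    (Real.tendsto_exp_neg_atTop_nhds_zero.comp
      (tendsto_id.const_mul_atTop (by positivity))).const_mul _
  rw [mul_zero] at t2
  filter_upwards [t1.eventually_ge_atTop T0, t2.eventually (gt_mem_nhds (lt_min hε one_pos)),
    eventually_ge_atTop (1 / wd), eventually_ge_atTop ((E1 + E2) / ε)] with U u1 u2 u3 u4
  rw [div_le_iff₀ hw] at u3
  rw [div_le_iff₀ hε] at u4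
  have hU0 : 0 < U := by
    by_contra hU
    push Not at hU
    nlinarith
  set X := Real.exp (8 * wd * U) with hX
  have hX1 : 1 ≤ X := by linarith
  have hlX : Real.log X = 8 * wd * U := Real.log_exp _
  have hδ0 : 0 < 1 / U := by positivity
  have hδ1 : 1 / U ≤ wd := by rw [div_le_iff₀ hU0]; linarith
  have hXa : |X| = X := abs_of_pos (by linarith)
  have hXb : |-X| = X := by rw [abs_neg, hXa]
  obtain ⟨xp, hxp, hxp'⟩ := (hz X (by rw [hXa]; linarith)).2.2.1 0 (by norm_num) (by norm_num)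
  obtain ⟨xm, hxm, hxm'⟩ :=
    (hz (-X) (by rw [hXb]; linarith)).2.2.1 (-1 / 4) (by norm_num) (by norm_num)
  rw [hXa] at hxp'
  rw [hXb] at hxm'
  have p1 : X ≤ X + wd * xp := by nlinarith [hxp.1]
  have p2 : X + wd * xp ≤ X + 1 := by nlinarith [hxp.2]
  have m1 : -X + wd * xm ≤ -X := by nlinarith [hxm.2]
  have m2 : -X - 1 ≤ -X + wd * xm := by nlinarith [hxm.1]
  have p3 : X ≤ |X + wd * xp| := p1.trans (le_abs_self _)
  have m3 : X ≤ |-X + wd * xm| := le_trans (by linarith) (neg_le_abs _)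
  have key := contour_ineq (U := U) (measurable_rr Z) (norm_rr_le hre) (differentiableOn_GG h hre)
    (fun t => laplace_rr hre (by simp; norm_num)) (δ := 1 / U) (η := wd) (Tm := -X + wd * xm)
    (Tp := X + wd * xp) (ω := (1 + A) * Real.exp (-(Real.log X / 2))) hU0.le hδ0 hδ1
    (by rw [hw1]; norm_num) (by linarith) hD
    (fun σ k1 k2 => horiz_le hA0 hX1 m3 (hxm' _ (by linarith) (by linarith))
      (hA _ _ (by linarith)))
    (fun σ k1 k2 => horiz_le hA0 hX1 p3 (hxp' _ (by linarith) (by linarith))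
      (hA _ _ (by linarith)))
  have hhigh := high_le (g := fun t => ‖GG Z (wd + t * I)‖ ^ 2) hD0 (by linarith : 0 < X) m1 p1
    (fun _ => sq_nonneg _) (fun t => hD wd t le_rfl (by rw [hw1]; norm_num))
  set Z' : Finset ℂ := (fin_zeros (X + 2)).toFinset.filter fun ρ => T0 - 1 ≤ |ρ.im| with hZ'
  have hZ'm : ∀ ρ, ρ ∈ Z' ↔ (ρ ∈ Zs ∧ |ρ.im| ≤ X + 2) ∧ T0 - 1 ≤ |ρ.im| := fun ρ => by simp [hZ']
  have hW : ∑ ρ ∈ Z', WW ρ ≤ ε1 := by
    have k1 := hcut (Z'.subtype (· ∈ Zs)) fun ρ hρ => ((hZ'm ρ).1 (Finset.mem_subtype.1 hρ)).2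
    refine le_trans (le_of_eq ?_) k1.le
    rw [← Finset.sum_subtype_of_mem WW fun ρ hρ => ((hZ'm ρ).1 hρ).1.1]
    refine Finset.sum_congr rfl fun ρ hρ => ?_
    rw [if_pos (by linarith [((hZ'm ρ).1 (Finset.mem_subtype.1 hρ)).2]), WW]
  have hlow := low_le (g := fun t => ‖GG Z ((1 / U : ℝ) + t * I)‖ ^ 2) (Tm := -X + wd * xm)
    (Tp := X + wd * xp) Z' hc0 (K := 2 * K) (by positivity) hδ0 (fun _ => sq_nonneg _)
    (fun t ht => by
      have hp : 0 ≤ (1 + |t|) ^ (-(3 / 2) : ℝ) := by positivity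
      have hs0 : 0 ≤ ∑ ρ ∈ Z', WW ρ * ((ρ.im - t) ^ 2 + (1 / U) ^ 2)⁻¹ :=
        Finset.sum_nonneg fun ρ _ => mul_nonneg (WW_nonneg ρ) (by positivity)
      rw [hc, add_mul]
      rcases le_total |t| T0 with ht0 | ht0
      · have k1 := hC (1 / U) t hδ0 (by linarith) ht0
        have k2 : ‖GG Z ((1 / U : ℝ) + t * I)‖ ^ 2 ≤ C ^ 2 := by gcongr
        have k3 := const_le_dec (sq_nonneg C) ht0
        have : 0 ≤ (2 * K + 8 * A ^ 2) * (1 + |t|) ^ (-(3 / 2) : ℝ) := by positivity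
        have : 0 ≤ 2 * K * ∑ ρ ∈ Z', WW ρ * ((ρ.im - t) ^ 2 + (1 / U) ^ 2)⁻¹ := by positivity
        linarith
      · have ht1 : |t| ≤ X + 1 := abs_le.2 ⟨by linarith [ht.1], by linarith [ht.2]⟩
        have hlog : Real.log |t| ≤ 9 * wd * U := by
          have k1 : Real.log |t| ≤ Real.log (2 * X) := Real.log_le_log (by linarith) (by linarith)
          rw [Real.log_mul (by norm_num) (by linarith), hlX] at k1
          linarith [Real.log_two_lt_d9]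
        obtain ⟨B, hB, hB'⟩ := (hz t (by linarith)).2.2.2 (1 / U) hδ0 hδ1 (by
          rw [one_div, inv_mul_le_iff₀ hU0]; nlinarith)
        have k1 := gz_pointwise h (by linarith) hδ0 (Z' := Z') hB (fun ρ hρ hρ' => by
          have e1 := abs_sub_abs_le_abs_sub ρ.im t
          have e2 := abs_sub_abs_le_abs_sub t ρ.im
          rw [abs_sub_comm] at e2
          exact (hZ'm ρ).2 ⟨⟨hρ, by linarith⟩, by linarith⟩) hB'
        have k4 := SS_sq (by linarith) (hA (1 / U) t ht0)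
        have k5 := norm_sub_sq_le (gz (1 / 2 + ((1 / U : ℝ) + t * I))) (SS Z ((1 / U : ℝ) + t * I))
        have : 0 ≤ C ^ 2 * (1 + T0) ^ (3 / 2 : ℝ) * (1 + |t|) ^ (-(3 / 2) : ℝ) := by positivity
        rw [← hK] at k1
        rw [GG]
        nlinarith)
  set J := ∫ u in Ioc 0 U, ‖rr Z u‖ ^ 2 with hJ
  have hJ0 : 0 ≤ J := integral_nonneg fun _ => sq_nonneg _
  have a1 : Real.exp (2 * (1 / U) * U) * (∫ t in Ioc (-X + wd * xm) (X + wd * xp),
      ‖GG Z ((1 / U : ℝ) + t * I)‖ ^ 2) ≤ E1 + ε * U / 2 := by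
    rw [show 2 * (1 / U) * U = 2 by field_simp]
    refine (mul_le_mul_of_nonneg_left hlow (Real.exp_pos _).le).trans ?_
    rw [mul_add, ← hE1]
    refine add_le_add le_rfl ?_
    calc _ ≤ Real.exp 2 * (2 * K * (ε1 * (π / (1 / U)))) := by gcongr
      _ = _ := by rw [hε1]; field_simp; ring
  have a2 : Real.exp (2 * wd * U) * (∫ t in (Ioc (-X + wd * xm) (X + wd * xp))ᶜ,
      ‖GG Z (wd + t * I)‖ ^ 2) ≤ E2 := by
    refine (mul_le_mul_of_nonneg_left hhigh (Real.exp_pos _).le).trans (le_of_eq ?_)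
    have : Real.exp (2 * wd * U) * X ^ (-(1 / 4) : ℝ) = 1 := by
      rw [Real.rpow_def_of_pos (by linarith), hlX, ← Real.exp_add, Real.exp_eq_one_iff]
      ring
    rw [hE2]
    linear_combination (D * ∫ t : ℝ, (1 + |t|) ^ (-(5 / 4) : ℝ)) * this
  have a3 : (1 + A) * Real.exp (-(Real.log X / 2)) * (Real.exp (wd * U) * (U + J) / 2) =
      (1 + A) * Real.exp (-(3 * wd * U)) * (U + J) / 2 := by
    have : Real.exp (-(Real.log X / 2)) * Real.exp (wd * U) = Real.exp (-(3 * wd * U)) := by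
      rw [hlX, ← Real.exp_add]; congr 1; ring
    rw [← this]; ring
  rw [a3] at key
  have b1 := (lt_min_iff.1 u2).1
  have b2 := (lt_min_iff.1 u2).2
  set ω := (1 + A) * Real.exp (-(3 * wd * U))
  have b3 : ω * U ≤ ε * U := by gcongr
  have b4 : ω * J ≤ J := mul_le_of_le_one_left hJ0 b2.le
  have b5 : 3 * J ≤ π * J := by gcongr; exact Real.pi_gt_three.le
  nlinarith

end Pool.Agent.P.MP_323ce2_nt
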