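import Mathlib
import Pool.Agent.P.MP_323ce2_nt.RestSmall
import Pool.Agent.P.MP_323ce2_nt.Main

open Complex Filter Topology Set MeasureTheory ComplexConjugate Metric Asymptotics
open scoped Real

namespace Pool.Agent.P.MP_323ce2_nt

lemma cross_exp {ρ σ : ℂ} (hρ : ρ.re = 1 / 2) (hσ : σ.re = 1 / 2) : ∃ B : ℝ, ∀ U : ℝ,
    ‖(∫ u in (0 : ℝ)..U, exp ((ρ - 1 / 2 + conj (σ - 1 / 2)) * u))
      - (if ρ = σ then (U : ℂ) else 0)‖ ≤ B := by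
  have hre : (ρ - 1 / 2 + conj (σ - 1 / 2)).re = 0 := by simp [hρ, hσ]
  by_cases h : ρ = σ
  · subst h
    refine ⟨0, fun U => ?_⟩
    have e : ρ - 1 / 2 + conj (ρ - 1 / 2) = 0 := Complex.ext hre (by simp)
    simp only [e]
    simp
  · have hne : ρ - 1 / 2 + conj (σ - 1 / 2) ≠ 0 := by
      intro e
      have := congrArg im e
      simp at this
      exact h (Complex.ext (by rw [hρ, hσ]) (by linarith))
    refine ⟨2 / ‖ρ - 1 / 2 + conj (σ - 1 / 2)‖, fun U => ?_⟩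
    rw [if_neg h, sub_zero, integral_exp_mul_complex hne, norm_div]
    gcongr
    refine (norm_sub_le _ _).trans ?_
    rw [norm_exp, norm_exp, mul_re, mul_re, hre]
    norm_num

lemma PP_sq {Z : Finset ℂ} (hZ : ∀ ρ ∈ Z, ρ.re = 1 / 2) : ∃ B : ℝ, ∀ U : ℝ, 0 ≤ U →
    ∫ u in Ioc 0 U, ‖PP Z u‖ ^ 2 ≤ (∑ ρ ∈ Z, ‖aa ρ‖ ^ 2) * U + B := by
  classical
  have hc : ∀ ρ σ : ℂ, ∃ B : ℝ, ρ ∈ Z → σ ∈ Z → ∀ U : ℝ,
      ‖(∫ u in (0 : ℝ)..U, exp ((ρ - 1 / 2 + conj (σ - 1 / 2)) * u))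
        - (if ρ = σ then (U : ℂ) else 0)‖ ≤ B := by
    intro ρ σ
    by_cases h : ρ ∈ Z ∧ σ ∈ Z
    · obtain ⟨B, hB⟩ := cross_exp (hZ ρ h.1) (hZ σ h.2)
      exact ⟨B, fun _ _ => hB⟩
    · exact ⟨0, fun h1 h2 => absurd ⟨h1, h2⟩ h⟩
  choose B hB using hc
  refine ⟨∑ ρ ∈ Z, ∑ σ ∈ Z, ‖aa ρ * conj (aa σ)‖ * B ρ σ, fun U hU => ?_⟩
  have e1 : ∀ u : ℝ, ((‖PP Z u‖ ^ 2 : ℝ) : ℂ) = ∑ ρ ∈ Z, ∑ σ ∈ Z,
      aa ρ * conj (aa σ) * exp ((ρ - 1 / 2 + conj (σ - 1 / 2)) * u) := by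
    intro u
    rw [← normSq_eq_norm_sq, ← mul_conj, PP, map_sum, Finset.sum_mul_sum]
    refine Finset.sum_congr rfl fun ρ _ => Finset.sum_congr rfl fun σ _ => ?_
    rw [map_mul, ← exp_conj, map_mul, conj_ofReal, add_mul, exp_add]; ring
  have e2 : ((∫ u in Ioc 0 U, ‖PP Z u‖ ^ 2 : ℝ) : ℂ) = ∑ ρ ∈ Z, ∑ σ ∈ Z,
      aa ρ * conj (aa σ) * ∫ u in (0 : ℝ)..U, exp ((ρ - 1 / 2 + conj (σ - 1 / 2)) * u) := by
    rw [← intervalIntegral.integral_of_le hU, ← intervalIntegral.integral_ofReal]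
    simp only [e1]
    rw [intervalIntegral.integral_finsetSum fun ρ _ => Continuous.intervalIntegrable (by fun_prop) _ _]
    refine Finset.sum_congr rfl fun ρ _ => ?_
    rw [intervalIntegral.integral_finsetSum fun ρ _ => Continuous.intervalIntegrable (by fun_prop) _ _]
    refine Finset.sum_congr rfl fun σ _ => ?_
    rw [intervalIntegral.integral_const_mul]
  have e3 : (((∑ ρ ∈ Z, ‖aa ρ‖ ^ 2) * U : ℝ) : ℂ) = ∑ ρ ∈ Z, ∑ σ ∈ Z,
      aa ρ * conj (aa σ) * (if ρ = σ then (U : ℂ) else 0) := by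
    rw [Finset.sum_mul, ofReal_sum]
    refine Finset.sum_congr rfl fun ρ hρ => ?_
    simp [hρ, mul_conj, normSq_eq_norm_sq]
  have e4 : ‖((∫ u in Ioc 0 U, ‖PP Z u‖ ^ 2 : ℝ) : ℂ) - (((∑ ρ ∈ Z, ‖aa ρ‖ ^ 2) * U : ℝ) : ℂ)‖
      ≤ ∑ ρ ∈ Z, ∑ σ ∈ Z, ‖aa ρ * conj (aa σ)‖ * B ρ σ := by
    rw [e2, e3, ← Finset.sum_sub_distrib]
    refine norm_sum_le_of_le _ fun ρ hρ => ?_
    rw [← Finset.sum_sub_distrib]
    refine norm_sum_le_of_le _ fun σ hσ => ?_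
    rw [← mul_sub, norm_mul]
    gcongr
    exact hB ρ σ hρ hσ U
  rw [← ofReal_sub, norm_real, Real.norm_eq_abs] at e4
  linarith [(abs_le.1 e4).2]

lemma II_exp {U : ℝ} (hU : 0 ≤ U) : II (Real.exp U) = ∫ u in Ioc 0 U, mm u ^ 2 := by
  rw [II, intervalIntegral.integral_of_le (Real.one_le_exp hU), ← Real.exp_zero,
    ← Real.image_exp_Ioc, integral_image_eq_integral_abs_deriv_smul measurableSet_Ioc
      (fun x _ => (Real.hasDerivAt_exp x).hasDerivWithinAt) Real.exp_injective.injOn]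
  congr 1; ext u
  have h1 : Real.exp (-(u / 2)) ^ 2 = (Real.exp u)⁻¹ := by
    rw [← Real.exp_nat_mul, ← Real.exp_neg]; congr 1; push_cast; ring
  rw [abs_of_pos (Real.exp_pos u), smul_eq_mul, mm, mul_pow, h1]
  field_simp

theorem upper (h : RHs) (hs : ∀ ρ ∈ Zs, deriv riemannZeta ρ ≠ 0)
    (hsum : Summable fun ρ : Zs => ‖aa ρ‖ ^ 2) {ε : ℝ} (hε : 0 < ε) :
    ∀ᶠ x : ℝ in atTop, II x / Real.log x ≤ (∑' ρ : Zs, ‖aa ρ‖ ^ 2) + ε := by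
  classical
  set S := ∑' ρ : Zs, ‖aa ρ‖ ^ 2 with hS
  have hS0 : 0 ≤ S := tsum_nonneg fun _ => sq_nonneg _
  set κ := ε / (3 * (S + 1)) with hκ
  have hκ0 : 0 < κ := by positivity
  obtain ⟨Z, hZ, hr⟩ := rest_small h hs hsum (ε := ε / (3 * (1 + 1 / κ))) (by positivity)
  have hre : ∀ ρ ∈ Z, ρ.re = 1 / 2 := fun ρ hρ => h ρ (hZ ρ hρ).1 (hZ ρ hρ).2.1 (hZ ρ hρ).2.2
  obtain ⟨B, hB⟩ := PP_sq hre
  have hSZ : ∑ ρ ∈ Z, ‖aa ρ‖ ^ 2 ≤ S := by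
    rw [← Finset.sum_subtype_of_mem (fun ρ => ‖aa ρ‖ ^ 2) hZ]
    exact hsum.sum_le_tsum _ fun _ _ => sq_nonneg _
  have key : ∀ᶠ U : ℝ in atTop, II (Real.exp U) ≤ (S + ε) * U := by
    filter_upwards [hr, eventually_ge_atTop 0, eventually_ge_atTop ((1 + κ) * B / (ε / 3))]
      with U u1 u2 u3
    rw [div_le_iff₀ (by positivity)] at u3
    have i1 : IntegrableOn (fun u => ‖PP Z u‖ ^ 2) (Ioc 0 U) :=
      ((continuous_PP Z).norm.pow 2).integrableOn_Icc.mono_set Ioc_subset_Icc_self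
    have i2 := integrableOn_sq (U := U) (measurable_rr Z) (norm_rr_le hre)
    have k1 : ∫ u in Ioc 0 U, mm u ^ 2 ≤
        ∫ u in Ioc 0 U, ((1 + κ) * ‖PP Z u‖ ^ 2 + (1 + 1 / κ) * ‖rr Z u‖ ^ 2) := by
      refine integral_mono_of_nonneg (Eventually.of_forall fun _ => sq_nonneg _)
        ((i1.const_mul _).add (i2.const_mul _)) (Eventually.of_forall fun u => ?_)
      have e : |mm u| ≤ ‖PP Z u‖ + ‖rr Z u‖ := by
        have := norm_add_le (PP Z u) (rr Z u)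
        rwa [rr, add_sub_cancel, norm_real, Real.norm_eq_abs] at this
      simp only
      set a := ‖PP Z u‖
      set b := ‖rr Z u‖
      have e2 : (1 + κ) * a ^ 2 + (1 + 1 / κ) * b ^ 2 - (a + b) ^ 2 = (κ * a - b) ^ 2 / κ := by
        field_simp; ring
      have e3 : 0 ≤ (κ * a - b) ^ 2 / κ := by positivity
      have e4 : mm u ^ 2 ≤ (a + b) ^ 2 := by rw [← sq_abs]; gcongr
      linarith
    rw [integral_add (i1.const_mul _) (i2.const_mul _), integral_const_mul, integral_const_mul] at k1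
    rw [II_exp u2]
    have k2 : (1 + κ) * ∫ u in Ioc 0 U, ‖PP Z u‖ ^ 2 ≤ (1 + κ) * (S * U + B) := by
      gcongr
      refine (hB U u2).trans ?_
      gcongr
    have k3 : (1 + 1 / κ) * ∫ u in Ioc 0 U, ‖rr Z u‖ ^ 2 ≤
        (1 + 1 / κ) * (ε / (3 * (1 + 1 / κ)) * U) := by gcongr
    have k4 : (1 + 1 / κ) * (ε / (3 * (1 + 1 / κ)) * U) = ε / 3 * U := by field_simp
    have k5 : κ * S ≤ ε / 3 := by
      rw [hκ, div_mul_eq_mul_div, div_le_div_iff₀ (by positivity) (by norm_num)]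
      nlinarith
    have k6 : κ * S * U ≤ ε / 3 * U := by gcongr
    nlinarith
  filter_upwards [Real.tendsto_log_atTop.eventually key, eventually_gt_atTop 1] with x hx hx1
  rw [Real.exp_log (by linarith)] at hx
  rwa [div_le_iff₀ (Real.log_pos hx1)]

theorem limit :
    Tendsto (fun x : ℝ => ENNReal.ofReal (II x / Real.log x)) atTop
      (𝓝 (∑' ρ : {ρ : ℂ // riemannZeta ρ = 0 ∧ 0 < ρ.re ∧ ρ.re < 1},
        (if (ρ : ℂ).re = 1 / 2 then (ENNReal.ofReal (‖(ρ : ℂ) * deriv riemannZeta ρ‖ ^ 2))⁻¹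
          else ⊤))) := by
  refine tendsto_of_le_liminf_of_limsup_le main ?_
  set w : {ρ : ℂ // riemannZeta ρ = 0 ∧ 0 < ρ.re ∧ ρ.re < 1} → ENNReal := fun ρ =>
    if (ρ : ℂ).re = 1 / 2 then (ENNReal.ofReal (‖(ρ : ℂ) * deriv riemannZeta ρ‖ ^ 2))⁻¹ else ⊤
    with hw
  rcases eq_or_ne (∑' ρ, w ρ) ⊤ with htop | htop
  · rw [htop]; exact le_top
  have hne : ∀ ρ, w ρ ≠ ⊤ := ENNReal.ne_top_of_tsum_ne_top htop
  have h1 : ∀ ρ : {ρ : ℂ // riemannZeta ρ = 0 ∧ 0 < ρ.re ∧ ρ.re < 1},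
      (ρ : ℂ).re = 1 / 2 ∧ 0 < ‖(ρ : ℂ) * deriv riemannZeta ρ‖ ^ 2 := by
    intro ρ
    have := hne ρ
    simp only [hw] at this
    split_ifs at this with h
    · refine ⟨h, ?_⟩
      rwa [ENNReal.inv_ne_top, Ne, ENNReal.ofReal_eq_zero, not_le] at this
    · exact absurd rfl this
  have hRH : RHs := fun s k1 k2 k3 => (h1 ⟨s, k1, k2, k3⟩).1
  have hs : ∀ ρ ∈ Zs, deriv riemannZeta ρ ≠ 0 := by
    intro ρ hρ e
    have := (h1 ⟨ρ, hρ⟩).2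
    simp [e] at this
  have h2 : ∀ ρ, w ρ = ENNReal.ofReal (‖aa ρ‖ ^ 2) := by
    intro ρ
    simp only [hw]
    rw [if_pos (h1 ρ).1, aa, norm_inv, inv_pow, ENNReal.ofReal_inv_of_pos (h1 ρ).2]
  have hsum : Summable fun ρ : Zs => ‖aa ρ‖ ^ 2 := by
    have := ENNReal.summable_toReal htop
    simp only [h2, ENNReal.toReal_ofReal (sq_nonneg _)] at this
    exact this
  have h3 : ∑' ρ, w ρ = ENNReal.ofReal (∑' ρ : Zs, ‖aa ρ‖ ^ 2) := by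
    rw [ENNReal.ofReal_tsum_of_nonneg (fun _ => sq_nonneg _) hsum]
    exact tsum_congr h2
  rw [h3]
  refine ENNReal.le_of_forall_pos_le_add fun ε hε _ => ?_
  refine limsup_le_of_le (by isBoundedDefault) ?_
  filter_upwards [upper hRH hs hsum (ε := ε) (by exact_mod_cast hε)] with x hx
  refine (ENNReal.ofReal_le_ofReal hx).trans ?_
  rw [ENNReal.ofReal_add (tsum_nonneg fun _ => sq_nonneg _) (by positivity),
    ENNReal.ofReal_coe_nnreal]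

end Pool.Agent.P.MP_323ce2_nt
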