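import Mathlib
import Pool.Agent.P.MP_323ce2_nt.Limit

open Complex Filter Topology Set MeasureTheory

namespace Pool.Agent.P.MP_323ce2_nt

/-- Corollary: the weak Mertens hypothesis holds if and only if the weighted sum over the zeros
is finite (all zeros on the line, all simple, and the series converges). -/
theorem wmh_iff :
    (∃ C : ℝ, ∀ x : ℝ, 2 ≤ x → II x ≤ C * Real.log x) ↔
      (∑' ρ : {ρ : ℂ // riemannZeta ρ = 0 ∧ 0 < ρ.re ∧ ρ.re < 1},
        (if (ρ : ℂ).re = 1 / 2 then (ENNReal.ofReal (‖(ρ : ℂ) * deriv riemannZeta ρ‖ ^ 2))⁻¹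
          else ⊤)) ≠ ⊤ := by
  constructor
  · rintro ⟨C, hC⟩
    refine ne_top_of_le_ne_top (ENNReal.ofReal_ne_top (r := C)) (le_of_tendsto limit ?_)
    filter_upwards [eventually_ge_atTop 2] with x hx
    refine ENNReal.ofReal_le_ofReal ?_
    rw [div_le_iff₀ (Real.log_pos (by linarith))]
    exact hC x hx
  · intro h
    obtain ⟨b, hb, hb'⟩ := exists_between (lt_top_iff_ne_top.2 h)
    obtain ⟨X, hX⟩ := eventually_atTop.1 (limit.eventually (gt_mem_nhds hb))
    have hl2 : 0 < Real.log 2 := Real.log_pos one_lt_two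
    refine ⟨b.toReal + II (max X 2) / Real.log 2, fun x hx => ?_⟩
    have hlx : Real.log 2 ≤ Real.log x := Real.log_le_log two_pos hx
    have hM : 0 ≤ II (max X 2) := II_nonneg (le_trans one_le_two (le_max_right _ _))
    rw [add_mul]
    rcases le_total X x with h1 | h1
    · have h2 := (ENNReal.ofReal_le_iff_le_toReal hb'.ne).1 (hX x h1).le
      rw [div_le_iff₀ (by linarith)] at h2
      have : 0 ≤ II (max X 2) / Real.log 2 * Real.log x := by
        have : 0 ≤ Real.log x := by linarith
        positivity
      linarith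
    · have h2 : II x ≤ II (max X 2) :=
        intervalIntegral.integral_mono_interval le_rfl (by linarith) (h1.trans (le_max_left _ _))
          (Eventually.of_forall fun _ => sq_nonneg _)
          (ii_sq (le_trans one_le_two (le_max_right _ _)))
      have h3 : II (max X 2) ≤ II (max X 2) / Real.log 2 * Real.log x := by
        rw [div_mul_eq_mul_div, le_div_iff₀ hl2]; gcongr
      have : 0 ≤ b.toReal * Real.log x := mul_nonneg ENNReal.toReal_nonneg (by linarith)
      linarith

end Pool.Agent.P.MP_323ce2_nt
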